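import Pool.Agent.H564Z.MonoC0

set_option autoImplicit false

namespace Pool.Agent.H564Z.Mono

open Filter Topology

section general

variable {X : Type} [NormedAddCommGroup X] [NormedSpace ℝ X]

def IsMono (M : Set (X × (X →L[ℝ] ℝ))) : Prop :=
  ∀ p ∈ M, ∀ q ∈ M, 0 ≤ (p.2 - q.2) (p.1 - q.1)

lemma pair_symm (p q : X × (X →L[ℝ] ℝ)) : (p.2 - q.2) (p.1 - q.1) = (q.2 - p.2) (q.1 - p.1) := by
  simp only [ContinuousLinearMap.sub_apply, map_sub]; ring

lemma exists_maximal_ext {M0 : Set (X × (X →L[ℝ] ℝ))} (h : IsMono M0) :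
    ∃ M, M0 ⊆ M ∧ IsMono M ∧ ∀ p : X × (X →L[ℝ] ℝ),
      (∀ q ∈ M, 0 ≤ (p.2 - q.2) (p.1 - q.1)) → p ∈ M := by
  obtain ⟨M, hM0, hM⟩ := zorn_subset_nonempty {M : Set (X × (X →L[ℝ] ℝ)) | IsMono M} (by
    intro c hc hchain _
    refine ⟨⋃₀ c, ?_, fun s hs => Set.subset_sUnion_of_mem hs⟩
    rintro p ⟨s, hs, hp⟩ q ⟨t, ht, hq⟩
    rcases hchain.total hs ht with hst | hst
    · exact hc ht p (hst hp) q hq
    · exact hc hs p hp q (hst hq)) M0 h
  refine ⟨M, hM0, hM.prop, fun p hp => ?_⟩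
  have h1 : IsMono (insert p M) := by
    rintro a (rfl | ha) b (rfl | hb)
    · simp
    · exact hp b hb
    · rw [pair_symm]; exact hp a ha
    · exact hM.prop a ha b hb
  exact hM.le_of_ge h1 (Set.subset_insert _ _) (Set.mem_insert _ _)

/-- a continuous monotone linear operator is maximally monotone -/
lemma lin_maximal (A : X →L[ℝ] (X →L[ℝ] ℝ)) (x : X) (c : X →L[ℝ] ℝ)
    (h : ∀ y, 0 ≤ (c - A y) (x - y)) : c = A x := by
  have key : ∀ v : X, 0 ≤ (c - A x) v := by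
    intro v
    by_contra hneg
    push Not at hneg
    set d := (c - A x) v with hd
    set t := -d / (|A v v| + 1) with ht
    have hpos : 0 < |A v v| + 1 := by positivity
    have ht0 : 0 < t := div_pos (by linarith) hpos
    have h1 := h (x - t • v)
    have h2 : (c - A (x - t • v)) (x - (x - t • v)) = t * (d + t * A v v) := by
      simp only [hd, sub_sub_cancel, map_sub, map_smul, ContinuousLinearMap.sub_apply,
        ContinuousLinearMap.smul_apply, smul_eq_mul]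
      ring
    rw [h2] at h1
    have h3 : 0 ≤ d + t * A v v := nonneg_of_mul_nonneg_right (by linarith) ht0 |> fun h => h
    have h4 : t * (|A v v| + 1) = -d := by rw [ht]; field_simp
    have h5 : t * A v v ≤ t * |A v v| := mul_le_mul_of_nonneg_left (le_abs_self _) ht0.le
    nlinarith
  ext v
  have h1 := key v
  have h2 := key (-v)
  simp only [map_neg, ContinuousLinearMap.sub_apply] at h1 h2
  linarith

end general

section abstract

variable {Z : Type} [NormedAddCommGroup Z] [NormedSpace ℝ Z]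

noncomputable def mk (t : ℝ) (f : Z →L[ℝ] ℝ) : (ℝ × Z) →L[ℝ] ℝ :=
  t • ContinuousLinearMap.fst ℝ ℝ Z + f.comp (ContinuousLinearMap.snd ℝ ℝ Z)

@[simp] lemma mk_apply (t : ℝ) (f : Z →L[ℝ] ℝ) (x : ℝ × Z) : mk t f x = t * x.1 + f x.2 := by
  simp [mk]

lemma exists_mk (φ : (ℝ × Z) →L[ℝ] ℝ) : ∃ t f, φ = mk t f := by
  refine ⟨φ (1, 0), φ.comp (ContinuousLinearMap.inr ℝ ℝ Z), ?_⟩
  refine ContinuousLinearMap.ext fun x => ?_
  obtain ⟨s, y⟩ := x
  have : ((s, y) : ℝ × Z) = s • ((1 : ℝ), (0 : Z)) + (0, y) := by simp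
  rw [mk_apply, this, map_add, map_smul]
  simp [mul_comm]

lemma lin_zero {c d : ℝ} (h : ∀ l : ℝ, 0 ≤ c + l * d) : d = 0 := by
  by_contra hd
  have := h (-(c + 1) / d)
  rw [div_mul_cancel₀ _ hd] at this
  linarith

theorem exists_bad (T : (Z →L[ℝ] ℝ) →ₗ[ℝ] Z) (hQ : ∀ f : Z →L[ℝ] ℝ, 0 ≤ f (T f))
    (htot : ∀ y : Z, (∀ z : Z →L[ℝ] ℝ, z (T z) = 0 → z y = 0) → y = 0)
    (x : ℕ → Z →L[ℝ] ℝ) (hx0 : x 0 = 0)
    (hx : ∀ n m, (x m - x n) (T (x m - x n)) ≤ ((1 / 2) ^ n - (1 / 2) ^ m) ^ 2)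
    (hfar : ∀ f : Z →L[ℝ] ℝ, ∃ ρ : ℝ, 0 < ρ ∧ ∀ᶠ n in atTop, ρ ≤ (f - x n) (T (f - x n))) :
    ∃ M : Set ((ℝ × Z) × ((ℝ × Z) →L[ℝ] ℝ)), IsMono M ∧
      (∀ p : (ℝ × Z) × ((ℝ × Z) →L[ℝ] ℝ), (∀ q ∈ M, 0 ≤ (p.2 - q.2) (p.1 - q.1)) → p ∈ M) ∧
      (∃ p ∈ M, p.1.1 = -1) ∧ (∃ p ∈ M, p.1.1 = 3) ∧
      ∀ p ∈ M, ∃ (t σ τ : ℝ) (f : Z →L[ℝ] ℝ), 0 < σ ∧ 0 < τ ∧ p.2 = mk t f ∧ p.1.2 = -T f ∧
        f (T f) ≤ (1 + σ) * (1 + τ) ∧
        ((p.1.1 = -σ ∧ t = -τ) ∨ (p.1.1 = 2 + σ ∧ t = τ)) := by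
  have hrad : ∀ z : Z →L[ℝ] ℝ, z (T z) = 0 → ∀ g : Z →L[ℝ] ℝ, g (T z) + z (T g) = 0 := by
    intro z hz g
    refine lin_zero (c := g (T g)) fun l => ?_
    have := hQ (g + l • z)
    simp only [map_add, map_smul, ContinuousLinearMap.add_apply, ContinuousLinearMap.smul_apply,
      smul_eq_mul, hz] at this
    linarith
  set a : ℕ → ℝ := fun n => (1 / 2) ^ n with ha
  have ha0 : ∀ n, 0 < a n := fun n => by simp only [ha]; positivity
  have halim : Tendsto a atTop (𝓝 0) :=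
    tendsto_pow_atTop_nhds_zero_of_lt_one (by norm_num) (by norm_num)
  set P : ℝ → ℝ → (Z →L[ℝ] ℝ) → (ℝ × Z) × ((ℝ × Z) →L[ℝ] ℝ) :=
    fun s t f => ((s, -T f), mk t f) with hP
  have hpair : ∀ s t f s' t' f', ((P s t f).2 - (P s' t' f').2) ((P s t f).1 - (P s' t' f').1) =
      (s - s') * (t - t') - (f - f') (T (f - f')) := by
    intro s t f s' t' f'
    simp only [hP, ContinuousLinearMap.sub_apply, mk_apply, Prod.fst_sub, Prod.snd_sub, map_sub,
      map_neg]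
    ring
  set M0 : Set ((ℝ × Z) × ((ℝ × Z) →L[ℝ] ℝ)) := {p | ∃ n z, z (T z) = 0 ∧
    (p = P (-a n) (-a n) (x n + z) ∨ p = P (2 + a n) (a n) (x n + z))} with hM0
  have hQz : ∀ n m (z z' : Z →L[ℝ] ℝ), z (T z) = 0 → z' (T z') = 0 →
      (x n + z - (x m + z')) (T (x n + z - (x m + z'))) ≤ (a m - a n) ^ 2 := by
    intro n m z z' hz hz'
    have h1 := hx m n
    have h2 := hrad z hz (x n - x m)
    have h3 := hrad z' hz' (x n - x m)
    have h4 := hrad z hz z'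
    have e1 : x n + z - (x m + z') = (x n - x m) + z - z' := by abel
    rw [e1]
    generalize x n - x m = w at *
    simp only [map_add, map_sub, ContinuousLinearMap.add_apply, ContinuousLinearMap.sub_apply]
    linarith
  have hmono0 : IsMono M0 := by
    rintro p ⟨n, z, hz, hp⟩ q ⟨m, z', hz', hq⟩
    have h1 := hQz n m z z' hz hz'
    have h2 := ha0 n
    have h3 := ha0 m
    have h4 := mul_pos h2 h3
    rcases hp with rfl | rfl <;> rcases hq with rfl | rfl <;> rw [hpair] <;> nlinarith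
  obtain ⟨M, hsub, hmono, hmax⟩ := exists_maximal_ext hmono0
  refine ⟨M, hmono, hmax, ⟨P (-a 0) (-a 0) (x 0 + 0), hsub ⟨0, 0, by simp, Or.inl rfl⟩, by
    simp [hP, ha]⟩, ⟨P (2 + a 0) (a 0) (x 0 + 0), hsub ⟨0, 0, by simp, Or.inr rfl⟩, by
    simp [hP, ha]; norm_num⟩, ?_⟩
  rintro ⟨⟨s, y⟩, φ⟩ hp
  obtain ⟨t, f, rfl⟩ := exists_mk φ
  have hy : y = -T f := by
    rw [← add_eq_zero_iff_eq_neg]
    refine htot _ fun z hz => ?_
    have := lin_zero (c := (s + 1) * (t + 1) + f y) (d := -z (y + T f)) fun l => by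
      have hz' : (l • z) (T (l • z)) = 0 := by simp [hz]
      have h1 := hmono _ hp _ (hsub ⟨0, l • z, hz', Or.inl rfl⟩)
      have h2 := hrad z hz f
      simp only [hP, ha, hx0, pow_zero, zero_add, ContinuousLinearMap.sub_apply, mk_apply,
        Prod.fst_sub, Prod.snd_sub, map_sub, map_neg, map_smul, map_add,
        ContinuousLinearMap.smul_apply, smul_eq_mul, hz] at h1 ⊢
      have h3 : f (T z) = -z (T f) := by linarith
      rw [h3] at h1
      linarith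
    linarith
  subst hy
  have hL : ∀ n, (f - x n) (T (f - x n)) ≤ (s + a n) * (t + a n) := by
    intro n
    have h1 := hmono (P s t f) hp _ (hsub ⟨n, 0, by simp, Or.inl rfl⟩)
    rw [hpair, add_zero] at h1
    linarith
  have hR : ∀ n, (f - x n) (T (f - x n)) ≤ (s - 2 - a n) * (t - a n) := by
    intro n
    have h1 := hmono (P s t f) hp _ (hsub ⟨n, 0, by simp, Or.inr rfl⟩)
    rw [hpair, add_zero] at h1
    linarith
  obtain ⟨ρ, hρ, hev⟩ := hfar f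
  have h1 : ρ ≤ s * t := by
    have hl : Tendsto (fun n => (s + a n) * (t + a n)) atTop (𝓝 ((s + 0) * (t + 0))) :=
      (halim.const_add s).mul (halim.const_add t)
    simp only [add_zero] at hl
    exact ge_of_tendsto hl (hev.mono fun n hn => hn.trans (hL n))
  have h2 : ρ ≤ (s - 2) * t := by
    have hl : Tendsto (fun n => (s - 2 - a n) * (t - a n)) atTop (𝓝 ((s - 2 - 0) * (t - 0))) :=
      (halim.const_sub (s - 2)).mul (halim.const_sub t)
    simp only [sub_zero] at hl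
    exact ge_of_tendsto hl (hev.mono fun n hn => hn.trans (hR n))
  have hbound : ∀ σ τ : ℝ, 0 < σ → 0 < τ →
      (∀ n, (f - x n) (T (f - x n)) ≤ (σ - a n) * (τ - a n)) → f (T f) ≤ (1 + σ) * (1 + τ) := by
    intro σ τ hσ hτ hb
    obtain ⟨n, hn1, hn2⟩ := ((halim.eventually (gt_mem_nhds hσ)).and
      (halim.eventually (gt_mem_nhds hτ))).exists
    have h3 := ha0 n
    have h4 : (f - x n) (T (f - x n)) ≤ σ * τ := (hb n).trans (by nlinarith)
    have h5 : x n (T (x n)) ≤ 1 := by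
      have h6 := hx 0 n
      rw [hx0, sub_zero, pow_zero] at h6
      have h7 : a n ≤ 1 := pow_le_one₀ (by norm_num) (by norm_num)
      refine h6.trans ?_
      change (1 - a n) ^ 2 ≤ 1
      nlinarith
    have e1 : f = (f - x n) + x n := by abel
    have h8 := hQ ((f - x n) - σ • x n)
    rw [e1]
    generalize f - x n = w at *
    generalize x n = u at *
    simp only [map_add, map_sub, map_smul, ContinuousLinearMap.add_apply,
      ContinuousLinearMap.sub_apply, ContinuousLinearMap.smul_apply, smul_eq_mul] at h8 ⊢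
    have h9 : σ * (w (T u) + u (T w)) ≤ σ * (τ + σ) := by nlinarith [mul_pos hσ hσ]
    have h10 := le_of_mul_le_mul_left h9 hσ
    nlinarith
  rcases lt_trichotomy t 0 with ht | ht | ht
  · have hs : s < 0 := by nlinarith
    refine ⟨t, -s, -t, f, by linarith, by linarith, rfl, rfl,
      hbound _ _ (by linarith) (by linarith) fun n => (hL n).trans (le_of_eq (by ring)),
      Or.inl ⟨by simp, by simp⟩⟩
  · rw [ht] at h1; linarith
  · have hs : 2 < s := by nlinarith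
    refine ⟨t, s - 2, t, f, by linarith, ht, rfl, rfl,
      hbound _ _ (by linarith) ht hR, Or.inr ⟨by simp, rfl⟩⟩

/-- the rank one operator `(s, y) ↦ s • fst` -/
noncomputable def rk : (ℝ × Z) →L[ℝ] ((ℝ × Z) →L[ℝ] ℝ) :=
  (ContinuousLinearMap.fst ℝ ℝ Z).smulRight (ContinuousLinearMap.fst ℝ ℝ Z)

@[simp] lemma rk_apply (x y : ℝ × Z) : rk x y = x.1 * y.1 := by simp [rk]

end abstract

abbrev X0 : Type := ℝ × Y

/-- The counterexample on `ℝ × c₀`. -/
theorem main : ∃ M : Set (X0 × (X0 →L[ℝ] ℝ)), IsMono M ∧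
    (∀ p : X0 × (X0 →L[ℝ] ℝ), (∀ q ∈ M, 0 ≤ (p.2 - q.2) (p.1 - q.1)) → p ∈ M) ∧
    (∃ p ∈ M, p.1.1 = -1) ∧ (∃ p ∈ M, p.1.1 = 3) ∧
    (∀ p ∈ M, p.1.1 < 0 ∨ 2 < p.1.1) ∧
    (∀ p ∈ M, p.1.1 < 2 → 0 ≤ (mk 1 (0 : Y →L[ℝ] ℝ) - p.2 : X0 →L[ℝ] ℝ) ((1, 0) - p.1)) ∧
    (∀ p ∈ M, 0 ≤ (mk 1 (0 : Y →L[ℝ] ℝ) - (rk p.1 + p.2) : X0 →L[ℝ] ℝ) ((1, 0) - p.1)) := by
  obtain ⟨M, h1, h2, h3, h4, h5⟩ := exists_bad T Q_nonneg total xs xs_zero Q_xs Q_far
  refine ⟨M, h1, h2, h3, h4, fun p hp => ?_, fun p hp hs => ?_, fun p hp => ?_⟩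
  · obtain ⟨t, σ, τ, f, hσ, hτ, -, -, -, h | h⟩ := h5 p hp
    · left; linarith [h.1]
    · right; linarith [h.1]
  · obtain ⟨t, σ, τ, f, hσ, hτ, e1, e2, hb, h | h⟩ := h5 p hp
    · have e3 : f ((0 : Y) - p.1.2) = f (T f) := by rw [e2]; congr 1; abel
      rw [e1]
      simp only [ContinuousLinearMap.sub_apply, mk_apply, Prod.fst_sub, Prod.snd_sub,
        ContinuousLinearMap.zero_apply, e3, h.1, h.2]
      nlinarith
    · linarith [h.1]
  · obtain ⟨t, σ, τ, f, hσ, hτ, e1, e2, hb, h⟩ := h5 p hp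
    have e3 : f ((0 : Y) - p.1.2) = f (T f) := by rw [e2]; congr 1; abel
    rw [e1]
    simp only [ContinuousLinearMap.sub_apply, ContinuousLinearMap.add_apply, mk_apply, rk_apply,
      Prod.fst_sub, Prod.snd_sub, ContinuousLinearMap.zero_apply, e3]
    rcases h with h | h <;> rw [h.1, h.2] <;> nlinarith

end Pool.Agent.H564Z.Mono
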