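import Mathlib

set_option autoImplicit false

namespace Pool.Agent.H564Z.Mono

open Filter Topology Finset
open scoped ZeroAtInfty

abbrev Y : Type := C₀(ℕ × ℕ, ℝ)

lemma abs_apply_le (y : Y) (p : ℕ × ℕ) : |y p| ≤ ‖y‖ := by
  rw [← ZeroAtInftyContinuousMap.norm_toBCF_eq_norm]
  exact y.toBCF.norm_coe_le_norm p

lemma norm_le_of (y : Y) {C : ℝ} (hC : 0 ≤ C) (h : ∀ p, |y p| ≤ C) : ‖y‖ ≤ C := by
  rw [← ZeroAtInftyContinuousMap.norm_toBCF_eq_norm]
  exact (BoundedContinuousFunction.norm_le hC).mpr h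

noncomputable def ev (p : ℕ × ℕ) : Y →L[ℝ] ℝ :=
  LinearMap.mkContinuous
    { toFun := fun y => y p, map_add' := fun _ _ => rfl, map_smul' := fun _ _ => rfl } 1
    (fun y => by simpa using abs_apply_le y p)

@[simp] lemma ev_apply (p : ℕ × ℕ) (y : Y) : ev p y = y p := rfl

noncomputable def e (p : ℕ × ℕ) : Y where
  toFun := fun q => if q = p then 1 else 0
  continuous_toFun := continuous_of_discreteTopology
  zero_at_infty' := by
    rw [cocompact_eq_cofinite]
    refine tendsto_const_nhds.congr' ?_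
    filter_upwards [(Set.finite_singleton p).compl_mem_cofinite] with q hq
    simp only [Set.mem_compl_iff, Set.mem_singleton_iff] at hq
    simp [hq]

lemma e_apply (p q : ℕ × ℕ) : e p q = if q = p then 1 else 0 := rfl

lemma sum_apply {ι : Type*} (S : Finset ι) (F : ι → Y) (q : ℕ × ℕ) :
    (∑ i ∈ S, F i) q = ∑ i ∈ S, F i q := by
  exact map_sum (ev q) F S

lemma summable_abs (f : Y →L[ℝ] ℝ) : Summable fun p => |f (e p)| := by
  refine summable_of_sum_le (c := ‖f‖) (fun p => abs_nonneg _) fun S => ?_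
  set y : Y := ∑ p ∈ S, (SignType.sign (f (e p)) : ℝ) • e p with hy
  have h1 : ‖y‖ ≤ 1 := by
    refine norm_le_of y zero_le_one fun q => ?_
    rw [hy, sum_apply]
    simp only [ZeroAtInftyContinuousMap.smul_apply, e_apply, smul_eq_mul, mul_ite, mul_one,
      mul_zero, Finset.sum_ite_eq]
    split_ifs
    · rcases lt_trichotomy (f (e q)) 0 with h | h | h <;> simp [h]
    · simp
  have h2 : f y = ∑ p ∈ S, |f (e p)| := by
    rw [hy, map_sum]
    refine Finset.sum_congr rfl fun p _ => ?_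
    rw [map_smul, smul_eq_mul, sign_mul_self]
  have h3 := f.le_opNorm y
  rw [h2, Real.norm_eq_abs] at h3
  have := le_abs_self (∑ p ∈ S, |f (e p)|)
  nlinarith [norm_nonneg f]

lemma summable_e (f : Y →L[ℝ] ℝ) : Summable fun p => f (e p) := (summable_abs f).of_abs

noncomputable def lam (k : ℕ) : ℝ := (1 / 2) ^ (k + 1)

lemma lam_pos (k : ℕ) : 0 < lam k := by unfold lam; positivity

lemma lam_sq_le (k : ℕ) : lam k ^ 2 ≤ 1 := by
  have h : lam k ≤ 1 := pow_le_one₀ (by norm_num) (by norm_num)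
  have := lam_pos k
  nlinarith

noncomputable def g (p : ℕ × ℕ) : Y :=
  lam p.1 ^ 2 • (e p + (2 : ℝ) • ∑ n ∈ range p.2, e (p.1, n))

lemma norm_g (p : ℕ × ℕ) : ‖g p‖ ≤ 2 := by
  refine norm_le_of _ (by norm_num) fun q => ?_
  have h1 := lam_sq_le p.1
  have h0 : 0 ≤ lam p.1 ^ 2 := sq_nonneg _
  simp only [g, ZeroAtInftyContinuousMap.smul_apply, ZeroAtInftyContinuousMap.add_apply, sum_apply,
    e_apply, smul_eq_mul]
  have hs : (∑ n ∈ range p.2, if q = (p.1, n) then (1 : ℝ) else 0) =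
      if q.1 = p.1 ∧ q.2 < p.2 then 1 else 0 := by
    by_cases h : q.1 = p.1
    · have : ∀ n, (q = (p.1, n)) ↔ (q.2 = n) := fun n => by
        rw [Prod.ext_iff]; simp [h]
      simp [this, h]
    · have : ∀ n, ¬ (q = (p.1, n)) := fun n hn => h (by rw [hn])
      simp [this, h]
  rw [hs, abs_mul, abs_of_nonneg h0]
  have : |(if q = p then (1 : ℝ) else 0) + 2 * if q.1 = p.1 ∧ q.2 < p.2 then 1 else 0| ≤ 2 := by
    by_cases h : q = p
    · subst h; simp
    · split_ifs <;> simp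
  nlinarith [abs_nonneg ((if q = p then (1 : ℝ) else 0) + 2 * if q.1 = p.1 ∧ q.2 < p.2 then 1 else 0)]

lemma summable_T (f : Y →L[ℝ] ℝ) : Summable fun p => f (e p) • g p := by
  refine Summable.of_norm_bounded ((summable_abs f).mul_right 2) fun p => ?_
  rw [norm_smul, Real.norm_eq_abs]
  exact mul_le_mul_of_nonneg_left (norm_g p) (abs_nonneg _)

noncomputable def T : (Y →L[ℝ] ℝ) →ₗ[ℝ] Y where
  toFun f := ∑' p, f (e p) • g p
  map_add' f h := by
    rw [← (summable_T f).tsum_add (summable_T h)]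
    refine tsum_congr fun p => ?_
    exact add_smul (f (e p)) (h (e p)) (g p)
  map_smul' c f := by
    rw [RingHom.id_apply, ← (summable_T f).tsum_const_smul c]
    simp [mul_smul]

noncomputable def sig (k : ℕ) (f : Y →L[ℝ] ℝ) : ℝ := ∑' i, f (e (k, i))

lemma summable_fiber (f : Y →L[ℝ] ℝ) (k : ℕ) : Summable fun i => f (e (k, i)) :=
  (summable_e f).prod_factor k

lemma sig_sub (k : ℕ) (f h : Y →L[ℝ] ℝ) : sig k (f - h) = sig k f - sig k h := by
  unfold sig
  rw [← (summable_fiber f k).tsum_sub (summable_fiber h k)]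
  simp

lemma sig_add (k : ℕ) (f h : Y →L[ℝ] ℝ) : sig k (f + h) = sig k f + sig k h := by
  unfold sig
  rw [← (summable_fiber f k).tsum_add (summable_fiber h k)]
  simp

lemma sig_ev (k : ℕ) (p : ℕ × ℕ) : sig k (ev p) = if p.1 = k then 1 else 0 := by
  unfold sig
  simp only [ev_apply, e_apply]
  by_cases h : p.1 = k
  · have : ∀ i, (p = (k, i)) ↔ (i = p.2) := fun i => by
      rw [Prod.ext_iff]; simp [h, eq_comm]
    simp [this, h]
  · have : ∀ i, ¬ (p = (k, i)) := fun n hn => h (by rw [hn])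
    simp [this, h]

lemma Q_formula (f : Y →L[ℝ] ℝ) : HasSum (fun k => lam k ^ 2 * sig k f ^ 2) (f (T f)) := by
  have h1 : HasSum (fun p => f (f (e p) • g p)) (f (T f)) := (summable_T f).hasSum.mapL f
  refine h1.prod_fiberwise fun k => ?_
  have h2 : Summable fun i => f (f (e (k, i)) • g (k, i)) := h1.summable.prod_factor k
  have h3 : Tendsto (fun n => ∑ i ∈ range n, f (e (k, i))) atTop (𝓝 (sig k f)) :=
    (summable_fiber f k).hasSum.tendsto_sum_nat
  have h4 : ∀ n, ∑ i ∈ range n, f (f (e (k, i)) • g (k, i)) =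
      lam k ^ 2 * (∑ i ∈ range n, f (e (k, i))) ^ 2 := by
    intro n
    induction n with
    | zero => simp
    | succ n ih =>
      rw [Finset.sum_range_succ, Finset.sum_range_succ, ih]
      simp only [g, map_smul, map_add, map_sum, smul_eq_mul]
      ring
  rw [h2.hasSum_iff_tendsto_nat]
  simp only [h4]
  exact (h3.pow 2).const_mul _

lemma Q_nonneg (f : Y →L[ℝ] ℝ) : 0 ≤ f (T f) :=
  (Q_formula f).nonneg fun k => by positivity

lemma total (y : Y) (h : ∀ z : Y →L[ℝ] ℝ, z (T z) = 0 → z y = 0) : y = 0 := by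
  ext p
  obtain ⟨k, i⟩ := p
  have hc : ∀ j, y (k, j) = y (k, i) := by
    intro j
    have := h (ev (k, j) - ev (k, i)) (by
      have h1 := Q_formula (ev (k, j) - ev (k, i))
      simp only [sig_sub, sig_ev, sub_self] at h1
      simp only [ne_eq, OfNat.ofNat_ne_zero, not_false_eq_true, zero_pow, mul_zero] at h1
      exact h1.unique hasSum_zero)
    simpa [sub_eq_zero] using this
  have h0 : Tendsto y cofinite (𝓝 0) := by
    have := y.zero_at_infty'
    rwa [cocompact_eq_cofinite] at this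
  have hinj : Function.Injective fun j : ℕ => ((k, j) : ℕ × ℕ) := fun a b hab => by
    simpa using hab
  have h1 := h0.comp hinj.tendsto_cofinite
  have h2 : (y ∘ fun j : ℕ => ((k, j) : ℕ × ℕ)) = fun _ => y (k, i) := funext hc
  rw [h2] at h1
  exact tendsto_nhds_unique tendsto_const_nhds h1

noncomputable def xs (n : ℕ) : Y →L[ℝ] ℝ := ∑ k ∈ range n, ev (k, 0)

lemma sig_xs (j n : ℕ) : sig j (xs n) = if j < n then 1 else 0 := by
  induction n with
  | zero => simp [xs, sig]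
  | succ n ih =>
    rw [xs, Finset.sum_range_succ, ← xs, sig_add, ih, sig_ev]
    by_cases h1 : j < n
    · simp [h1, h1.ne', Nat.lt_succ_of_lt h1]
    · by_cases h2 : n = j
      · simp [h2]
      · have : ¬ j < n + 1 := by omega
        simp [h1, h2, this]

lemma sum_lam {n m : ℕ} (h : n ≤ m) : ∑ k ∈ Ico n m, lam k = (1 / 2) ^ n - (1 / 2) ^ m := by
  induction m, h using Nat.le_induction with
  | base => simp
  | succ m hm ih => rw [Finset.sum_Ico_succ_top hm, ih, lam]; ring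

lemma Q_xs_le {n m : ℕ} (h : n ≤ m) :
    (xs m - xs n) (T (xs m - xs n)) ≤ ((1 / 2) ^ n - (1 / 2) ^ m) ^ 2 := by
  have h1 := Q_formula (xs m - xs n)
  have h2 : HasSum (fun k => lam k ^ 2 * sig k (xs m - xs n) ^ 2) (∑ k ∈ Ico n m, lam k ^ 2) := by
    have h3 : HasSum (fun k => lam k ^ 2 * sig k (xs m - xs n) ^ 2)
        (∑ k ∈ Ico n m, lam k ^ 2 * sig k (xs m - xs n) ^ 2) := by
      refine hasSum_sum_of_ne_finset_zero fun k hk => ?_
      rw [sig_sub, sig_xs, sig_xs]
      rw [Finset.mem_Ico] at hk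
      by_cases h4 : k < n
      · simp [h4, lt_of_lt_of_le h4 h]
      · have : ¬ k < m := fun h5 => hk ⟨not_lt.mp h4, h5⟩
        simp [h4, this]
    convert h3 using 1
    refine Finset.sum_congr rfl fun k hk => ?_
    rw [Finset.mem_Ico] at hk
    rw [sig_sub, sig_xs, sig_xs]
    simp [hk.2, not_lt.mpr hk.1]
  rw [h1.unique h2, ← sum_lam h]
  exact Finset.sum_sq_le_sq_sum_of_nonneg fun k _ => (lam_pos k).le

lemma Q_neg_gen {Z : Type*} [NormedAddCommGroup Z] [NormedSpace ℝ Z] (S : (Z →L[ℝ] ℝ) →ₗ[ℝ] Z)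
    (f : Z →L[ℝ] ℝ) : (-f) (S (-f)) = f (S f) := by simp

lemma Q_neg (f : Y →L[ℝ] ℝ) : (-f) (T (-f)) = f (T f) := Q_neg_gen T f

lemma Q_xs (n m : ℕ) : (xs m - xs n) (T (xs m - xs n)) ≤ ((1 / 2) ^ n - (1 / 2) ^ m) ^ 2 := by
  rcases le_total n m with h | h
  · exact Q_xs_le h
  · have := Q_xs_le h
    have e1 : xs m - xs n = -(xs n - xs m) := by abel
    rw [e1, Q_neg]
    linarith [show ((1 / 2 : ℝ) ^ n - (1 / 2) ^ m) ^ 2 = ((1 / 2) ^ m - (1 / 2) ^ n) ^ 2 by ring]

lemma Q_far (f : Y →L[ℝ] ℝ) : ∃ ρ : ℝ, 0 < ρ ∧ ∀ᶠ n in atTop, ρ ≤ (f - xs n) (T (f - xs n)) := by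
  have h1 : Summable fun k => sig k f := (summable_e f).prod
  have h2 := h1.tendsto_atTop_zero
  obtain ⟨j, hj⟩ := (h2.eventually (gt_mem_nhds (by norm_num : (0 : ℝ) < 1 / 2))).exists
  refine ⟨lam j ^ 2 * (1 / 4), by have := lam_pos j; positivity, ?_⟩
  filter_upwards [eventually_gt_atTop j] with n hn
  have h3 := le_hasSum (Q_formula (f - xs n)) j fun k _ => by positivity
  refine le_trans ?_ h3
  rw [sig_sub, sig_xs, if_pos hn]
  exact mul_le_mul_of_nonneg_left (by nlinarith) (sq_nonneg _)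

lemma xs_zero : xs 0 = 0 := by simp [xs]

end Pool.Agent.H564Z.Mono
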