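import Pool.Agent.H564Z.MonoCurve

set_option autoImplicit false

namespace Pool.Agent.H564Z.Mono

open Filter Topology

section abstract

variable {Z : Type} [NormedAddCommGroup Z] [NormedSpace ℝ Z]
  {H : Type} [NormedAddCommGroup H] [InnerProductSpace ℝ H]

noncomputable def JJ (r : H) : (ℝ × H) →L[ℝ] ℝ :=
  (innerSL ℝ r).comp (ContinuousLinearMap.snd ℝ ℝ H)

@[simp] lemma JJ_apply (r : H) (q : ℝ × H) : JJ r q = inner ℝ r q.2 := rfl

noncomputable def CP (T : (Z →L[ℝ] ℝ) →ₗ[ℝ] Z) (p : ℝ × H) (φ : (ℝ × H) →L[ℝ] ℝ)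
    (f : Z →L[ℝ] ℝ) : ((ℝ × H) × Z) × (((ℝ × H) × Z) →L[ℝ] ℝ) := ((p, -T f), φ.coprod f)

lemma CP_pair (T : (Z →L[ℝ] ℝ) →ₗ[ℝ] Z) (p q : ℝ × H) (φ ψ : (ℝ × H) →L[ℝ] ℝ)
    (f h : Z →L[ℝ] ℝ) : ((CP T p φ f).2 - (CP T q ψ h).2) ((CP T p φ f).1 - (CP T q ψ h).1) =
      (φ - ψ) (p - q) - (f - h) (T (f - h)) := by
  simp only [CP, sub_apply, ContinuousLinearMap.coprod_apply, Prod.fst_sub, Prod.snd_sub, map_sub,
    map_neg]
  ring

def coneOp (T : (Z →L[ℝ] ℝ) →ₗ[ℝ] Z) (ω : (Z →L[ℝ] ℝ) →ₗ[ℝ] H) (C : Set (ℝ × H)) :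
    Set (((ℝ × H) × Z) × (((ℝ × H) × Z) →L[ℝ] ℝ)) :=
  {x | ∃ (p : ℝ × H) (f : Z →L[ℝ] ℝ) (ν : (ℝ × H) →L[ℝ] ℝ), ω f = p.2 ∧ p ∈ C ∧
    (∀ q ∈ C, ν (q - p) ≤ 0) ∧ x = CP T p (JJ p.2 + ν) f}

variable {T : (Z →L[ℝ] ℝ) →ₗ[ℝ] Z} {ω : (Z →L[ℝ] ℝ) →ₗ[ℝ] H} {C : Set (ℝ × H)}

lemma skew_pair (hQ : ∀ f, f (T f) = inner ℝ (ω f) (ω f)) {p q : ℝ × H} {f h : Z →L[ℝ] ℝ}
    (hp : ω f = p.2) (hq : ω h = q.2) (ν μ : (ℝ × H) →L[ℝ] ℝ) :
    ((CP T p (JJ p.2 + ν) f).2 - (CP T q (JJ q.2 + μ) h).2)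
      ((CP T p (JJ p.2 + ν) f).1 - (CP T q (JJ q.2 + μ) h).1) = (ν - μ) (p - q) := by
  rw [CP_pair, hQ, map_sub ω, hp, hq]
  simp only [sub_apply, add_apply, JJ_apply, Prod.snd_sub, inner_sub_left]
  ring

theorem coneOp_mono (hQ : ∀ f, f (T f) = inner ℝ (ω f) (ω f)) : IsMono (coneOp T ω C) := by
  rintro x ⟨p, f, ν, h1, h2, h3, rfl⟩ y ⟨q, h, μ, h1', h2', h3', rfl⟩
  rw [skew_pair hQ h1 h1']
  have h4 := h3 q h2'
  have h5 := h3' p h2
  simp only [sub_apply, map_sub] at h4 h5 ⊢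
  linarith

theorem coneOp_max (hQ : ∀ f, f (T f) = inner ℝ (ω f) (ω f))
    (htot : ∀ y : Z, (∀ z : Z →L[ℝ] ℝ, z (T z) = 0 → z y = 0) → y = 0)
    (h0 : (0 : ℝ × H) ∈ C)
    (hcut : ∀ p, p ∉ C → ∃ ν : (ℝ × H) →L[ℝ] ℝ, (∀ q ∈ C, ν q ≤ 0) ∧ 0 < ν p)
    (hden : ∀ p ∈ C, p ∈ closure {q | q ∈ C ∧ ∃ f, ω f = q.2})
    (x : ((ℝ × H) × Z) × (((ℝ × H) × Z) →L[ℝ] ℝ))
    (hx : ∀ y ∈ coneOp T ω C, 0 ≤ (x.2 - y.2) (x.1 - y.1)) : x ∈ coneOp T ω C := by
  obtain ⟨⟨p0, y0⟩, Φ⟩ := x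
  obtain ⟨φ0, f0, rfl⟩ : ∃ (φ : (ℝ × H) →L[ℝ] ℝ) (f : Z →L[ℝ] ℝ), Φ = φ.coprod f :=
    ⟨_, _, (ContinuousLinearMap.coprod_comp_inl_inr Φ).symm⟩
  have hQ0 : ∀ f : Z →L[ℝ] ℝ, 0 ≤ f (T f) := fun f => by rw [hQ]; exact real_inner_self_nonneg
  have hy : y0 = -T f0 := by
    rw [← add_eq_zero_iff_eq_neg]
    refine htot _ fun z hz => ?_
    have := lin_zero (c := φ0 p0 + f0 y0) (d := -z (y0 + T f0)) fun l => by
      have hz' : ω (l • z) = (0 : ℝ × H).2 := by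
        rw [hQ, inner_self_eq_zero] at hz
        rw [map_smul, hz, smul_zero]; rfl
      have h1 := hx _ ⟨0, l • z, 0, hz', h0, by simp, rfl⟩
      have h2 := rad hQ0 hz f0
      simp only [CP, sub_apply, add_apply, ContinuousLinearMap.coprod_apply, Prod.fst_sub,
        Prod.snd_sub, map_sub, map_neg, map_smul, smul_apply, smul_eq_mul, hz, JJ_apply,
        Prod.snd_zero, inner_zero_left, zero_apply, map_zero, map_add] at h1 ⊢
      have h3 : f0 (T z) = -z (T f0) := by linarith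
      rw [h3] at h1
      linarith
    linarith
  subst hy
  set η := ω f0 - p0.2 with hη
  set ν0 := φ0 - JJ p0.2 - (2 : ℝ) • JJ η with hν0
  have key : ∀ (p : ℝ × H) (f : Z →L[ℝ] ℝ) (ν : (ℝ × H) →L[ℝ] ℝ), ω f = p.2 → p ∈ C →
      (∀ q ∈ C, ν (q - p) ≤ 0) → inner ℝ η η ≤ (ν0 - ν) (p0 - p) := by
    intro p f ν h1 h2 h3
    have h4 := hx _ ⟨p, f, ν, h1, h2, h3, rfl⟩
    have h5 := CP_pair T p0 p φ0 (JJ p.2 + ν) f0 f
    have h6 : 0 ≤ (φ0 - (JJ p.2 + ν)) (p0 - p) - (f0 - f) (T (f0 - f)) := h5 ▸ h4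
    have e1 : ω (f0 - f) = η + (p0.2 - p.2) := by rw [map_sub, h1, hη]; abel
    rw [hQ, e1] at h6
    rw [hν0]
    simp only [sub_apply, add_apply, smul_apply, JJ_apply, Prod.snd_sub, smul_eq_mul] at h6 ⊢
    have e2 : inner ℝ p0.2 (p0.2 - p.2) = inner ℝ p.2 (p0.2 - p.2) +
        inner ℝ (p0.2 - p.2) (p0.2 - p.2) := by rw [inner_sub_left]; ring
    rw [e2]
    generalize p0.2 - p.2 = d at *
    rw [inner_add_left, inner_add_right, inner_add_right, real_inner_comm η d] at h6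
    linarith
  have hp0 : p0 ∈ C := by
    by_contra hcon
    obtain ⟨ν, h1, h2⟩ := hcut p0 hcon
    have h3 := key 0 0 (((|ν0 p0| + 1) / ν p0) • ν) (by simp) h0 fun q hq => by
      rw [sub_zero, smul_apply, smul_eq_mul]
      exact mul_nonpos_of_nonneg_of_nonpos (by positivity) (h1 q hq)
    rw [sub_zero, sub_apply, smul_apply, smul_eq_mul, div_mul_cancel₀ _ h2.ne'] at h3
    have h4 : 0 ≤ inner ℝ η η := real_inner_self_nonneg
    linarith [le_abs_self (ν0 p0)]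
  have hall : ∀ p ∈ C, inner ℝ η η ≤ ν0 (p0 - p) := by
    intro p hp
    have hcl : IsClosed {p : ℝ × H | inner ℝ η η ≤ ν0 (p0 - p)} :=
      isClosed_le continuous_const (by fun_prop)
    refine hcl.closure_subset_iff.mpr ?_ (hden p hp)
    rintro q ⟨hq, f, hf⟩
    simpa using key q f 0 hf hq (by simp)
  have hη0 : η = 0 := by
    have h1 := hall p0 hp0
    rw [sub_self, map_zero] at h1
    exact inner_self_eq_zero (𝕜 := ℝ) |>.mp (le_antisymm h1 real_inner_self_nonneg)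
  refine ⟨p0, f0, ν0, sub_eq_zero.mp hη0, hp0, fun q hq => ?_, ?_⟩
  · have h1 := hall q hq
    rw [hη0, inner_zero_left] at h1
    simp only [map_sub] at h1 ⊢
    linarith
  · have e1 : JJ p0.2 + ν0 = φ0 := by
      rw [hν0, hη0]
      ext v <;> simp
    rw [e1]
    rfl

theorem coneOp_convex (hC : Convex ℝ C) :
    Convex ℝ {x : (ℝ × H) × Z | ∃ a, (x, a) ∈ coneOp T ω C} := by
  rintro x ⟨a, p, f, ν, h1, h2, -, h4⟩ y ⟨b, q, h, μ, h1', h2', -, h4'⟩ s t hs ht hst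
  have e1 : x = (p, -T f) := congrArg Prod.fst h4
  have e2 : y = (q, -T h) := congrArg Prod.fst h4'
  refine ⟨(CP T (s • p + t • q) (JJ (s • p + t • q).2 + 0) (s • f + t • h)).2, s • p + t • q,
    s • f + t • h, 0, by simp [h1, h1'], hC h2 h2' hs ht hst, by simp, ?_⟩
  refine Prod.ext ?_ rfl
  rw [e1, e2]
  simp only [CP, map_add, map_smul, Prod.smul_mk, Prod.mk_add_mk, smul_neg, neg_add]

end abstract

abbrev H2 : Type := lp (fun _ : ℕ => ℝ) 2

noncomputable def om : (Y →L[ℝ] ℝ) →ₗ[ℝ] H2 where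
  toFun f := ⟨fun k => lam k * sig k f, memℓp_gen (by
    simpa [mul_pow] using (Q_formula f).summable)⟩
  map_add' f h := by
    refine lp.ext (funext fun k => ?_)
    change lam k * sig k (f + h) = lam k * sig k f + lam k * sig k h
    rw [sig_add]; ring
  map_smul' c f := by
    refine lp.ext (funext fun k => ?_)
    change lam k * sig k (c • f) = c * (lam k * sig k f)
    rw [sig_smul]; ring

lemma om_apply (f : Y →L[ℝ] ℝ) (k : ℕ) : om f k = lam k * sig k f := rfl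

lemma Q_om (f : Y →L[ℝ] ℝ) : f (T f) = inner ℝ (om f) (om f) := by
  refine (Q_formula f).unique ?_
  have h1 := lp.hasSum_inner (𝕜 := ℝ) (om f) (om f)
  have e1 : (fun k => inner ℝ (om f k) (om f k)) = fun k => lam k ^ 2 * sig k f ^ 2 :=
    funext fun k => by
      rw [om_apply, real_inner_self_eq_norm_sq, Real.norm_eq_abs, sq_abs, mul_pow]
  rw [e1] at h1
  exact h1

noncomputable def co (k : ℕ) : H2 →L[ℝ] ℝ := innerSL ℝ (lp.single 2 k (1 : ℝ))

lemma co_apply (k : ℕ) (r : H2) : co k r = r k := by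
  simp [co, lp.inner_single_left]

noncomputable def ww (k : ℕ) : ℝ := (4 / 3) ^ k / 4

lemma ww_pos (k : ℕ) : 0 < ww k := by unfold ww; positivity

lemma ww_lam (k : ℕ) : ww k * lam k = (2 / 3) ^ k / 8 := by
  rw [ww, lam, pow_succ, show (2 / 3 : ℝ) = 4 / 3 * (1 / 2) by norm_num, mul_pow]; ring

lemma sum_tail (N : ℕ) (F : Finset ℕ) (hF : ∀ k ∈ F, N ≤ k) :
    ∑ k ∈ F, ww k * lam k ≤ (2 / 3) ^ N / 2 := by
  have h1 : HasSum (fun k : ℕ => (2 / 3 : ℝ) ^ N / 8 * (2 / 3) ^ k)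
      ((2 / 3) ^ N / 8 * (1 - 2 / 3)⁻¹) :=
    (hasSum_geometric_of_lt_one (by norm_num) (by norm_num)).mul_left _
  have h2 := sum_le_hasSum (F.image fun k => k - N) (fun k _ => by positivity) h1
  rw [Finset.sum_image (fun a ha b hb hab => by
    have := hF a ha; have := hF b hb; have : a - N = b - N := hab; omega)] at h2
  have h3 : ∑ k ∈ F, ww k * lam k = ∑ k ∈ F, (2 / 3 : ℝ) ^ N / 8 * (2 / 3) ^ (k - N) := by
    refine Finset.sum_congr rfl fun k hk => ?_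
    rw [ww_lam]
    obtain ⟨m, rfl⟩ := Nat.exists_eq_add_of_le (hF k hk)
    rw [Nat.add_sub_cancel_left, pow_add]; ring
  rw [h3]
  have h4 : 0 < (2 / 3 : ℝ) ^ N := by positivity
  norm_num at h2 ⊢
  linarith

/-- the closed convex cone -/
def CC : Set (ℝ × H2) := {p | ∀ F : Finset ℕ, ∑ k ∈ F, ww k * (p.1 * lam k - p.2 k) ≤ p.1}

noncomputable def ell (F : Finset ℕ) : (ℝ × H2) →L[ℝ] ℝ :=
  ∑ k ∈ F, ww k • (lam k • ContinuousLinearMap.fst ℝ ℝ H2 -
    (co k).comp (ContinuousLinearMap.snd ℝ ℝ H2)) - ContinuousLinearMap.fst ℝ ℝ H2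

lemma ell_apply (F : Finset ℕ) (p : ℝ × H2) :
    ell F p = ∑ k ∈ F, ww k * (p.1 * lam k - p.2 k) - p.1 := by
  simp [ell, co_apply, mul_comm]

lemma mem_CC {p : ℝ × H2} : p ∈ CC ↔ ∀ F, ell F p ≤ 0 := by
  simp only [ell_apply, sub_nonpos]; rfl

lemma CC_add {p q : ℝ × H2} (hp : p ∈ CC) (hq : q ∈ CC) : p + q ∈ CC := by
  rw [mem_CC] at *
  intro F
  rw [map_add]
  linarith [hp F, hq F]

lemma CC_convex : Convex ℝ CC := by
  intro p hp q hq s t hs ht _
  rw [mem_CC] at *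
  intro F
  rw [map_add, map_smul, map_smul, smul_eq_mul, smul_eq_mul]
  nlinarith [hp F, hq F]

lemma CC_cut (p : ℝ × H2) (hp : p ∉ CC) :
    ∃ ν : (ℝ × H2) →L[ℝ] ℝ, (∀ q ∈ CC, ν q ≤ 0) ∧ 0 < ν p := by
  rw [mem_CC] at hp
  push Not at hp
  obtain ⟨F, hF⟩ := hp
  exact ⟨ell F, fun q hq => mem_CC.mp hq F, hF⟩

lemma om_single (j : ℕ) (c : ℝ) : om ((c / lam j) • ev (j, 0)) = lp.single 2 j c := by
  refine lp.ext (funext fun k => ?_)
  rw [om_apply, sig_smul, sig_ev, lp.single_apply, Pi.single_apply]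
  by_cases h : k = j
  · subst h
    have := (lam_pos k).ne'
    simp only [if_true]
    field_simp
  · simp [h, Ne.symm h]

lemma CC_dense (p : ℝ × H2) (hp : p ∈ CC) : p ∈ closure {q | q ∈ CC ∧ ∃ f, om f = q.2} := by
  have hτ : 0 ≤ p.1 := by simpa using hp ∅
  have h1 : Tendsto (fun N => ∑ k ∈ Finset.range N, (lp.single 2 k (p.2 k) : H2)) atTop (𝓝 p.2) :=
    (lp.hasSum_single (by norm_num) p.2).tendsto_sum_nat
  have h2 : Tendsto (fun N : ℕ => p.1 + p.1 * (2 / 3 : ℝ) ^ N) atTop (𝓝 (p.1 + p.1 * 0)) :=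
    ((tendsto_pow_atTop_nhds_zero_of_lt_one (by norm_num) (by norm_num)).const_mul _).const_add _
  rw [mul_zero, add_zero] at h2
  refine mem_closure_of_tendsto (h2.prodMk_nhds h1) (Eventually.of_forall fun N => ⟨?_, ?_⟩)
  · intro F
    have e1 : ∀ k, (∑ k ∈ Finset.range N, (lp.single 2 k (p.2 k) : H2)) k =
        if k < N then p.2 k else 0 := by
      intro k
      rw [← co_apply, map_sum]
      simp [co_apply, lp.single_apply, Pi.single_apply]
    simp only [e1]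
    have h3 := hp (F.filter fun k => k < N)
    have h4 := sum_tail N (F.filter fun k => ¬ k < N) fun k hk => not_lt.mp (Finset.mem_filter.mp hk).2
    have h5 := sum_tail 0 F fun k _ => Nat.zero_le k
    have e2 : ∑ k ∈ F, ww k * ((p.1 + p.1 * (2 / 3) ^ N) * lam k - if k < N then p.2 k else 0) =
        ∑ k ∈ F.filter (fun k => k < N), ww k * (p.1 * lam k - p.2 k) +
          p.1 * ∑ k ∈ F.filter (fun k => ¬ k < N), ww k * lam k +
          p.1 * (2 / 3) ^ N * ∑ k ∈ F, ww k * lam k := by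
      rw [Finset.sum_filter, Finset.sum_filter, Finset.mul_sum, Finset.mul_sum,
        ← Finset.sum_add_distrib, ← Finset.sum_add_distrib]
      refine Finset.sum_congr rfl fun k _ => ?_
      split_ifs <;> ring
    rw [e2]
    have h6 : 0 ≤ p.1 * (2 / 3) ^ N := by positivity
    have h7 := mul_le_mul_of_nonneg_left h4 hτ
    have h8 := mul_le_mul_of_nonneg_left h5 h6
    simp only [pow_zero] at h8
    linarith
  · exact ⟨∑ k ∈ Finset.range N, (p.2 k / lam k) • ev (k, 0), by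
      rw [map_sum]; exact Finset.sum_congr rfl fun k _ => om_single k _⟩

lemma CC_normal {p : ℝ × H2} (hp : p ∈ CC) (hτ : 0 < p.1) {f : Y →L[ℝ] ℝ} (hf : om f = p.2)
    {ν : (ℝ × H2) →L[ℝ] ℝ} (hν : ∀ q ∈ CC, ν (q - p) ≤ 0) : ν = 0 := by
  set n : H2 →L[ℝ] ℝ := ν.comp (ContinuousLinearMap.inr ℝ ℝ H2) with hn
  have hs : ∀ (j : ℕ) (c : ℝ), (lp.single 2 j c : H2) = c • lp.single 2 j (1 : ℝ) := by
    intro j c
    rw [← lp.single_smul]; simp
  have h1 : ∀ j, n (lp.single 2 j 1) ≤ 0 := by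
    intro j
    have := hν (p + (0, lp.single 2 j 1)) (CC_add hp fun F => Finset.sum_nonpos fun k _ => by
      have := ww_pos k
      simp only [zero_mul, zero_sub, lp.single_apply, Pi.single_apply]
      split_ifs <;> simp [this.le])
    simpa [hn] using this
  have h2 : ∀ j k, sig k f < p.1 → n (lp.single 2 k 1) / ww k ≤ n (lp.single 2 j 1) / ww j := by
    intro j k hk
    by_cases hjk : j = k
    · rw [hjk]
    set ε := ww k * (p.1 * lam k - p.2 k) with hε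
    have hε0 : 0 < ε := by
      rw [hε, ← hf, om_apply]
      have := lam_pos k
      exact mul_pos (ww_pos k) (by nlinarith)
    have h3 := hν (p + (0, lp.single 2 k (ε / ww k) - lp.single 2 j (ε / ww j))) fun F => by
      have e1 : ∀ i, ww i * ((p + (0, lp.single 2 k (ε / ww k) - lp.single 2 j (ε / ww j))).1 *
          lam i - (p + (0, lp.single 2 k (ε / ww k) - lp.single 2 j (ε / ww j))).2 i) =
          ww i * (p.1 * lam i - p.2 i) - (if i = k then ε else 0) + (if i = j then ε else 0) := by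
        intro i
        have := (ww_pos i).ne'
        simp only [Prod.fst_add, add_zero, Prod.snd_add, lp.coeFn_add, lp.coeFn_sub, Pi.add_apply,
          Pi.sub_apply, lp.single_apply, Pi.single_apply]
        by_cases a1 : i = k
        · subst a1
          simp only [if_true, if_neg (Ne.symm hjk)]
          field_simp
          ring
        · by_cases a2 : i = j
          · subst a2
            simp only [if_true, if_neg a1]
            field_simp
            ring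
          · simp [a1, a2]
      rw [Finset.sum_congr rfl fun i _ => e1 i]
      simp only [Finset.sum_add_distrib, Finset.sum_sub_distrib, Finset.sum_ite_eq',
        Prod.fst_add, add_zero]
      by_cases a1 : k ∈ F
      · have := hp F
        split_ifs <;> linarith
      · have := hp (insert k F)
        rw [Finset.sum_insert a1] at this
        split_ifs <;> linarith
    have h4 : n (lp.single 2 k (ε / ww k) - lp.single 2 j (ε / ww j)) ≤ 0 := by
      simpa [hn] using h3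
    rw [map_sub, hs k, hs j, map_smul, map_smul, smul_eq_mul, smul_eq_mul] at h4
    have h5 : ε * (n (lp.single 2 k 1) / ww k) ≤ ε * (n (lp.single 2 j 1) / ww j) := by
      have e1 : ∀ a b : ℝ, ε * (a / b) = ε / b * a := fun a b => by ring
      rw [e1, e1]; linarith
    exact le_of_mul_le_mul_left h5 hε0
  have h3 : Tendsto (fun k => -‖n‖ * 4 * (3 / 4 : ℝ) ^ k) atTop (𝓝 (-‖n‖ * 4 * 0)) :=
    (tendsto_pow_atTop_nhds_zero_of_lt_one (by norm_num) (by norm_num)).const_mul _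
  rw [mul_zero] at h3
  have h4 : ∀ᶠ k in atTop, sig k f < p.1 :=
    ((summable_e f).prod.tendsto_atTop_zero).eventually (gt_mem_nhds hτ)
  have h5 : ∀ j, n (lp.single 2 j 1) = 0 := by
    intro j
    refine le_antisymm (h1 j) ?_
    have h6 : 0 ≤ n (lp.single 2 j 1) / ww j := by
      refine le_of_tendsto h3 (h4.mono fun k hk => le_trans ?_ (h2 j k hk))
      have h7 := n.le_opNorm (lp.single 2 k 1)
      rw [lp.norm_single (by norm_num), norm_one, mul_one, Real.norm_eq_abs] at h7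
      rw [le_div_iff₀ (ww_pos k), ww]
      have e1 : -‖n‖ * 4 * (3 / 4 : ℝ) ^ k * ((4 / 3) ^ k / 4) = -‖n‖ * (3 / 4 * (4 / 3)) ^ k := by
        rw [mul_pow]; ring
      rw [e1]
      norm_num
      linarith [(abs_le.mp h7).1]
    exact (div_nonneg_iff.mp h6).elim (fun h => h.1) fun h => absurd h.2 (not_le.mpr (ww_pos j))
  have h6 : ∀ r, n r = 0 := by
    intro r
    have h7 := (lp.hasSum_single (by norm_num) r).mapL n
    have h8 : (fun i => n (lp.single 2 i (r i))) = fun _ => 0 := funext fun i => by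
      rw [hs, map_smul, h5, smul_zero]
    rw [h8] at h7
    exact h7.unique hasSum_zero
  have e1 : ∀ q : ℝ × H2, ν q = q.1 * ν (1, 0) := by
    intro q
    have : q = q.1 • ((1 : ℝ), (0 : H2)) + (0, q.2) := by simp
    have h7 : ν (0, q.2) = 0 := h6 q.2
    rw [this, map_add, map_smul, h7]
    simp
  have h7 := hν (p + p) (CC_add hp hp)
  have h8 := hν 0 fun F => by simp
  rw [add_sub_cancel_right] at h7
  rw [zero_sub, map_neg] at h8
  have h9 : p.1 * ν (1, 0) = 0 := by rw [← e1]; linarith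
  have h10 := (mul_eq_zero.mp h9).resolve_left hτ.ne'
  refine ContinuousLinearMap.ext fun q => ?_
  rw [e1, h10]; simp

abbrev X1 : Type := (ℝ × H2) × Y

/-- A maximally monotone operator with convex domain that is not of type (FPV). -/
theorem main_cone : ∃ M : Set (X1 × (X1 →L[ℝ] ℝ)), IsMono M ∧
    (∀ p : X1 × (X1 →L[ℝ] ℝ), (∀ q ∈ M, 0 ≤ (p.2 - q.2) (p.1 - q.1)) → p ∈ M) ∧
    Convex ℝ {x : X1 | ∃ a, (x, a) ∈ M} ∧ (∃ p ∈ M, 0 < p.1.1.1) ∧
    ∃ p : X1 × (X1 →L[ℝ] ℝ), 0 < p.1.1.1 ∧ p ∉ M ∧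
      ∀ q ∈ M, 0 < q.1.1.1 → 0 ≤ (p.2 - q.2) (p.1 - q.1) := by
  refine ⟨coneOp T om CC, coneOp_mono Q_om,
    coneOp_max Q_om total (fun F => by simp) CC_cut CC_dense, coneOp_convex CC_convex,
    ⟨CP T (1, 0) (JJ 0 + 0) 0, ⟨(1, 0), 0, 0, by simp, fun F => ?_, by simp, rfl⟩, one_pos⟩,
    CP T (1, lp.single 2 0 (-8)) (JJ (lp.single 2 0 (-8)) + 0) ((-8 / lam 0) • ev (0, 0)),
    one_pos, ?_, ?_⟩
  · have := sum_tail 0 F fun k _ => Nat.zero_le k
    simp only [one_mul, lp.coeFn_zero, Pi.zero_apply, sub_zero, pow_zero] at this ⊢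
    linarith
  · rintro ⟨p, f, ν, -, h2, -, h4⟩
    have h5 : ((1 : ℝ), (lp.single 2 0 (-8) : H2)) = p := congrArg (fun x => x.1.1) h4
    have h6 := h2 {0}
    rw [← h5] at h6
    simp [ww, lam, lp.single_apply] at h6
    norm_num at h6
  · rintro q ⟨p, f, ν, h1, h2, h3, rfl⟩ hq
    have h4 := skew_pair (p := (1, lp.single 2 0 (-8))) Q_om (om_single 0 (-8)) h1 0 ν
    rw [CC_normal h2 hq h1 h3] at h4 ⊢
    rw [h4]
    simp

end Pool.Agent.H564Z.Mono
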