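import Pool.Agent.H564Z.MonoFPV

set_option autoImplicit false

namespace Pool.Agent.H564Z.Mono

open Filter Topology Finset

lemma eq_zero_of_e (k : Y →L[ℝ] ℝ) (h : ∀ p, k (e p) = 0) : k = 0 := by
  ext y
  have key : ∀ ε : ℝ, 0 < ε → |k y| ≤ ‖k‖ * ε := by
    intro ε hε
    have h0 : Tendsto y cofinite (𝓝 0) := by
      have := y.zero_at_infty'
      rwa [cocompact_eq_cofinite] at this
    have h1 : ∀ᶠ p in cofinite, |y p| < ε :=
      (h0.abs).eventually (gt_mem_nhds (by simpa using hε))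
    have hfin : {p | ¬ |y p| < ε}.Finite := h1
    set w : Y := ∑ p ∈ hfin.toFinset, y p • e p with hw
    have h2 : k w = 0 := by
      rw [hw, map_sum]
      refine Finset.sum_eq_zero fun p _ => ?_
      rw [map_smul, h, smul_zero]
    have h3 : ‖y - w‖ ≤ ε := by
      refine norm_le_of _ hε.le fun q => ?_
      rw [ZeroAtInftyContinuousMap.sub_apply, hw, sum_apply]
      simp only [ZeroAtInftyContinuousMap.smul_apply, e_apply, smul_eq_mul, mul_ite, mul_one,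
        mul_zero, Finset.sum_ite_eq, Set.Finite.mem_toFinset, Set.mem_ofPred_eq]
      split_ifs with hq
      · rw [sub_zero]; exact hq.le
      · simpa using hε.le
    have h4 := k.le_opNorm (y - w)
    rw [map_sub, h2, sub_zero, Real.norm_eq_abs] at h4
    exact h4.trans (mul_le_mul_of_nonneg_left h3 (norm_nonneg _))
  have : |k y| ≤ 0 := by
    refine le_of_forall_pos_le_add fun η hη => ?_
    have h1 := key (η / (‖k‖ + 1)) (by positivity)
    have h2 : ‖k‖ * (η / (‖k‖ + 1)) ≤ η := by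
      rw [← mul_div_assoc, div_le_iff₀ (by positivity)]
      nlinarith [norm_nonneg k]
    linarith
  simpa using this

lemma T_ev (p : ℕ × ℕ) : T (ev p) = g p := by
  change ∑' q, ev p (e q) • g q = g p
  rw [tsum_eq_single p]
  · simp [e_apply]
  · intro q hq
    simp [e_apply, hq.symm]

lemma Q_ev_sub (k i j : ℕ) : (ev (k, j) - ev (k, i)) (T (ev (k, j) - ev (k, i))) = 0 := by
  have h1 := Q_formula (ev (k, j) - ev (k, i))
  simp only [sig_sub, sig_ev, sub_self] at h1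
  simp only [ne_eq, OfNat.ofNat_ne_zero, not_false_eq_true, zero_pow, mul_zero] at h1
  exact h1.unique hasSum_zero

lemma T_sub_gen {Z : Type} [NormedAddCommGroup Z] [NormedSpace ℝ Z] (S : (Z →L[ℝ] ℝ) →ₗ[ℝ] Z)
    (f h : Z →L[ℝ] ℝ) : S (f - h) = S f - S h := map_sub S f h

lemma injT (k : Y →L[ℝ] ℝ) (h : ∀ z : Y →L[ℝ] ℝ, z (T z) = 0 → k (T z) = 0) : k = 0 := by
  refine eq_zero_of_e k fun p => ?_
  obtain ⟨j, i⟩ := p
  have h1 : ∀ n, |k (e (j, n + 1))| = |k (e (j, n))| := by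
    intro n
    have h2 := h _ (Q_ev_sub j n (n + 1))
    have e0 : T (ev (j, n + 1) - ev (j, n)) = T (ev (j, n + 1)) - T (ev (j, n)) :=
      T_sub_gen T _ _
    rw [e0, T_ev, T_ev, map_sub] at h2
    simp only [g, map_smul, map_add, map_sum, smul_eq_mul, Finset.sum_range_succ] at h2
    have h3 : lam j ^ 2 * (k (e (j, n + 1)) + k (e (j, n))) = 0 := by linarith
    have h4 := (mul_eq_zero.mp h3).resolve_left (by have := lam_pos j; positivity)
    rw [show k (e (j, n + 1)) = -k (e (j, n)) by linarith, abs_neg]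
  have h2 : ∀ n, |k (e (j, n))| = |k (e (j, 0))| := by
    intro n
    induction n with
    | zero => rfl
    | succ n ih => rw [h1, ih]
  have h3 := (summable_fiber k j).tendsto_atTop_zero.abs
  simp only [h2, abs_zero] at h3
  have h4 := tendsto_nhds_unique tendsto_const_nhds h3
  rw [← h2 i] at h4
  exact abs_eq_zero.mp h4

noncomputable def cc (k : ℕ) (s : ℝ) : ℝ := max (1 - |s| * (3 / 2) ^ k) 0

lemma sig_smul (k : ℕ) (c : ℝ) (f : Y →L[ℝ] ℝ) : sig k (c • f) = c * sig k f := by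
  unfold sig
  rw [← tsum_mul_left]
  rfl

lemma sig_comb (N : ℕ) (c : ℕ → ℝ) (j : ℕ) :
    sig j (∑ k ∈ range N, c k • ev (k, 0)) = if j < N then c j else 0 := by
  induction N with
  | zero => simp [sig]
  | succ n ih =>
    rw [Finset.sum_range_succ, sig_add, ih, sig_smul, sig_ev]
    by_cases h1 : j < n
    · simp [h1, h1.ne', Nat.lt_succ_of_lt h1]
    · by_cases h2 : n = j
      · simp [h2]
      · have : ¬ j < n + 1 := by omega
        simp [h1, h2, this]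

lemma exists_curve : ∃ x : ℝ → Y →L[ℝ] ℝ, ∀ s, s ≠ 0 → ∀ k, sig k (x s) = cc k s := by
  have : ∀ s : ℝ, ∃ f : Y →L[ℝ] ℝ, s ≠ 0 → ∀ k, sig k f = cc k s := by
    intro s
    by_cases hs : s = 0
    · exact ⟨0, fun h => (h hs).elim⟩
    have hpos : 0 < |s| := abs_pos.mpr hs
    obtain ⟨N, hN⟩ := eventually_atTop.mp
      ((tendsto_pow_atTop_atTop_of_one_lt (by norm_num : (1 : ℝ) < 3 / 2)).eventually_ge_atTop
        (1 / |s|))
    refine ⟨∑ k ∈ range N, cc k s • ev (k, 0), fun _ k => ?_⟩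
    rw [sig_comb N (fun k => cc k s)]
    split_ifs with hk
    · rfl
    · have h1 := hN k (not_lt.mp hk)
      rw [div_le_iff₀ hpos] at h1
      rw [cc, max_eq_right (by linarith)]
  choose x hx using this
  exact ⟨x, hx⟩

lemma cc_lip (k : ℕ) (s s' : ℝ) : |cc k s - cc k s'| ≤ (3 / 2) ^ k * |s - s'| := by
  refine (abs_max_sub_max_le_abs _ _ _).trans ?_
  have e1 : 1 - |s| * (3 / 2) ^ k - (1 - |s'| * (3 / 2) ^ k) = (3 / 2 : ℝ) ^ k * (|s'| - |s|) := by
    ring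
  rw [e1, abs_mul, abs_of_pos (by positivity), abs_sub_comm s s']
  exact mul_le_mul_of_nonneg_left (abs_abs_sub_abs_le_abs_sub _ _) (by positivity)

lemma geo_bound {f : Y →L[ℝ] ℝ} {c : ℝ} (h : ∀ k, |sig k f| ≤ (3 / 2) ^ k * |c|) :
    f (T f) ≤ c ^ 2 := by
  have h1 : HasSum (fun k : ℕ => c ^ 2 / 4 * (9 / 16 : ℝ) ^ k) (c ^ 2 / 4 * (1 - 9 / 16)⁻¹) :=
    (hasSum_geometric_of_lt_one (by norm_num) (by norm_num)).mul_left _
  have h2 := hasSum_le (fun k => ?_) (Q_formula f) h1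
  · nlinarith [sq_nonneg c]
  · have h3 : sig k f ^ 2 ≤ ((3 / 2) ^ k * |c|) ^ 2 := sq_le_sq' (abs_le.mp (h k)).1 (abs_le.mp (h k)).2
    have h4 : lam k ^ 2 * ((3 / 2) ^ k * |c|) ^ 2 = c ^ 2 / 4 * (9 / 16 : ℝ) ^ k := by
      have e1 : (9 / 16 : ℝ) ^ k = ((1 / 2) ^ k * (3 / 2) ^ k) ^ 2 := by
        rw [← mul_pow, ← pow_mul, mul_comm k 2, pow_mul]; norm_num
      rw [mul_pow, sq_abs, lam, e1, pow_succ (1 / 2 : ℝ) k]
      ring
    rw [← h4]
    exact mul_le_mul_of_nonneg_left h3 (sq_nonneg _)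

theorem curve_data : ∃ x : ℝ → Y →L[ℝ] ℝ,
    (∀ s s', s ≠ 0 → s' ≠ 0 → (x s - x s') (T (x s - x s')) ≤ (s - s') ^ 2) ∧
    (∀ s, s ≠ 0 → x s (T (x s)) ≤ 1) ∧
    (∀ f : Y →L[ℝ] ℝ, ∃ ρ : ℝ, 0 < ρ ∧ ∀ᶠ s in 𝓝[≠] (0 : ℝ), ρ ≤ (f - x s) (T (f - x s))) := by
  obtain ⟨x, hx⟩ := exists_curve
  refine ⟨x, fun s s' hs hs' => geo_bound fun k => ?_, fun s hs => ?_, fun f => ?_⟩
  · rw [sig_sub, hx s hs, hx s' hs']
    exact cc_lip k s s'
  · refine (geo_bound (c := 1) fun k => ?_).trans (by norm_num)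
    rw [hx s hs, abs_one, mul_one, cc, abs_of_nonneg (le_max_right _ _)]
    have h1 : (1 : ℝ) ≤ (3 / 2) ^ k := one_le_pow₀ (by norm_num)
    have h2 : 0 ≤ |s| * (3 / 2) ^ k := by positivity
    exact max_le (by linarith) (by linarith)
  · have h1 : Summable fun k => sig k f := (summable_e f).prod
    have h2 := h1.tendsto_atTop_zero
    obtain ⟨j, hj⟩ := (h2.eventually (gt_mem_nhds (by norm_num : (0 : ℝ) < 1 / 2))).exists
    refine ⟨lam j ^ 2 * (1 / 16), by have := lam_pos j; positivity, ?_⟩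
    have h3 : ∀ᶠ s in 𝓝[≠] (0 : ℝ), |s| * (3 / 2) ^ j < 1 / 4 := by
      have hc : Continuous fun s : ℝ => |s| * (3 / 2) ^ j := by fun_prop
      exact nhdsWithin_le_nhds (hc.continuousAt.eventually (gt_mem_nhds (by simp)))
    filter_upwards [h3, self_mem_nhdsWithin] with s hs hs0
    have h4 := le_hasSum (Q_formula (f - x s)) j fun k _ => by positivity
    refine le_trans ?_ h4
    rw [sig_sub, hx s hs0]
    have h5 : 1 - |s| * (3 / 2) ^ j ≤ cc j s := le_max_left _ _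
    exact mul_le_mul_of_nonneg_left (by nlinarith) (sq_nonneg _)

/-- A maximally monotone operator of type (FPV) on `ℝ × c₀` whose sum with the normal cone of a
half space is not maximal. -/
theorem main_fpv : ∃ M : Set (X0 × (X0 →L[ℝ] ℝ)), IsMono M ∧
    (∀ U : Set X0, IsOpen U → ∀ p : X0 × (X0 →L[ℝ] ℝ), p.1 ∈ U →
      (∀ q ∈ M, q.1 ∈ U → 0 ≤ (p.2 - q.2) (p.1 - q.1)) → p ∈ M) ∧
    (∃ p ∈ M, p.1.1 = -1) ∧
    (∀ p ∈ M, p.1.1 ≠ 0) ∧
    (∀ p ∈ M, p.1.1 < 0 → 0 ≤ (mk 1 (0 : Y →L[ℝ] ℝ) - p.2 : X0 →L[ℝ] ℝ) ((1, 0) - p.1)) := by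
  obtain ⟨x, h1, h2, h3⟩ := curve_data
  refine ⟨curveOp T x, curveOp_mono Q_nonneg h1,
    fun U hU p hp hrel => curveOp_fpv Q_nonneg total injT h3 U hU p hp hrel,
    ⟨PP T (-1) (-1) (x (-1) + 0), ⟨-1, 0, by norm_num, by simp, rfl⟩, rfl⟩, ?_, ?_⟩
  · rintro p ⟨s, z, hs, hz, rfl⟩
    exact hs
  · rintro p ⟨s, z, hs, hz, rfl⟩ hs0
    have h4 := PP_pair T 1 1 s s 0 (x s + z)
    have h5 := Q_add_N Q_nonneg hz (x s)
    have h6 := h2 s hs
    have hs1 : s < 0 := hs0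
    rw [zero_sub, Q_neg, h5] at h4
    have e1 : (PP T 1 1 0).1 = ((1, 0) : X0) := by
      simp [PP]
    rw [e1] at h4
    have e2 : (PP T 1 1 0).2 = mk 1 0 := rfl
    rw [e2] at h4
    rw [h4]
    nlinarith

end Pool.Agent.H564Z.Mono
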