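import Pool.Agent.H564Z.MonoAbs

set_option autoImplicit false

namespace Pool.Agent.H564Z.Mono

open Filter Topology

lemma hb_sub {E : Type} [NormedAddCommGroup E] [NormedSpace ℝ E] (S : Submodule ℝ E) (x : E)
    (hx : x ∉ closure (S : Set E)) : ∃ ψ : E →L[ℝ] ℝ, (∀ s ∈ S, ψ s = 0) ∧ 0 < ψ x := by
  obtain ⟨ψ, u, h1, h2⟩ := geometric_hahn_banach_closed_point S.convex.closure isClosed_closure hx
  have h0 : 0 < u := by simpa using h1 0 (subset_closure S.zero_mem)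
  refine ⟨ψ, fun s hs => ?_, by linarith⟩
  have := lin_zero (c := u) (d := -ψ s) fun l => by
    have := h1 (l • s) (subset_closure (S.smul_mem l hs))
    rw [map_smul, smul_eq_mul] at this
    linarith
  linarith

section abstract

variable {Z : Type} [NormedAddCommGroup Z] [NormedSpace ℝ Z]

lemma rad {T : (Z →L[ℝ] ℝ) →ₗ[ℝ] Z} (hQ : ∀ f : Z →L[ℝ] ℝ, 0 ≤ f (T f)) {z : Z →L[ℝ] ℝ}
    (hz : z (T z) = 0) (g : Z →L[ℝ] ℝ) : g (T z) + z (T g) = 0 := by
  refine lin_zero (c := g (T g)) fun l => ?_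
  have := hQ (g + l • z)
  simp only [map_add, map_smul, add_apply, smul_apply, smul_eq_mul, hz] at this
  linarith

def Nsub (T : (Z →L[ℝ] ℝ) →ₗ[ℝ] Z) (hQ : ∀ f : Z →L[ℝ] ℝ, 0 ≤ f (T f)) :
    Submodule ℝ (Z →L[ℝ] ℝ) where
  carrier := {z | z (T z) = 0}
  zero_mem' := by simp
  add_mem' := by
    intro a b ha hb
    have := rad hQ ha b
    have ha' : a (T a) = 0 := ha
    have hb' : b (T b) = 0 := hb
    change (a + b) (T (a + b)) = 0
    simp only [map_add, add_apply]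
    linarith
  smul_mem' := by
    intro c a ha
    have ha' : a (T a) = 0 := ha
    change (c • a) (T (c • a)) = 0
    simp [ha']

lemma Q_add_N {T : (Z →L[ℝ] ℝ) →ₗ[ℝ] Z} (hQ : ∀ f : Z →L[ℝ] ℝ, 0 ≤ f (T f)) {z : Z →L[ℝ] ℝ}
    (hz : z (T z) = 0) (g : Z →L[ℝ] ℝ) : (g + z) (T (g + z)) = g (T g) := by
  have := rad hQ hz g
  simp only [map_add, add_apply]
  linarith

noncomputable def PP (T : (Z →L[ℝ] ℝ) →ₗ[ℝ] Z) (s t : ℝ) (f : Z →L[ℝ] ℝ) :
    (ℝ × Z) × ((ℝ × Z) →L[ℝ] ℝ) := ((s, -T f), mk t f)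

lemma PP_pair (T : (Z →L[ℝ] ℝ) →ₗ[ℝ] Z) (s t s' t' : ℝ) (f f' : Z →L[ℝ] ℝ) :
    ((PP T s t f).2 - (PP T s' t' f').2) ((PP T s t f).1 - (PP T s' t' f').1) =
      (s - s') * (t - t') - (f - f') (T (f - f')) := by
  simp only [PP, sub_apply, mk_apply, map_sub, map_neg]
  ring

def curveOp (T : (Z →L[ℝ] ℝ) →ₗ[ℝ] Z) (x : ℝ → Z →L[ℝ] ℝ) :
    Set ((ℝ × Z) × ((ℝ × Z) →L[ℝ] ℝ)) :=
  {p | ∃ s z, s ≠ 0 ∧ z (T z) = 0 ∧ p = PP T s s (x s + z)}

theorem curveOp_mono {T : (Z →L[ℝ] ℝ) →ₗ[ℝ] Z} (hQ : ∀ f : Z →L[ℝ] ℝ, 0 ≤ f (T f))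
    {x : ℝ → Z →L[ℝ] ℝ}
    (hx : ∀ s s', s ≠ 0 → s' ≠ 0 → (x s - x s') (T (x s - x s')) ≤ (s - s') ^ 2) :
    IsMono (curveOp T x) := by
  rintro p ⟨s, z, hs, hz, rfl⟩ q ⟨s', z', hs', hz', rfl⟩
  rw [PP_pair]
  have e1 : x s + z - (x s' + z') = (x s - x s') + (z - z') := by abel
  have h1 : (z - z') (T (z - z')) = 0 := (Nsub T hQ).sub_mem hz hz'
  rw [e1, Q_add_N hQ h1]
  have := hx s s' hs hs'
  nlinarith

theorem curveOp_fpv {T : (Z →L[ℝ] ℝ) →ₗ[ℝ] Z} (hQ : ∀ f : Z →L[ℝ] ℝ, 0 ≤ f (T f))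
    (htot : ∀ y : Z, (∀ z : Z →L[ℝ] ℝ, z (T z) = 0 → z y = 0) → y = 0)
    (hinj : ∀ k : Z →L[ℝ] ℝ, (∀ z : Z →L[ℝ] ℝ, z (T z) = 0 → k (T z) = 0) → k = 0)
    {x : ℝ → Z →L[ℝ] ℝ}
    (hfar : ∀ f : Z →L[ℝ] ℝ, ∃ ρ : ℝ, 0 < ρ ∧ ∀ᶠ s in 𝓝[≠] (0 : ℝ), ρ ≤ (f - x s) (T (f - x s)))
    (U : Set (ℝ × Z)) (hU : IsOpen U) (p : (ℝ × Z) × ((ℝ × Z) →L[ℝ] ℝ)) (hp : p.1 ∈ U)
    (hrel : ∀ q ∈ curveOp T x, q.1 ∈ U → 0 ≤ (p.2 - q.2) (p.1 - q.1)) : p ∈ curveOp T x := by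
  obtain ⟨⟨s0, y0⟩, φ⟩ := p
  obtain ⟨t0, f0, rfl⟩ := exists_mk φ
  have hden : ∀ (y : Z) (δ : ℝ), 0 < δ → ∃ z : Z →L[ℝ] ℝ, z (T z) = 0 ∧ ‖y + T z‖ < δ := by
    intro y δ hδ
    have hy : -y ∈ closure (((Nsub T hQ).map T : Submodule ℝ Z) : Set Z) := by
      by_contra hcon
      obtain ⟨ψ, h1, h2⟩ := hb_sub _ _ hcon
      have := hinj ψ fun z hz => h1 _ ⟨z, hz, rfl⟩
      rw [this] at h2
      simp at h2
    obtain ⟨b, ⟨z, hz, rfl⟩, hb⟩ := Metric.mem_closure_iff.mp hy δ hδ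
    refine ⟨z, hz, ?_⟩
    rw [dist_eq_norm, ← norm_neg] at hb
    have e1 : y + T z = -(-y - T z) := by abel
    rw [e1]
    exact hb
  obtain ⟨ε, hε, hball⟩ := Metric.isOpen_iff.mp hU _ hp
  have hI : ∀ (s : ℝ) (z : Z →L[ℝ] ℝ), s ≠ 0 → |s - s0| < ε → z (T z) = 0 →
      ‖y0 + T (x s + z)‖ < ε →
      0 ≤ (s0 - s) * (t0 - s) + (f0 - (x s + z)) (y0 + T (x s + z)) := by
    intro s z hs hs0 hz hy
    have h1 := hrel (PP T s s (x s + z)) ⟨s, z, hs, hz, rfl⟩ (hball (by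
      rw [Metric.mem_ball, Prod.dist_eq]
      refine max_lt hs0 ?_
      rw [dist_eq_norm, ← norm_neg]
      have e1 : y0 + T (x s + z) = -(-T (x s + z) - y0) := by abel
      rw [e1] at hy
      exact hy))
    generalize x s + z = f at h1 ⊢
    simp only [PP, sub_apply, mk_apply, map_sub, map_neg, map_add] at h1 ⊢
    linarith
  have hs1 : ∃ s1 : ℝ, s1 ≠ 0 ∧ |s1 - s0| < ε := by
    by_cases h : s0 = 0
    · exact ⟨ε / 2, by positivity, by rw [h, sub_zero, abs_of_pos (by positivity)]; linarith⟩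
    · exact ⟨s0, h, by simpa using hε⟩
  obtain ⟨s1, hs1, hs1'⟩ := hs1
  obtain ⟨z1, hz1, hz1'⟩ := hden (y0 + T (x s1)) (ε / 2) (by positivity)
  set c := (s0 - s1) * (t0 - s1) + (f0 - (x s1 + z1)) (y0 + T (x s1 + z1)) with hc
  have hb1 : ∀ z : Z →L[ℝ] ℝ, z (T z) = 0 → ‖T z‖ < ε / 2 → z (y0 + T f0) ≤ c := by
    intro z hz hz'
    have h1 := hI s1 (z1 + z) hs1 hs1' ((Nsub T hQ).add_mem hz1 hz) (by
      have e1 : y0 + T (x s1 + (z1 + z)) = (y0 + T (x s1) + T z1) + T z := by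
        simp only [map_add]; abel
      rw [e1]
      exact (norm_add_le _ _).trans_lt (by linarith))
    have h2 := rad hQ hz f0
    have h3 := rad hQ hz (x s1 + z1)
    rw [← add_assoc] at h1
    rw [hc]
    generalize x s1 + z1 = f at *
    simp only [sub_apply, add_apply, map_add] at h1 h2 h3 ⊢
    linarith
  have hc0 : 0 ≤ c := by simpa using hb1 0 (by simp) (by simpa using hε)
  have hk : ∃ k : Z →L[ℝ] ℝ, y0 = -T (f0 + k) := by
    set ζ := y0 + T f0 with hζ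
    set Φ : (Z →L[ℝ] ℝ) →ₗ[ℝ] ℝ × Z :=
      LinearMap.prod ((ContinuousLinearMap.apply ℝ ℝ ζ : (Z →L[ℝ] ℝ) →L[ℝ] ℝ).toLinearMap) T
      with hΦ
    have hnot : ((1, 0) : ℝ × Z) ∉ closure (((Nsub T hQ).map Φ : Submodule ℝ (ℝ × Z)) :
        Set (ℝ × Z)) := by
      intro hcl
      have hδ : 0 < min (1 / 2) (ε / (4 * (c + 1))) := lt_min (by norm_num) (by positivity)
      obtain ⟨b, ⟨z, hz, rfl⟩, hb⟩ := Metric.mem_closure_iff.mp hcl _ hδ
      rw [Prod.dist_eq, max_lt_iff] at hb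
      have h1 : |1 - z ζ| < 1 / 2 := hb.1.trans_le (min_le_left _ _)
      have h2 : ‖T z‖ < ε / (4 * (c + 1)) := by
        have := hb.2.trans_le (min_le_right _ _)
        rwa [dist_comm, dist_zero_right] at this
      have h3 := hb1 ((2 * (c + 1)) • z) ((Nsub T hQ).smul_mem _ hz) (by
        rw [map_smul, norm_smul, Real.norm_eq_abs, abs_of_pos (by positivity)]
        rw [lt_div_iff₀ (by positivity)] at h2
        linarith)
      rw [smul_apply, smul_eq_mul] at h3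
      have := (abs_lt.mp h1).2
      nlinarith
    obtain ⟨ψ, h1, h2⟩ := hb_sub _ _ hnot
    obtain ⟨β, k', rfl⟩ := exists_mk ψ
    have hβ : 0 < β := by simpa using h2
    refine ⟨-(β⁻¹ • k'), ?_⟩
    have h3 : ζ - T (β⁻¹ • k') = 0 := by
      refine htot _ fun z hz => ?_
      have h4 : β * z ζ + k' (T z) = 0 := h1 _ ⟨z, hz, rfl⟩
      have h5 := rad hQ hz k'
      rw [map_sub, map_smul, map_smul, smul_eq_mul]
      field_simp
      linarith
    rw [map_add, map_neg, ← sub_eq_zero, ← h3, hζ]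
    abel
  obtain ⟨k, hk⟩ := hk
  set f1 := f0 + k with hf1
  have hII : ∀ s : ℝ, s ≠ 0 → |s - s0| < ε →
      (f1 - x s) (T (f1 - x s)) ≤ (s0 - s) * (t0 - s) := by
    intro s hs hs0
    refine le_of_forall_pos_le_add fun η hη => ?_
    obtain ⟨z, hz, hz'⟩ := hden (y0 + T (x s)) (min ε (η / (‖k‖ + 1)))
      (lt_min hε (by positivity))
    have e0 : y0 + T (x s) + T z = y0 + T (x s + z) := by rw [map_add, add_assoc]
    rw [e0] at hz'
    have h1 := hI s z hs hs0 hz (hz'.trans_le (min_le_left _ _))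
    have h2 : |k (y0 + T (x s + z))| ≤ η := by
      have h3 := k.le_opNorm (y0 + T (x s + z))
      have h4 := hz'.trans_le (min_le_right _ _)
      rw [lt_div_iff₀ (by positivity)] at h4
      rw [Real.norm_eq_abs] at h3
      nlinarith [norm_nonneg k, norm_nonneg (y0 + T (x s + z))]
    have h5 := Q_add_N hQ ((Nsub T hQ).neg_mem hz) (f1 - x s)
    have e1 : f1 - x s + -z = f1 - (x s + z) := by abel
    rw [e1] at h5
    rw [← h5]
    have h6 := (abs_le.mp h2).1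
    have e2 : f0 = f1 - k := by rw [hf1]; abel
    rw [e2, hk] at h1
    rw [hk] at h6
    generalize x s + z = f at *
    simp only [sub_apply, map_add, map_sub, map_neg] at h1 h6 ⊢
    linarith
  have hs0 : s0 ≠ 0 := by
    rintro rfl
    obtain ⟨ρ, hρ, hev⟩ := hfar f1
    have h1 : ∀ᶠ s in 𝓝[≠] (0 : ℝ), |s - 0| < ε :=
      nhdsWithin_le_nhds ((continuous_id.sub continuous_const).abs.continuousAt.eventually
        (gt_mem_nhds (by simpa using hε)))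
    have h2 : ∀ᶠ s in 𝓝[≠] (0 : ℝ), (0 - s) * (t0 - s) < ρ := by
      have hc : Continuous fun s : ℝ => (0 - s) * (t0 - s) := by fun_prop
      exact nhdsWithin_le_nhds (hc.continuousAt.eventually (gt_mem_nhds (by simpa using hρ)))
    obtain ⟨s, ⟨⟨ha, hb⟩, hc'⟩, hd⟩ := (((hev.and h1).and h2).and self_mem_nhdsWithin).exists
    have := hII s hd hb
    linarith
  have hz0 : (f1 - x s0) (T (f1 - x s0)) = 0 := by
    have h1 := hII s0 hs0 (by simpa using hε)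
    have h2 := hQ (f1 - x s0)
    simp only [sub_self, zero_mul] at h1
    linarith
  have ht0 : t0 = s0 := by
    by_contra hne
    have hd : 0 < |t0 - s0| := abs_pos.mpr (sub_ne_zero.mpr hne)
    have ha0 : 0 < |s0| := abs_pos.mpr hs0
    set l := min (1 / 2) (min ε |s0| / (2 * |t0 - s0|)) with hl
    have hm0 : 0 < min ε |s0| := lt_min hε ha0
    have hl0 : 0 < l := lt_min (by norm_num) (by positivity)
    have hl1 : l ≤ 1 / 2 := min_le_left _ _
    have hl2 : l * |t0 - s0| < min ε |s0| := by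
      have := min_le_right (1 / 2) (min ε |s0| / (2 * |t0 - s0|))
      rw [← hl, le_div_iff₀ (by positivity)] at this
      nlinarith
    have h1 : |s0 + l * (t0 - s0) - s0| = l * |t0 - s0| := by
      rw [add_sub_cancel_left, abs_mul, abs_of_pos hl0]
    have h2 := hII (s0 + l * (t0 - s0)) (by
      intro h
      rw [h, zero_sub, abs_neg] at h1
      have := min_le_right ε |s0|
      linarith) (by rw [h1]; exact hl2.trans_le (min_le_left _ _))
    have h3 := hQ (f1 - x (s0 + l * (t0 - s0)))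
    have h4 : 0 < (t0 - s0) ^ 2 := by positivity
    have h5 : (s0 - (s0 + l * (t0 - s0))) * (t0 - (s0 + l * (t0 - s0))) =
        -(l * (1 - l) * (t0 - s0) ^ 2) := by ring
    have h6 : 0 < l * (1 - l) * (t0 - s0) ^ 2 := mul_pos (mul_pos hl0 (by linarith)) h4
    linarith
  have hk0 : k = 0 := by
    refine hinj k fun m hm => ?_
    have key : ∀ m : Z →L[ℝ] ℝ, m (T m) = 0 → ‖T m‖ < ε → k (T m) ≤ 0 := by
      intro m hm hm'
      have e1 : x s0 + (f1 - x s0 + m) = f1 + m := by abel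
      have h1 := hI s0 (f1 - x s0 + m) hs0 (by simpa using hε) ((Nsub T hQ).add_mem hz0 hm) (by
        rw [e1, hk, map_add T f1 m]
        simpa using hm')
      have e2 : f0 = f1 - k := by rw [hf1]; abel
      rw [e1, hk, e2] at h1
      generalize f1 = w at h1
      simp only [sub_apply, add_apply, map_add, map_neg, hm] at h1
      linarith
    set l := ε / (2 * (‖T m‖ + 1)) with hl
    have hl0 : 0 < l := by positivity
    have hsm : ‖T (l • m)‖ < ε := by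
      rw [map_smul, norm_smul, Real.norm_eq_abs, abs_of_pos hl0, hl, div_mul_eq_mul_div,
        div_lt_iff₀ (by positivity)]
      nlinarith [norm_nonneg (T m)]
    have h1 := key (l • m) ((Nsub T hQ).smul_mem _ hm) hsm
    have h2 := key (-(l • m)) ((Nsub T hQ).neg_mem ((Nsub T hQ).smul_mem _ hm))
      (by rwa [map_neg, norm_neg])
    simp only [map_neg, map_smul, smul_eq_mul] at h1 h2
    have : l * k (T m) = 0 := by linarith
    exact (mul_eq_zero.mp this).resolve_left hl0.ne'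
  refine ⟨s0, f1 - x s0, hs0, hz0, ?_⟩
  have e1 : x s0 + (f1 - x s0) = f0 := by rw [hf1, hk0]; abel
  rw [e1, PP, hk, ht0, hf1, hk0, add_zero]

/-- normal cone operator of the half space `s ≤ 0` -/
def halfN : Set ((ℝ × Z) × ((ℝ × Z) →L[ℝ] ℝ)) :=
  {p | ∃ τ : ℝ, p.2 = mk τ 0 ∧ 0 ≤ τ ∧ p.1.1 ≤ 0 ∧ τ * p.1.1 = 0}

lemma halfN_mono : IsMono (halfN (Z := Z)) := by
  rintro p ⟨τ, h1, h2, h3, h4⟩ q ⟨τ', h1', h2', h3', h4'⟩
  rw [h1, h1']
  simp only [sub_apply, mk_apply, zero_apply, Prod.fst_sub]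
  nlinarith [mul_nonneg h2 (neg_nonneg.mpr h3'), mul_nonneg h2' (neg_nonneg.mpr h3)]

lemma halfN_max (p : (ℝ × Z) × ((ℝ × Z) →L[ℝ] ℝ))
    (h : ∀ q ∈ halfN (Z := Z), 0 ≤ (p.2 - q.2) (p.1 - q.1)) : p ∈ halfN := by
  obtain ⟨⟨s, y⟩, φ⟩ := p
  obtain ⟨t, f, rfl⟩ := exists_mk φ
  have key : ∀ (τ s' : ℝ) (y' : Z), 0 ≤ τ → s' ≤ 0 → τ * s' = 0 →
      0 ≤ (t - τ) * (s - s') + f (y - y') := by
    intro τ s' y' h1 h2 h3
    have := h ((s', y'), mk τ 0) ⟨τ, rfl, h1, h2, h3⟩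
    simp only [sub_apply, mk_apply, zero_apply, Prod.fst_sub, Prod.snd_sub] at this
    linarith
  have hf : f = 0 := by
    ext v
    refine lin_zero (c := t * s) fun l => ?_
    have := key 0 0 (y - l • v) le_rfl le_rfl (by simp)
    simpa using this
  subst hf
  simp only [zero_apply, add_zero] at key
  have hs : s ≤ 0 := by
    by_contra hs
    push Not at hs
    have := key (|t| + 1) 0 0 (by positivity) le_rfl (by simp)
    nlinarith [le_abs_self t]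
  have ht : 0 ≤ t := by
    have := key 0 (s - 1) 0 le_rfl (by linarith) (by simp)
    linarith
  refine ⟨t, rfl, ht, hs, ?_⟩
  have := key 0 0 0 le_rfl le_rfl (by simp)
  change t * s = 0
  nlinarith

end abstract

end Pool.Agent.H564Z.Mono
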