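import Pool.Agent.H564Z.NPDefs

set_option autoImplicit false

namespace Pool.Agent.H564Z.NP

open Real Filter Topology Set
open scoped Laplacian

abbrev E2 := EuclideanSpace ℝ (Fin 2)

noncomputable def e0 : E2 := EuclideanSpace.single 0 1
noncomputable def e1 : E2 := EuclideanSpace.single 1 1

noncomputable def pt (a b : ℝ) : E2 := a • e0 + b • e1

@[simp] lemma pt_zero (a b : ℝ) : pt a b 0 = a := by simp [pt, e0, e1]
@[simp] lemma pt_one (a b : ℝ) : pt a b 1 = b := by simp [pt, e0, e1]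

lemma eq_pt (x : E2) : x = pt (x 0) (x 1) := by
  ext i
  fin_cases i <;> simp

lemma norm_sq_pt (a b : ℝ) : ‖pt a b‖ ^ 2 = a ^ 2 + b ^ 2 := by
  rw [EuclideanSpace.norm_sq_eq, Fin.sum_univ_two]
  simp

lemma second_deriv_test {g g1 : ℝ → ℝ} {g2 : ℝ} (hmax : IsLocalMax g 0)
    (h1 : ∀ᶠ t in 𝓝 (0 : ℝ), HasDerivAt g (g1 t) t) (h2 : HasDerivAt g1 g2 0) :
    g1 0 = 0 ∧ g2 ≤ 0 := by
  have h0 : g1 0 = 0 := hmax.hasDerivAt_eq_zero h1.self_of_nhds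
  refine ⟨h0, ?_⟩
  by_contra hpos
  push Not at hpos
  have hd : deriv g =ᶠ[𝓝 0] g1 := h1.mono fun t ht => ht.deriv
  have hdd : deriv (deriv g) 0 = g2 := by rw [hd.deriv_eq, h2.deriv]
  have hmin : IsLocalMin g 0 :=
    isLocalMin_of_deriv_deriv_pos (by rw [hdd]; exact hpos) (by rw [hd.self_of_nhds, h0])
      h1.self_of_nhds.continuousAt
  have hconst : g =ᶠ[𝓝 0] fun _ => g 0 := by
    filter_upwards [hmax, hmin] with t ha hb using le_antisymm ha hb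
  have hd0 : deriv g =ᶠ[𝓝 0] fun _ => 0 := by
    have := hconst.deriv
    filter_upwards [this] with t ht
    rw [ht]; simp
  have : deriv (deriv g) 0 = 0 := by rw [hd0.deriv_eq]; simp
  linarith

lemma curve_derivs {φ : E2 → ℝ} {x0 : E2} (hφ : ContDiffAt ℝ 2 φ x0) {γ γ1 : ℝ → E2} {γ2 : E2}
    (hγ0 : γ 0 = x0) (hγ : ∀ t, HasDerivAt γ (γ1 t) t) (hγ1 : HasDerivAt γ1 γ2 0) :
    (∀ᶠ t in 𝓝 (0 : ℝ), HasDerivAt (fun t => φ (γ t)) (fderiv ℝ φ (γ t) (γ1 t)) t) ∧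
    HasDerivAt (fun t => fderiv ℝ φ (γ t) (γ1 t))
      (fderiv ℝ (fderiv ℝ φ) x0 (γ1 0) (γ1 0) + fderiv ℝ φ x0 γ2) 0 := by
  have hc : Tendsto γ (𝓝 0) (𝓝 x0) := by
    rw [← hγ0]; exact (hγ 0).continuousAt
  constructor
  · have hev : ∀ᶠ y in 𝓝 x0, ContDiffAt ℝ 2 φ y := hφ.eventually (by simp)
    filter_upwards [hc.eventually hev] with t ht
    exact (ht.differentiableAt (by simp)).hasFDerivAt.comp_hasDerivAt t (hγ t)
  · have h1 : ContDiffAt ℝ 1 (fderiv ℝ φ) x0 := hφ.fderiv_right (by norm_num)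
    have h2 : HasFDerivAt (fderiv ℝ φ) (fderiv ℝ (fderiv ℝ φ) x0) (γ 0) := by
      rw [hγ0]; exact (h1.differentiableAt (by simp)).hasFDerivAt
    have h3 := h2.comp_hasDerivAt 0 (hγ 0)
    have h4 := h3.clm_apply hγ1
    simpa [hγ0] using h4

lemma touch {φ : E2 → ℝ} {x0 : E2} (hφ : ContDiffAt ℝ 2 φ x0) {γ γ1 : ℝ → E2} {γ2 : E2}
    (hγ0 : γ 0 = x0) (hγ : ∀ t, HasDerivAt γ (γ1 t) t) (hγ1 : HasDerivAt γ1 γ2 0)
    {ψ ψ1 : ℝ → ℝ} {ψ2 s : ℝ} (hψ : ∀ t, HasDerivAt ψ (ψ1 t) t) (hψ1 : HasDerivAt ψ1 ψ2 0)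
    (hmax : IsLocalMax (fun t => s * (ψ t - φ (γ t))) 0) :
    s * (ψ1 0 - fderiv ℝ φ x0 (γ1 0)) = 0 ∧
      s * (ψ2 - (fderiv ℝ (fderiv ℝ φ) x0 (γ1 0) (γ1 0) + fderiv ℝ φ x0 γ2)) ≤ 0 := by
  obtain ⟨ha, hb⟩ := curve_derivs hφ hγ0 hγ hγ1
  have := second_deriv_test (g1 := fun t => s * (ψ1 t - fderiv ℝ φ (γ t) (γ1 t))) hmax
    (by filter_upwards [ha] with t ht using ((hψ t).sub ht).const_mul s)
    ((hψ1.sub hb).const_mul s)
  simpa [hγ0] using this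

lemma clm_pt (D : E2 →L[ℝ] ℝ) (a b : ℝ) : D (pt a b) = a * D e0 + b * D e1 := by
  simp [pt]

lemma bil_pt (H : E2 →L[ℝ] E2 →L[ℝ] ℝ) (a b : ℝ) :
    H (pt a b) (pt a b) = a ^ 2 * H e0 e0 + a * b * (H e0 e1 + H e1 e0) + b ^ 2 * H e1 e1 := by
  simp [pt]; ring

lemma hessForm_eq (φ : E2 → ℝ) (x ξ : E2) :
    hessForm φ x ξ = fderiv ℝ (fderiv ℝ φ) x ξ ξ := by
  simp [hessForm, iteratedFDeriv_two_apply]

lemma lap_eq (φ : E2 → ℝ) (x : E2) :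
    Δ φ x = fderiv ℝ (fderiv ℝ φ) x e0 e0 + fderiv ℝ (fderiv ℝ φ) x e1 e1 := by
  rw [InnerProductSpace.laplacian_eq_iteratedFDeriv_orthonormalBasis φ
    (EuclideanSpace.basisFun (Fin 2) ℝ)]
  simp [Fin.sum_univ_two, iteratedFDeriv_two_apply, e0, e1]

lemma gradient_eq (φ : E2 → ℝ) (x : E2) :
    gradient φ x = pt (fderiv ℝ φ x e0) (fderiv ℝ φ x e1) := by
  have h : ∀ v : E2, inner ℝ (gradient φ x) v = fderiv ℝ φ x v := by
    intro v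
    simp [gradient, InnerProductSpace.toDual_symm_apply]
  have k : ∀ (w : E2) (i : Fin 2), inner ℝ w (EuclideanSpace.single i (1 : ℝ)) = w i := by
    intro w i
    simp [EuclideanSpace.inner_single_right]
  rw [← h, ← h, e0, e1, k, k]
  exact eq_pt _

lemma hasDerivAt_pt {a b : ℝ → ℝ} {a' b' t : ℝ} (ha : HasDerivAt a a' t)
    (hb : HasDerivAt b b' t) : HasDerivAt (fun t => pt (a t) (b t)) (pt a' b') t :=
  (ha.smul_const e0).add (hb.smul_const e1)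

end Pool.Agent.H564Z.NP
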