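import Mathlib

set_option autoImplicit false

namespace Pool.Agent.H564Z.NP

open scoped Laplacian

/-- The quadratic form of the Hessian, `⟨D²φ(x) ξ, ξ⟩`. -/
noncomputable def hessForm {n : ℕ} (φ : EuclideanSpace ℝ (Fin n) → ℝ)
    (x ξ : EuclideanSpace ℝ (Fin n)) : ℝ :=
  iteratedFDeriv ℝ 2 φ x ![ξ, ξ]

/-- The normalized `p`-Laplacian of a test function at a point with nonzero gradient:
`Δφ + (p - 2) |Dφ|⁻² ⟨D²φ Dφ, Dφ⟩`. -/
noncomputable def normPLap {n : ℕ} (p : ℝ) (φ : EuclideanSpace ℝ (Fin n) → ℝ)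
    (x : EuclideanSpace ℝ (Fin n)) : ℝ :=
  Δ φ x + (p - 2) * (hessForm φ x (gradient φ x) / ‖gradient φ x‖ ^ 2)

/-- The value `Δφ + (p - 2) ⟨D²φ ν, ν⟩` of the operator in the direction of a unit vector `ν`.
At zero gradient the upper (lower) semicontinuous envelope of the normalized `p`-Laplacian is the
maximum (minimum) of this number over all unit vectors `ν`. -/
noncomputable def dirPLap {n : ℕ} (p : ℝ) (φ : EuclideanSpace ℝ (Fin n) → ℝ)
    (x ν : EuclideanSpace ℝ (Fin n)) : ℝ :=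
  Δ φ x + (p - 2) * hessForm φ x ν

/-- Viscosity subsolution of `Δ^N_p u = f` in `Ω`: whenever `u - φ` has a local maximum at a point
`x ∈ Ω`, for a test function `φ` of class `C²` near `x`, the upper semicontinuous envelope of the
operator applied to `φ` at `x` is at least `f x`. -/
def IsViscSub {n : ℕ} (p : ℝ) (Ω : Set (EuclideanSpace ℝ (Fin n)))
    (f u : EuclideanSpace ℝ (Fin n) → ℝ) : Prop :=
  ∀ x ∈ Ω, ∀ φ : EuclideanSpace ℝ (Fin n) → ℝ, ContDiffAt ℝ 2 φ x →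
    IsLocalMax (fun y => u y - φ y) x →
      (gradient φ x ≠ 0 → f x ≤ normPLap p φ x) ∧
      (gradient φ x = 0 → ∃ ν : EuclideanSpace ℝ (Fin n), ‖ν‖ = 1 ∧ f x ≤ dirPLap p φ x ν)

/-- Viscosity supersolution of `Δ^N_p u = f` in `Ω`: whenever `u - φ` has a local minimum at a point
`x ∈ Ω`, for a test function `φ` of class `C²` near `x`, the lower semicontinuous envelope of the
operator applied to `φ` at `x` is at most `f x`. -/
def IsViscSuper {n : ℕ} (p : ℝ) (Ω : Set (EuclideanSpace ℝ (Fin n)))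
    (f u : EuclideanSpace ℝ (Fin n) → ℝ) : Prop :=
  ∀ x ∈ Ω, ∀ φ : EuclideanSpace ℝ (Fin n) → ℝ, ContDiffAt ℝ 2 φ x →
    IsLocalMin (fun y => u y - φ y) x →
      (gradient φ x ≠ 0 → normPLap p φ x ≤ f x) ∧
      (gradient φ x = 0 → ∃ ν : EuclideanSpace ℝ (Fin n), ‖ν‖ = 1 ∧ dirPLap p φ x ν ≤ f x)

/-- `u ∈ C(closure Ω)` is a viscosity solution of the Dirichlet problem `Δ^N_p u = f` in `Ω`,
`u = g` on the boundary of `Ω`. -/
def IsDirichletSol {n : ℕ} (p : ℝ) (Ω : Set (EuclideanSpace ℝ (Fin n)))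
    (f g u : EuclideanSpace ℝ (Fin n) → ℝ) : Prop :=
  ContinuousOn u (closure Ω) ∧ (∀ x ∈ frontier Ω, u x = g x) ∧
    IsViscSub p Ω f u ∧ IsViscSuper p Ω f u

end Pool.Agent.H564Z.NP
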