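import Mathlib

set_option autoImplicit false

namespace Pool.Agent.H564Z.NP

open Real Filter Topology Set
open scoped NNReal

lemma exists_global {E : Type*} [NormedAddCommGroup E] [NormedSpace ℝ E] [CompleteSpace E]
    (v : ℝ → E → E) (K M : ℝ≥0) (hl : ∀ t, LipschitzWith K (v t))
    (hc : ∀ x, Continuous (fun t => v t x)) (hb : ∀ t x, ‖v t x‖ ≤ M) (x0 : E) :
    ∃ α : ℝ → E, α 0 = x0 ∧ ∀ t, HasDerivAt α (v t (α t)) t := by
  have loc : ∀ n : ℕ, ∃ α : ℝ → E, α 0 = x0 ∧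
      ∀ t ∈ Ioo (-((n : ℝ) + 1)) ((n : ℝ) + 1), HasDerivAt α (v t (α t)) t := by
    intro n
    have hn : (0 : ℝ) < (n : ℝ) + 1 := by positivity
    have h0 : (0 : ℝ) ∈ Icc (-((n : ℝ) + 1)) ((n : ℝ) + 1) := ⟨by linarith, by linarith⟩
    have hp : IsPicardLindelof v (⟨0, h0⟩ : Icc (-((n : ℝ) + 1)) ((n : ℝ) + 1)) x0
        (M * ((n : ℝ≥0) + 1)) 0 M K :=
      ⟨fun t _ => (hl t).lipschitzOnWith, fun x _ => (hc x).continuousOn, fun t _ x _ => hb t x,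
        by simp⟩
    obtain ⟨α, h1, h2⟩ := hp.exists_eq_forall_mem_Icc_hasDerivWithinAt₀
    exact ⟨α, h1, fun t ht => (h2 t (Ioo_subset_Icc_self ht)).hasDerivAt (Icc_mem_nhds ht.1 ht.2)⟩
  choose α h0 hα using loc
  have agree : ∀ (n m : ℕ) (t : ℝ), |t| < (n : ℝ) + 1 → |t| < (m : ℝ) + 1 → α n t = α m t := by
    intro n m t hn hm
    set r : ℝ := min ((n : ℝ) + 1) ((m : ℝ) + 1) with hr
    have hrn : r ≤ (n : ℝ) + 1 := min_le_left _ _
    have hrm : r ≤ (m : ℝ) + 1 := min_le_right _ _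
    have htr : |t| < r := lt_min hn hm
    have hr0 : 0 < r := lt_of_le_of_lt (abs_nonneg t) htr
    refine ODE_solution_unique_of_mem_Ioo (v := v) (s := fun _ => univ) (K := K) (a := -r) (b := r)
      (t₀ := 0) (fun t _ => (hl t).lipschitzOnWith) ⟨by linarith, hr0⟩
      (fun s hs => ⟨hα n s ⟨by linarith [hs.1], by linarith [hs.2]⟩, trivial⟩)
      (fun s hs => ⟨hα m s ⟨by linarith [hs.1], by linarith [hs.2]⟩, trivial⟩)
      (by rw [h0, h0]) (abs_lt.mp htr)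
  have hceil : ∀ t : ℝ, |t| < (⌈|t|⌉₊ : ℝ) + 1 := fun t => by
    have := Nat.le_ceil |t|; linarith
  refine ⟨fun t => α ⌈|t|⌉₊ t, h0 _, fun t => ?_⟩
  have hev : (fun s => α ⌈|s|⌉₊ s) =ᶠ[𝓝 t] α ⌈|t|⌉₊ := by
    have : ∀ᶠ s in 𝓝 t, |s| < (⌈|t|⌉₊ : ℝ) + 1 :=
      continuous_abs.continuousAt.eventually (gt_mem_nhds (hceil t))
    filter_upwards [this] with s hs using agree _ _ s (hceil s) hs
  exact (hα _ t (abs_lt.mp (hceil t))).congr_of_eventuallyEq hev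

lemma exists_family {E : Type*} [NormedAddCommGroup E] [NormedSpace ℝ E] [CompleteSpace E]
    (P : Set ℝ) (V : ℝ → ℝ → E → E) (K M : ℝ≥0) (C : ℝ)
    (hl : ∀ δ ∈ P, ∀ t, LipschitzWith K (V δ t))
    (hc : ∀ δ ∈ P, ∀ x, Continuous (fun t => V δ t x))
    (hb : ∀ δ ∈ P, ∀ t x, ‖V δ t x‖ ≤ M)
    (hd : ∀ δ ∈ P, ∀ δ' ∈ P, ∀ t x, dist (V δ t x) (V δ' t x) ≤ C * |δ - δ'|) (x0 : E) :
    ∃ α : ℝ → ℝ → E, (∀ δ ∈ P, α δ 0 = x0 ∧ ∀ t, HasDerivAt (α δ) (V δ t (α δ t)) t) ∧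
      ∀ T, 0 ≤ T → ContinuousOn (fun δ => α δ T) P := by
  classical
  have ex : ∀ δ, ∃ α : ℝ → E, δ ∈ P → (α 0 = x0 ∧ ∀ t, HasDerivAt α (V δ t (α t)) t) := by
    intro δ
    by_cases h : δ ∈ P
    · obtain ⟨α, hα⟩ := exists_global (V δ) K M (hl δ h) (hc δ h) (hb δ h) x0
      exact ⟨α, fun _ => hα⟩
    · exact ⟨fun _ => x0, fun h' => absurd h' h⟩
  choose α hα using ex
  refine ⟨α, hα, fun T hT δ hδ => ?_⟩
  rw [ContinuousWithinAt, tendsto_iff_dist_tendsto_zero]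
  have hbound : ∀ δ' ∈ P, dist (α δ' T) (α δ T) ≤ gronwallBound 0 K (C * |δ' - δ| + 0) (T - 0) := by
    intro δ' hδ'
    refine dist_le_of_approx_trajectories_ODE (v := V δ) (a := 0) (b := T) (hl δ hδ)
      (f' := fun t => V δ' t (α δ' t)) (g' := fun t => V δ t (α δ t))
      (HasDerivAt.continuousOn fun t _ => (hα δ' hδ').2 t)
      (fun t _ => ((hα δ' hδ').2 t).hasDerivWithinAt) (fun t _ => hd δ' hδ' δ hδ t _)
      (HasDerivAt.continuousOn fun t _ => (hα δ hδ).2 t)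
      (fun t _ => ((hα δ hδ).2 t).hasDerivWithinAt) (fun t _ => by simp)
      (by rw [(hα δ' hδ').1, (hα δ hδ).1]; simp) T ⟨hT, le_rfl⟩
  refine squeeze_zero' (Eventually.of_forall fun _ => dist_nonneg)
    (eventually_nhdsWithin_of_forall hbound) ?_
  have hcont : Continuous fun δ' : ℝ => gronwallBound 0 K (C * |δ' - δ| + 0) (T - 0) :=
    (gronwallBound_continuous_ε 0 K (T - 0)).comp (by fun_prop)
  have := hcont.tendsto δ
  simp only [sub_self, abs_zero, mul_zero, add_zero, gronwallBound_ε0_δ0] at this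
  simpa using this.mono_left nhdsWithin_le_nhds

/-- clamp to an interval -/
noncomputable def clamp (a b x : ℝ) : ℝ := max a (min x b)

lemma clamp_mem {a b : ℝ} (h : a ≤ b) (x : ℝ) : clamp a b x ∈ Icc a b :=
  ⟨le_max_left _ _, max_le h (min_le_right _ _)⟩

lemma clamp_of_mem {a b x : ℝ} (h : x ∈ Icc a b) : clamp a b x = x := by
  rw [clamp, min_eq_left h.2, max_eq_right h.1]

lemma abs_clamp_sub (a b x y : ℝ) : |clamp a b x - clamp a b y| ≤ |x - y| := by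
  unfold clamp
  rw [max_comm a, max_comm a]
  refine (abs_max_sub_max_le_abs _ _ _).trans ?_
  have := abs_min_sub_min_le_max x b y b
  simpa using this

lemma clamp_neg {R : ℝ} (hR : 0 ≤ R) (x : ℝ) : clamp (-R) R (-x) = -clamp (-R) R x := by
  unfold clamp
  rcases le_total x R with h1 | h1 <;> rcases le_total (-R) x with h2 | h2 <;>
    simp only [max_def, min_def] <;> split_ifs <;> linarith

lemma abs_clamp_le {R : ℝ} (hR : 0 ≤ R) (x : ℝ) : |clamp (-R) R x| ≤ |x| := by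
  have h := abs_clamp_sub (-R) R x 0
  rw [clamp_of_mem (x := 0) ⟨by linarith, hR⟩] at h
  simpa using h

lemma abs_le_of_deriv {f f' : ℝ → ℝ} {M L : ℝ} (hf : ∀ t, HasDerivAt f (f' t) t)
    (hb : ∀ t ∈ Icc 0 L, |f' t| ≤ M) : ∀ t ∈ Icc 0 L, |f t - f 0| ≤ M * L := by
  intro t ht
  have := norm_image_sub_le_of_norm_deriv_le_segment' (f := f) (f' := f') (a := 0) (b := L) (C := M)
    (fun x _ => (hf x).hasDerivWithinAt) (fun x hx => hb x (Ico_subset_Icc_self hx)) t ht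
  have hM : 0 ≤ M := (abs_nonneg _).trans (hb t ht)
  rw [Real.norm_eq_abs] at this
  nlinarith [ht.1, ht.2]

lemma le_of_deriv_nonneg {f f' : ℝ → ℝ} {a b : ℝ} (hab : a ≤ b) (hf : ∀ t ∈ Icc a b, HasDerivAt f (f' t) t)
    (hb : ∀ t ∈ Icc a b, 0 ≤ f' t) : f a ≤ f b := by
  have hm : MonotoneOn f (Icc a b) := by
    refine monotoneOn_of_deriv_nonneg (convex_Icc a b)
      (HasDerivAt.continuousOn hf) (fun x hx => ?_) (fun x hx => ?_)
    · exact (hf x (interior_subset hx)).differentiableAt.differentiableWithinAt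
    · rw [(hf x (interior_subset hx)).deriv]; exact hb x (interior_subset hx)
  exact hm ⟨le_rfl, hab⟩ ⟨hab, le_rfl⟩ hab

end Pool.Agent.H564Z.NP
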