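import Pool.Agent.H564Z.NPReduce
import Pool.Agent.H564Z.NPOde

set_option autoImplicit false

namespace Pool.Agent.H564Z.NP

open Real Filter Topology Set
open scoped NNReal

noncomputable def Phi (q k A y v : ℝ) : ℝ :=
  -(k ^ 2 * y) + (A - q * k * (k - 1) * y) / (1 + q * (v ^ 2 / (k ^ 2 * y ^ 2 + v ^ 2)))

lemma sig_mem (k y v : ℝ) : v ^ 2 / (k ^ 2 * y ^ 2 + v ^ 2) ∈ Icc (0 : ℝ) 1 := by
  refine ⟨by positivity, div_le_one_of_le₀ ?_ (by positivity)⟩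
  nlinarith [sq_nonneg (k * y)]

lemma den_pos {q : ℝ} (hq : -1 < q) (k y v : ℝ) :
    0 < 1 + q * (v ^ 2 / (k ^ 2 * y ^ 2 + v ^ 2)) := by
  obtain ⟨h0, h1⟩ := sig_mem k y v
  rcases le_total 0 q with h | h
  · positivity
  · nlinarith

lemma Gop_Phi {q : ℝ} (hq : -1 < q) (k A y v : ℝ) : Gop q k y v (Phi q k A y v) = A := by
  have := (den_pos hq k y v).ne'
  unfold Gop Phi
  generalize 1 + q * (v ^ 2 / (k ^ 2 * y ^ 2 + v ^ 2)) = d at this ⊢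
  field_simp
  ring

lemma Gop_smul (q k y y1 y2 : ℝ) {l : ℝ} (hl : l ≠ 0) :
    Gop q k (l * y) (l * y1) (l * y2) = l * Gop q k y y1 y2 := by
  unfold Gop
  have : (l * y1) ^ 2 / (k ^ 2 * (l * y) ^ 2 + (l * y1) ^ 2) = y1 ^ 2 / (k ^ 2 * y ^ 2 + y1 ^ 2) := by
    rw [show (l * y1) ^ 2 = l ^ 2 * y1 ^ 2 by ring,
      show k ^ 2 * (l * y) ^ 2 + l ^ 2 * y1 ^ 2 = l ^ 2 * (k ^ 2 * y ^ 2 + y1 ^ 2) by ring,
      mul_div_mul_left _ _ (pow_ne_zero 2 hl)]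
  rw [this]; ring

lemma Phi_lip {q k : ℝ} (hq : -1 < q) (hk : 0 < k) (A0 R : ℝ) :
    ∃ K : ℝ≥0, LipschitzOnWith K (fun z : ℝ × ℝ × ℝ => Phi q k z.1 z.2.1 z.2.2)
      (Icc (-A0) A0 ×ˢ Icc (1 / 2) (3 / 2) ×ˢ Icc (-R) R) := by
  refine LocallyLipschitzOn.exists_lipschitzOnWith_of_compact
    (isCompact_Icc.prod (isCompact_Icc.prod isCompact_Icc)) ?_
  intro z hz
  have hy : 0 < z.2.1 := by have := hz.2.1.1; linarith
  have h1 : k ^ 2 * z.2.1 ^ 2 + z.2.2 ^ 2 ≠ 0 := by positivity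
  have h2 := (den_pos hq k z.2.1 z.2.2).ne'
  have hc : ContDiffAt ℝ 1 (fun z : ℝ × ℝ × ℝ => Phi q k z.1 z.2.1 z.2.2) z := by
    unfold Phi
    refine ContDiffAt.add (by fun_prop) (ContDiffAt.div (by fun_prop) ?_ h2)
    exact contDiffAt_const.add (contDiffAt_const.mul (ContDiffAt.div (by fun_prop) (by fun_prop) h1))
  obtain ⟨K, t, ht, hK⟩ := hc.exists_lipschitzOnWith
  exact ⟨K, t, mem_nhdsWithin_of_mem_nhds ht, hK⟩

noncomputable def Psi (q k y w : ℝ) : ℝ := (1 + q) * w - q * k * y * arctan (w / (k * y))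

lemma hasDerivAt_Psi {q k : ℝ} (hk : 0 < k) {y y1 : ℝ → ℝ} {y2 t : ℝ} (hy : 0 < y t)
    (h1 : HasDerivAt y (y1 t) t) (h2 : HasDerivAt y1 y2 t) :
    HasDerivAt (fun s => Psi q k (y s) (y1 s))
      (Gop q k (y t) (y1 t) y2 - (k ^ 2 + q * k * (k - 1)) * y t
        - q * k * (y1 t * arctan (y1 t / (k * y t)))) t := by
  have hky : k * y t ≠ 0 := by positivity
  have h3 := (h2.fun_div (h1.const_mul k) hky).arctan
  have h4 := (h2.const_mul (1 + q)).fun_sub ((h1.const_mul (q * k)).fun_mul h3)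
  refine h4.congr_deriv ?_
  unfold Gop
  have h5 : k ^ 2 * y t ^ 2 + y1 t ^ 2 ≠ 0 := by positivity
  have h6 : 1 + (y1 t / (k * y t)) ^ 2 = (k ^ 2 * y t ^ 2 + y1 t ^ 2) / (k * y t) ^ 2 := by
    field_simp
  rw [h6]
  field_simp
  ring

lemma Psi_zero (q k y : ℝ) : Psi q k y 0 = 0 := by simp [Psi]

lemma mul_arctan_nonneg {w d : ℝ} (hd : 0 < d) : 0 ≤ w * arctan (w / d) := by
  rcases le_total 0 w with h | h
  · exact mul_nonneg h (arctan_nonneg.mpr (div_nonneg h hd.le))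
  · exact mul_nonneg_of_nonpos_of_nonpos h (arctan_le_zero.mpr (div_nonpos_of_nonpos_of_nonneg h hd.le))

lemma mul_arctan_ge {w d : ℝ} (hd : 0 < d) : π / 4 * (-w - d) ≤ w * arctan (w / d) := by
  rcases le_total (-w) d with h | h
  · have := mul_arctan_nonneg (w := w) hd
    nlinarith [pi_pos]
  · have h1 : arctan (w / d) ≤ arctan (-1) := by
      apply arctan_strictMono.monotone
      rw [div_le_iff₀ hd]; linarith
    rw [arctan_neg, arctan_one] at h1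
    nlinarith [pi_pos]

lemma der_fst {α : ℝ → ℝ × ℝ} {w : ℝ × ℝ} {t : ℝ} (h : HasDerivAt α w t) :
    HasDerivAt (fun s => (α s).1) w.1 t :=
  (ContinuousLinearMap.fst ℝ ℝ ℝ).hasFDerivAt.comp_hasDerivAt t h

lemma der_snd {α : ℝ → ℝ × ℝ} {w : ℝ × ℝ} {t : ℝ} (h : HasDerivAt α w t) :
    HasDerivAt (fun s => (α s).2) w.2 t :=
  (ContinuousLinearMap.snd ℝ ℝ ℝ).hasFDerivAt.comp_hasDerivAt t h

/-- the cut-off vector field -/
noncomputable def fld (q k R : ℝ) (G : ℝ → ℝ) (δ t : ℝ) (z : ℝ × ℝ) : ℝ × ℝ :=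
  (clamp (-R) R z.2, Phi q k (δ * G t) (clamp (1 / 2) (3 / 2) z.1) (clamp (-R) R z.2))

lemma abs_Phi_le {Q A y v : ℝ} (hQ0 : 0 < Q) (hQ1 : Q < 1) (hy : y ∈ Icc (1 / 2 : ℝ) (3 / 2)) :
    |Phi (-Q) 3 A y v| ≤ 27 / 2 + (|A| + 9) / (1 - Q) := by
  obtain ⟨h0, h1⟩ := sig_mem 3 y v
  obtain ⟨hy0, hy1⟩ := hy
  unfold Phi
  set σ := v ^ 2 / (3 ^ 2 * y ^ 2 + v ^ 2)
  have hd : 1 - Q ≤ 1 + -Q * σ := by nlinarith
  have hd0 : 0 < 1 - Q := by linarith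
  refine (abs_add_le _ _).trans (add_le_add ?_ ?_)
  · rw [abs_neg, abs_of_nonneg (by positivity)]; linarith
  · rw [abs_div, abs_of_pos (by linarith : 0 < 1 + -Q * σ)]
    refine div_le_div₀ (by positivity) ?_ hd0 hd
    refine (abs_sub _ _).trans (add_le_add le_rfl ?_)
    rw [abs_le]; constructor <;> nlinarith

lemma exists_fld_family {Q R δ1 G0 : ℝ} (hQ0 : 0 < Q) (hQ1 : Q < 1) (hR : 0 ≤ R)
    (hδ1 : 0 ≤ δ1) {G : ℝ → ℝ} (hGc : Continuous G) (hG : ∀ t, |G t| ≤ G0) :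
    ∃ (K : ℝ≥0) (α : ℝ → ℝ → ℝ × ℝ), (∀ δ ∈ Icc 0 δ1, (∀ t, LipschitzWith K (fld (-Q) 3 R G δ t)) ∧
      α δ 0 = (1, 0) ∧ ∀ t, HasDerivAt (α δ) (fld (-Q) 3 R G δ t (α δ t)) t) ∧
      ∀ T, 0 ≤ T → ContinuousOn (fun δ => α δ T) (Icc 0 δ1) := by
  have hG0 : 0 ≤ G0 := (abs_nonneg _).trans (hG 0)
  obtain ⟨K, hK⟩ := Phi_lip (q := -Q) (k := 3) (by linarith) (by norm_num) (δ1 * G0) R
  have hA : ∀ δ ∈ Icc 0 δ1, ∀ t, |δ * G t| ≤ δ1 * G0 := by
    intro δ hδ t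
    rw [abs_mul, abs_of_nonneg hδ.1]
    exact mul_le_mul hδ.2 (hG t) (abs_nonneg _) hδ1
  have hmem : ∀ δ ∈ Icc 0 δ1, ∀ t, ∀ z : ℝ × ℝ,
      ((δ * G t, clamp (1 / 2) (3 / 2) z.1, clamp (-R) R z.2) : ℝ × ℝ × ℝ) ∈
        Icc (-(δ1 * G0)) (δ1 * G0) ×ˢ Icc (1 / 2 : ℝ) (3 / 2) ×ˢ Icc (-R) R := fun δ hδ t z =>
    ⟨abs_le.mp (hA δ hδ t), clamp_mem (by norm_num) _, clamp_mem (by linarith) _⟩
  have hl : ∀ δ ∈ Icc 0 δ1, ∀ t, LipschitzWith (K + 1) (fld (-Q) 3 R G δ t) := by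
    intro δ hδ t
    refine LipschitzWith.of_dist_le_mul fun z z' => ?_
    have h1 := hK.dist_le_mul _ (hmem δ hδ t z) _ (hmem δ hδ t z')
    have h2 : dist (clamp (-R) R z.2) (clamp (-R) R z'.2) ≤ dist z z' :=
      (abs_clamp_sub _ _ _ _).trans (le_max_right _ _)
    have h3 : dist (clamp (1 / 2) (3 / 2) z.1) (clamp (1 / 2) (3 / 2) z'.1) ≤ dist z z' :=
      (abs_clamp_sub _ _ _ _).trans (le_max_left _ _)
    have h4 : dist ((δ * G t, clamp (1 / 2) (3 / 2) z.1, clamp (-R) R z.2) : ℝ × ℝ × ℝ)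
        (δ * G t, clamp (1 / 2) (3 / 2) z'.1, clamp (-R) R z'.2) ≤ dist z z' := by
      rw [Prod.dist_eq, Prod.dist_eq, dist_self]
      exact max_le dist_nonneg (max_le h3 h2)
    have hK0 : (0 : ℝ) ≤ K := K.2
    have hd : 0 ≤ dist z z' := dist_nonneg
    have h5 := mul_le_mul_of_nonneg_left h4 hK0
    rw [fld, fld, Prod.dist_eq]
    push_cast
    refine max_le (by nlinarith) ?_
    have := h1.trans h5
    nlinarith
  have hMnn : 0 ≤ R + (27 / 2 + (δ1 * G0 + 9) / (1 - Q)) := by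
    have : 0 < 1 - Q := by linarith
    positivity
  obtain ⟨α, h1, h2⟩ := exists_family (Icc 0 δ1) (fld (-Q) 3 R G) (K + 1) ⟨_, hMnn⟩ (K * G0) hl
    (by
      intro δ _ z
      unfold fld Phi
      fun_prop)
    (by
      intro δ hδ t z
      have hq : 0 < 1 - Q := by linarith
      have h1 := abs_Phi_le (A := δ * G t) (v := clamp (-R) R z.2) hQ0 hQ1
        (clamp_mem (by norm_num : (1 / 2 : ℝ) ≤ 3 / 2) z.1)
      have h2 : (|δ * G t| + 9) / (1 - Q) ≤ (δ1 * G0 + 9) / (1 - Q) := by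
        have := hA δ hδ t
        gcongr
      have h3 : |clamp (-R) R z.2| ≤ R := abs_le.mpr (clamp_mem (by linarith) _)
      have h4 : 0 ≤ (δ1 * G0 + 9) / (1 - Q) := by positivity
      rw [fld, Prod.norm_def]
      refine max_le ?_ ?_
      · change |_| ≤ R + _
        linarith
      · change |_| ≤ R + _
        linarith)
    (by
      intro δ hδ δ' hδ' t z
      have h1 := hK.dist_le_mul _ (hmem δ hδ t z) _ (hmem δ' hδ' t z)
      have hK0 : (0 : ℝ) ≤ K := K.2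
      have h4 : dist ((δ * G t, clamp (1 / 2) (3 / 2) z.1, clamp (-R) R z.2) : ℝ × ℝ × ℝ)
          (δ' * G t, clamp (1 / 2) (3 / 2) z.1, clamp (-R) R z.2) ≤ G0 * |δ - δ'| := by
        rw [Prod.dist_eq, dist_self]
        refine max_le ?_ (by positivity)
        rw [Real.dist_eq, ← sub_mul, abs_mul, mul_comm]
        exact mul_le_mul_of_nonneg_right (hG t) (abs_nonneg _)
      have h5 := mul_le_mul_of_nonneg_left h4 hK0
      rw [fld, fld, Prod.dist_eq, dist_self]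
      refine max_le (by positivity) ?_
      have := h1.trans h5
      linarith)
    (1, 0)
  exact ⟨K + 1, α, fun δ hδ => ⟨hl δ hδ, h1 δ hδ⟩, h2⟩

lemma fld_reflect {q k R δ a : ℝ} (hR : 0 ≤ R) {G : ℝ → ℝ} {K : ℝ≥0}
    (hl : ∀ t, LipschitzWith K (fld q k R G δ t)) (hG : ∀ t, G (2 * a - t) = G t)
    {α : ℝ → ℝ × ℝ} (hα : ∀ t, HasDerivAt α (fld q k R G δ t (α t)) t) (ha : (α a).2 = 0) :
    ∀ t, α (2 * a - t) = ((α t).1, -(α t).2) := by
  have hβ : ∀ t, HasDerivAt (fun t => (((α (2 * a - t)).1, -(α (2 * a - t)).2) : ℝ × ℝ))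
      (fld q k R G δ t ((α (2 * a - t)).1, -(α (2 * a - t)).2)) t := by
    intro t
    have h1 : HasDerivAt (fun t : ℝ => 2 * a - t) (-1) t := by
      simpa using (hasDerivAt_id t).const_sub (2 * a)
    have h2 := (hα (2 * a - t)).scomp t h1
    have h3 := der_fst h2
    have h4 := (der_snd h2).fun_neg
    refine (HasDerivAt.prodMk h3 h4).congr_deriv ?_
    simp only [fld, clamp_neg hR, hG, Phi]
    simp
  have := ODE_solution_unique_univ (v := fld q k R G δ) (s := fun _ => univ) (K := K) (t₀ := a)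
    (fun t => (hl t).lipschitzOnWith) (fun t => ⟨hβ t, trivial⟩) (fun t => ⟨hα t, trivial⟩)
    (by
      have : 2 * a - a = a := by ring
      simp only [this, ha, neg_zero]
      exact Prod.ext rfl ha.symm)
  intro t
  have h : (((α (2 * a - t)).1, -(α (2 * a - t)).2) : ℝ × ℝ) = α t := congrFun this t
  rw [← h]
  simp

end Pool.Agent.H564Z.NP
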