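import Pool.Agent.H564Z.NPCalc

set_option autoImplicit false

namespace Pool.Agent.H564Z.NP

open Real Filter Topology Set
open scoped Laplacian

/-- the operator on `k`-homogeneous functions `r ^ k * y θ`, with `q = p - 2` -/
noncomputable def Gop (q k y y1 y2 : ℝ) : ℝ :=
  (y2 + k ^ 2 * y) * (1 + q * (y1 ^ 2 / (k ^ 2 * y ^ 2 + y1 ^ 2))) + q * k * (k - 1) * y

lemma polar_touch {w φ : E2 → ℝ} {k c s r θ : ℝ} {B B1 : ℝ → ℝ} {B2 : ℝ} (hr : 0 < r)
    (hw : ∀ ρ : ℝ, 0 < ρ → ∀ t, w (pt (ρ * cos t) (ρ * sin t)) = ρ ^ k * B t + c)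
    (hB : ∀ t, HasDerivAt B (B1 t) t) (hB1 : HasDerivAt B1 B2 θ) {x0 : E2}
    (hx0 : x0 = pt (r * cos θ) (r * sin θ)) (hφ : ContDiffAt ℝ 2 φ x0)
    (hmax : IsLocalMax (fun y => s * (w y - φ y)) x0) (α β : ℝ) :
    s * (r ^ k * (k * α * B θ + β * B1 θ) -
      fderiv ℝ φ x0 (pt (r * (α * cos θ - β * sin θ)) (r * (α * sin θ + β * cos θ)))) = 0 ∧
    s * (r ^ k * (k ^ 2 * α ^ 2 * B θ + 2 * k * α * β * B1 θ + β ^ 2 * B2) -
      (fderiv ℝ (fderiv ℝ φ) x0 (pt (r * (α * cos θ - β * sin θ)) (r * (α * sin θ + β * cos θ)))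
        (pt (r * (α * cos θ - β * sin θ)) (r * (α * sin θ + β * cos θ))) +
       fderiv ℝ φ x0 (pt (r * ((α ^ 2 - β ^ 2) * cos θ - 2 * α * β * sin θ))
        (r * ((α ^ 2 - β ^ 2) * sin θ + 2 * α * β * cos θ))))) ≤ 0 := by
  have hlin : ∀ t : ℝ, HasDerivAt (fun t : ℝ => θ + β * t) β t := fun t => by
    simpa using ((hasDerivAt_id t).const_mul β).const_add θ
  have hexp : ∀ (a t : ℝ), HasDerivAt (fun t : ℝ => exp (a * t)) (exp (a * t) * a) t :=
    fun a t => by simpa using ((hasDerivAt_id t).const_mul a).exp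
  have hcos : ∀ t : ℝ, HasDerivAt (fun t : ℝ => cos (θ + β * t)) (-sin (θ + β * t) * β) t :=
    fun t => (hlin t).cos
  have hsin : ∀ t : ℝ, HasDerivAt (fun t : ℝ => sin (θ + β * t)) (cos (θ + β * t) * β) t :=
    fun t => (hlin t).sin
  set γ : ℝ → E2 := fun t => pt (r * exp (α * t) * cos (θ + β * t))
    (r * exp (α * t) * sin (θ + β * t)) with hγdef
  set γ1 : ℝ → E2 := fun t => pt (r * exp (α * t) * (α * cos (θ + β * t) - β * sin (θ + β * t)))
    (r * exp (α * t) * (α * sin (θ + β * t) + β * cos (θ + β * t))) with hγ1def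
  have hγ0 : γ 0 = x0 := by simp [hγdef, hx0]
  have hγ : ∀ t, HasDerivAt γ (γ1 t) t := by
    intro t
    refine hasDerivAt_pt ?_ ?_
    · exact (((hexp α t).const_mul r).fun_mul (hcos t)).congr_deriv (by ring)
    · exact (((hexp α t).const_mul r).fun_mul (hsin t)).congr_deriv (by ring)
  have hγ1 : HasDerivAt γ1 (pt (r * ((α ^ 2 - β ^ 2) * cos θ - 2 * α * β * sin θ))
        (r * ((α ^ 2 - β ^ 2) * sin θ + 2 * α * β * cos θ))) 0 := by
    refine hasDerivAt_pt ?_ ?_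
    · exact (((hexp α 0).const_mul r).fun_mul
        (((hcos 0).const_mul α).fun_sub ((hsin 0).const_mul β))).congr_deriv (by simp; ring)
    · exact (((hexp α 0).const_mul r).fun_mul
        (((hsin 0).const_mul α).fun_add ((hcos 0).const_mul β))).congr_deriv (by simp; ring)
  have hBc : ∀ t : ℝ, HasDerivAt (fun t : ℝ => B (θ + β * t)) (B1 (θ + β * t) * β) t :=
    fun t => (hB (θ + β * t)).comp t (hlin t)
  have hB1c : HasDerivAt (fun t : ℝ => B1 (θ + β * t)) (B2 * β) 0 := by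
    have h : HasDerivAt B1 B2 (θ + β * 0) := by simpa using hB1
    exact h.comp 0 (hlin 0)
  have hψ : ∀ t, HasDerivAt (fun t : ℝ => r ^ k * exp (k * α * t) * B (θ + β * t) + c)
      (r ^ k * exp (k * α * t) * (k * α * B (θ + β * t) + β * B1 (θ + β * t))) t := by
    intro t
    exact ((((hexp (k * α) t).const_mul (r ^ k)).fun_mul (hBc t)).add_const c).congr_deriv
      (by ring)
  have hψ1 : HasDerivAt
      (fun t : ℝ => r ^ k * exp (k * α * t) * (k * α * B (θ + β * t) + β * B1 (θ + β * t)))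
      (r ^ k * (k ^ 2 * α ^ 2 * B θ + 2 * k * α * β * B1 θ + β ^ 2 * B2)) 0 := by
    exact (((hexp (k * α) 0).const_mul (r ^ k)).fun_mul
      (((hBc 0).const_mul (k * α)).fun_add (hB1c.const_mul β))).congr_deriv (by simp; ring)
  have hwγ : ∀ t, w (γ t) = r ^ k * exp (k * α * t) * B (θ + β * t) + c := by
    intro t
    have hρ : 0 < r * exp (α * t) := mul_pos hr (exp_pos _)
    rw [hγdef]
    simp only
    rw [hw _ hρ, mul_rpow hr.le (exp_pos _).le, ← exp_mul]
    congr 3; ring_nf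
  have hmax' : IsLocalMax (fun t => s * ((r ^ k * exp (k * α * t) * B (θ + β * t) + c)
      - φ (γ t))) 0 := by
    have h1 : IsLocalMax (fun y => s * (w y - φ y)) (γ 0) := by rw [hγ0]; exact hmax
    have h2 := h1.comp_continuous (hγ 0).continuousAt
    convert h2 using 1
    ext t
    simp [hwγ]
  have := touch hφ hγ0 hγ hγ1 hψ hψ1 hmax'
  simpa [hγ1def] using this

lemma polar_visc {w φ : E2 → ℝ} {q k c s r θ : ℝ} {B B1 : ℝ → ℝ} {B2 : ℝ} (hr : 0 < r)
    (hq : -1 < q) (hs : s ≠ 0)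
    (hw : ∀ ρ : ℝ, 0 < ρ → ∀ t, w (pt (ρ * cos t) (ρ * sin t)) = ρ ^ k * B t + c)
    (hB : ∀ t, HasDerivAt B (B1 t) t) (hB1 : HasDerivAt B1 B2 θ)
    (hne : 0 < k ^ 2 * B θ ^ 2 + B1 θ ^ 2) {x0 : E2}
    (hx0 : x0 = pt (r * cos θ) (r * sin θ)) (hφ : ContDiffAt ℝ 2 φ x0)
    (hmax : IsLocalMax (fun y => s * (w y - φ y)) x0) :
    gradient φ x0 ≠ 0 ∧
      s * (r ^ k / r ^ 2 * Gop q k (B θ) (B1 θ) B2) ≤ s * normPLap (q + 2) φ x0 := by
  have key := polar_touch hr hw hB hB1 hx0 hφ hmax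
  set D := fderiv ℝ φ x0 with hD
  set H := fderiv ℝ (fderiv ℝ φ) x0 with hH
  set R := r ^ k with hR
  have hRpos : 0 < R := rpow_pos_of_pos hr k
  set y := B θ
  set y1 := B1 θ
  set C := cos θ
  set S := sin θ
  have hCS : C ^ 2 + S ^ 2 = 1 := cos_sq_add_sin_sq θ
  have f1 := (key 1 0).1
  have f2 := (key 0 1).1
  rw [clm_pt] at f1 f2
  have f1' := (mul_eq_zero.mp f1).resolve_left hs
  have f2' := (mul_eq_zero.mp f2).resolve_left hs
  have d0 : D e0 = R / r * (k * y * C - y1 * S) := by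
    field_simp
    linear_combination (-C) * f1' + S * f2' - r * D e0 * hCS
  have d1 : D e1 = R / r * (k * y * S + y1 * C) := by
    field_simp
    linear_combination (-S) * f1' - C * f2' - r * D e1 * hCS
  have g1 := (key (k * y) y1).2
  have g2 := (key (-y1) (k * y)).2
  rw [bil_pt, clm_pt, d0, d1] at g1 g2
  set ρ := k ^ 2 * y ^ 2 + y1 ^ 2 with hρ
  set a := k * y * C - y1 * S with ha
  set b := k * y * S + y1 * C with hb
  have hab : a ^ 2 + b ^ 2 = ρ := by
    rw [ha, hb, hρ]; linear_combination (k ^ 2 * y ^ 2 + y1 ^ 2) * hCS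
  have hgrad : gradient φ x0 = pt (R / r * a) (R / r * b) := by
    rw [gradient_eq, ← hD, d0, d1]
  have hnorm : ‖gradient φ x0‖ ^ 2 = (R / r) ^ 2 * ρ := by
    rw [hgrad, norm_sq_pt, ← hab]; ring
  have hRr : 0 < R / r := div_pos hRpos hr
  constructor
  · intro h0
    rw [h0] at hnorm
    have : 0 < (R / r) ^ 2 * ρ := by positivity
    rw [← hnorm] at this
    simp at this
  · set h00 := H e0 e0
    set h01 := H e0 e1 + H e1 e0
    set h11 := H e1 e1
    have hval : normPLap (q + 2) φ x0 =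
        h00 + h11 + q * ((a ^ 2 * h00 + a * b * h01 + b ^ 2 * h11) / ρ) := by
      rw [normPLap, lap_eq, hessForm_eq, hnorm, hgrad, ← hH, bil_pt]
      have : q + 2 - 2 = q := by ring
      rw [this]
      congr 2
      field_simp
      rfl
    have e1' : s * (R * (k * (k - 1) * y * (k * y) ^ 2 + 2 * (k - 1) * (k * y) * y1 * y1
        + y1 ^ 2 * (B2 + k * y))) ≤ s * (r ^ 2 * (a ^ 2 * h00 + a * b * h01 + b ^ 2 * h11)) := by
      have hr' : r ≠ 0 := hr.ne'
      have : s * (R * (k * (k - 1) * y * (k * y) ^ 2 + 2 * (k - 1) * (k * y) * y1 * y1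
        + y1 ^ 2 * (B2 + k * y))) - s * (r ^ 2 * (a ^ 2 * h00 + a * b * h01 + b ^ 2 * h11)) ≤ 0 := by
        convert g1 using 1
        rw [ha, hb]
        field_simp
        linear_combination (R * k * y * (k ^ 2 * y ^ 2 + y1 ^ 2)) * hCS
      linarith
    have e2' : s * (R * (k * (k - 1) * y * y1 ^ 2 - 2 * (k - 1) * (k * y) * y1 * y1
        + (k * y) ^ 2 * (B2 + k * y))) ≤
        s * (r ^ 2 * (b ^ 2 * h00 - a * b * h01 + a ^ 2 * h11)) := by
      have hr' : r ≠ 0 := hr.ne'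
      have : s * (R * (k * (k - 1) * y * y1 ^ 2 - 2 * (k - 1) * (k * y) * y1 * y1
        + (k * y) ^ 2 * (B2 + k * y))) -
        s * (r ^ 2 * (b ^ 2 * h00 - a * b * h01 + a ^ 2 * h11)) ≤ 0 := by
        convert g2 using 1
        rw [ha, hb]
        field_simp
        linear_combination (-(R * k * y * (k ^ 2 * y ^ 2 + y1 ^ 2))) * hCS
      linarith
    have hq1 : 0 < 1 + q := by linarith
    have hr2 : 0 < r ^ 2 * ρ := by positivity
    have hsum := add_le_add (mul_le_mul_of_nonneg_left e1' hq1.le) e2'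
    have lhs : s * (R / r ^ 2 * Gop q k y y1 B2) * (r ^ 2 * ρ) =
        (1 + q) * (s * (R * (k * (k - 1) * y * (k * y) ^ 2 + 2 * (k - 1) * (k * y) * y1 * y1
        + y1 ^ 2 * (B2 + k * y)))) + s * (R * (k * (k - 1) * y * y1 ^ 2
        - 2 * (k - 1) * (k * y) * y1 * y1 + (k * y) ^ 2 * (B2 + k * y))) := by
      rw [Gop, ← hρ]
      have hρ' : ρ ≠ 0 := hne.ne'
      field_simp
      rw [hρ]; ring
    have rhs : s * normPLap (q + 2) φ x0 * (r ^ 2 * ρ) =
        (1 + q) * (s * (r ^ 2 * (a ^ 2 * h00 + a * b * h01 + b ^ 2 * h11))) +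
        s * (r ^ 2 * (b ^ 2 * h00 - a * b * h01 + a ^ 2 * h11)) := by
      rw [hval]
      have hρ' : ρ ≠ 0 := hne.ne'
      field_simp
      rw [← hab]; ring
    exact le_of_mul_le_mul_right (by rw [lhs, rhs]; exact hsum) hr2

end Pool.Agent.H564Z.NP
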