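import Pool.Agent.H564Z.NPPolar

set_option autoImplicit false

namespace Pool.Agent.H564Z.NP

open Real Filter Topology Set
open scoped Laplacian

noncomputable def toC (x : E2) : ℂ := ⟨x 0, x 1⟩

noncomputable def ang (x : E2) : ℝ := Complex.arg (toC x)

noncomputable def hom (k : ℝ) (B : ℝ → ℝ) (x : E2) : ℝ := ‖x‖ ^ k * B (ang x)

lemma norm_toC (x : E2) : ‖toC x‖ = ‖x‖ := by
  have h1 : ‖toC x‖ ^ 2 = ‖x‖ ^ 2 := by
    rw [Complex.sq_norm, Complex.normSq_apply, eq_pt x, norm_sq_pt]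
    simp [toC]; ring
  exact (pow_left_inj₀ (norm_nonneg _) (norm_nonneg _) two_ne_zero).mp h1

lemma continuous_toC : Continuous toC := by
  have : toC = fun x : E2 => ((x 0 : ℝ) : ℂ) + ((x 1 : ℝ) : ℂ) * Complex.I := by
    ext x
    apply Complex.ext <;> simp [toC]
  rw [this]
  fun_prop

lemma polar_eq (x : E2) : x = pt (‖x‖ * cos (ang x)) (‖x‖ * sin (ang x)) := by
  rw [← norm_toC, ang, Complex.norm_mul_cos_arg, Complex.norm_mul_sin_arg]
  exact eq_pt x

lemma norm_polar {ρ : ℝ} (hρ : 0 < ρ) (t : ℝ) : ‖pt (ρ * cos t) (ρ * sin t)‖ = ρ := by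
  have h1 : ‖pt (ρ * cos t) (ρ * sin t)‖ ^ 2 = ρ ^ 2 := by
    rw [norm_sq_pt]; linear_combination ρ ^ 2 * cos_sq_add_sin_sq t
  exact (pow_left_inj₀ (norm_nonneg _) hρ.le two_ne_zero).mp h1

lemma per_eq {B : ℝ → ℝ} (hper : Function.Periodic B (2 * π)) {x y : ℝ}
    (h : (x : Real.Angle) = (y : Real.Angle)) : B x = B y := by
  obtain ⟨n, hn⟩ := Real.Angle.angle_eq_iff_two_pi_dvd_sub.mp h
  have : x = y + n * (2 * π) := by linarith
  rw [this]
  exact hper.int_mul n y

lemma hom_pt {B : ℝ → ℝ} (hper : Function.Periodic B (2 * π)) (k : ℝ) {ρ : ℝ} (hρ : 0 < ρ)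
    (t : ℝ) : hom k B (pt (ρ * cos t) (ρ * sin t)) = ρ ^ k * B t := by
  rw [hom, norm_polar hρ]
  congr 1
  apply per_eq hper
  have h := Complex.arg_mul_cos_add_sin_mul_I_coe_angle hρ (t : Real.Angle)
  rw [← h, ang]
  congr 2
  apply Complex.ext <;> simp [toC, Complex.cos_ofReal_re, Complex.sin_ofReal_re]

lemma continuousAt_comp_ang {B : ℝ → ℝ} (hper : Function.Periodic B (2 * π)) (hc : Continuous B)
    {x : E2} (hx : x ≠ 0) : ContinuousAt (fun y => B (ang y)) x := by
  have hl : Continuous (fun a : Real.Angle => hper.lift a) := by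
    refine continuous_coinduced_dom.mpr ?_
    exact hc
  have hz : toC x ≠ 0 := by
    intro h
    have := norm_toC x
    rw [h, norm_zero] at this
    exact hx (norm_eq_zero.mp this.symm)
  have h1 := (Complex.continuousAt_arg_coe_angle hz).comp (f := toC) continuous_toC.continuousAt
  exact hl.continuousAt.comp h1

lemma per_bound {B : ℝ → ℝ} (hc : Continuous B) : ∃ M : ℝ, 0 ≤ M ∧ ∀ x : E2, |B (ang x)| ≤ M := by
  obtain ⟨M, hM⟩ := (isCompact_Icc (a := -π) (b := π)).exists_bound_of_continuousOn hc.continuousOn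
  refine ⟨max M 0, le_max_right _ _, fun x => le_trans ?_ (le_max_left _ _)⟩
  exact hM _ ⟨(Complex.neg_pi_lt_arg _).le, Complex.arg_le_pi _⟩

lemma hom_zero {k : ℝ} (hk : 0 < k) (B : ℝ → ℝ) : hom k B 0 = 0 := by
  simp [hom, zero_rpow hk.ne']

lemma abs_hom_le {B : ℝ → ℝ} (hc : Continuous B) (k : ℝ) :
    ∃ M : ℝ, 0 ≤ M ∧ ∀ x : E2, |hom k B x| ≤ M * ‖x‖ ^ k := by
  obtain ⟨M, hM0, hM⟩ := per_bound hc
  refine ⟨M, hM0, fun x => ?_⟩
  have h : 0 ≤ ‖x‖ ^ k := rpow_nonneg (norm_nonneg _) _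
  rw [hom, abs_mul, abs_of_nonneg h, mul_comm]
  exact mul_le_mul_of_nonneg_right (hM x) h

lemma continuous_hom {B : ℝ → ℝ} (hper : Function.Periodic B (2 * π)) (hc : Continuous B)
    {k : ℝ} (hk : 0 < k) : Continuous (hom k B) := by
  have hpow : Continuous fun y : E2 => ‖y‖ ^ k :=
    continuous_norm.rpow_const fun _ => Or.inr hk.le
  rw [continuous_iff_continuousAt]
  intro x
  by_cases hx : x = 0
  · subst hx
    obtain ⟨M, -, hM⟩ := abs_hom_le hc k
    rw [ContinuousAt, hom_zero hk]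
    refine squeeze_zero_norm (a := fun y : E2 => M * ‖y‖ ^ k) hM ?_
    have := (hpow.const_mul M).tendsto 0
    simpa [zero_rpow hk.ne'] using this
  · exact hpow.continuousAt.mul (continuousAt_comp_ang hper hc hx)

lemma origin_touch {w φ : E2 → ℝ} {k c s M : ℝ} (hk : 2 < k) (hs : s ^ 2 = 1)
    (hw : ∀ x, |w x - c| ≤ M * ‖x‖ ^ k) (hφ : ContDiffAt ℝ 2 φ 0)
    (hmax : IsLocalMax (fun y => s * (w y - φ y)) 0) (v : E2) :
    fderiv ℝ φ 0 v = 0 ∧ 0 ≤ s * fderiv ℝ (fderiv ℝ φ) 0 v v := by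
  have hs0 : s ≠ 0 := by rintro rfl; norm_num at hs
  have hw0 : w 0 = c := by
    have := hw 0
    rw [norm_zero, zero_rpow (by linarith), mul_zero] at this
    have := abs_nonpos_iff.mp this
    linarith
  have habs : |s| = 1 := by
    have : |s| ^ 2 = 1 := by rw [sq_abs, hs]
    exact (pow_eq_one_iff_of_nonneg (abs_nonneg s) two_ne_zero).mp this
  have main : ∀ ε : ℝ, 0 < ε →
      fderiv ℝ φ 0 v = 0 ∧ -(2 * ε) ≤ s * fderiv ℝ (fderiv ℝ φ) 0 v v := by
    intro ε hε
    have hγ : ∀ t : ℝ, HasDerivAt (fun t : ℝ => t • v) v t := fun t => by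
      simpa using (hasDerivAt_id t).smul_const v
    have hψ : ∀ t : ℝ, HasDerivAt (fun t : ℝ => c - s * ε * t ^ 2) (-(s * ε * (2 * t))) t :=
      fun t => by simpa using ((hasDerivAt_pow 2 t).const_mul (s * ε)).const_sub c
    have hψ1 : HasDerivAt (fun t : ℝ => -(s * ε * (2 * t))) (-(s * ε * 2)) 0 := by
      simpa using (((hasDerivAt_id (0 : ℝ)).const_mul 2).const_mul (s * ε)).fun_neg
    have hc : Tendsto (fun t : ℝ => t • v) (𝓝 0) (𝓝 0) := by
      have := (hγ 0).continuousAt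
      simpa [ContinuousAt] using this
    have hsmall : ∀ᶠ t : ℝ in 𝓝 0, M * ‖v‖ ^ k * |t| ^ (k - 2) < ε := by
      have hcont : Continuous fun t : ℝ => M * ‖v‖ ^ k * |t| ^ (k - 2) :=
        (continuous_abs.rpow_const fun _ => Or.inr (by linarith)).const_mul _
      have := hcont.tendsto 0
      simp only [abs_zero, zero_rpow (show k - 2 ≠ 0 by linarith), mul_zero] at this
      exact this.eventually (gt_mem_nhds hε)
    have hmax' : IsLocalMax (fun t : ℝ => s * ((c - s * ε * t ^ 2) - φ (t • v))) 0 := by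
      filter_upwards [hc.eventually hmax, hsmall] with t h1 h2
      simp only [zero_smul, hw0] at h1 ⊢
      have h3 := hw (t • v)
      have h4 : M * ‖t • v‖ ^ k ≤ ε * t ^ 2 := by
        rw [norm_smul, mul_rpow (norm_nonneg _) (norm_nonneg _), Real.norm_eq_abs]
        have : |t| ^ k = |t| ^ (k - 2) * t ^ 2 := by
          have h5 : k = (k - 2) + 2 := by ring
          conv_lhs => rw [h5]
          rw [rpow_add' (abs_nonneg t) (by linarith), rpow_two, sq_abs]
        rw [this]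
        nlinarith [sq_nonneg t]
      have h6 : |s * (w (t • v) - c)| ≤ ε * t ^ 2 := by
        rw [abs_mul, habs, one_mul]; exact h3.trans h4
      have h7 := (abs_le.mp h6).1
      have h8 : s * (s * ε * t ^ 2) = ε * t ^ 2 := by linear_combination ε * t ^ 2 * hs
      nlinarith
    have := touch (γ := fun t : ℝ => t • v) (γ1 := fun _ => v) (γ2 := 0) hφ (by simp) hγ
      (hasDerivAt_const 0 v) hψ hψ1 hmax'
    obtain ⟨h1, h2⟩ := this
    constructor
    · have := (mul_eq_zero.mp h1).resolve_left hs0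
      simpa using this
    · simp only [map_zero, add_zero] at h2
      have h8 : s * (s * ε * 2) = 2 * ε := by linear_combination 2 * ε * hs
      nlinarith
  refine ⟨(main 1 one_pos).1, ?_⟩
  by_contra hneg
  push Not at hneg
  have := (main (-(s * fderiv ℝ (fderiv ℝ φ) 0 v v) / 4) (by linarith)).2
  linarith

/-- the viscosity inequalities, both signs at once -/
lemma hom_visc {q k c s : ℝ} (hq : -1 < q) (hk : 2 < k) (hs : s ^ 2 = 1) {B B1 B2 g : ℝ → ℝ}
    (hper : Function.Periodic B (2 * π))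
    (hB : ∀ t, HasDerivAt B (B1 t) t) (hB1 : ∀ t, HasDerivAt B1 (B2 t) t)
    (hne : ∀ t, 0 < k ^ 2 * B t ^ 2 + B1 t ^ 2) (hg : ∀ t, Gop q k (B t) (B1 t) (B2 t) = g t)
    (x : E2) (φ : E2 → ℝ) (hφ : ContDiffAt ℝ 2 φ x)
    (hmax : IsLocalMax (fun y => s * (hom k B y + c - φ y)) x) :
    (gradient φ x ≠ 0 → s * hom (k - 2) g x ≤ s * normPLap (q + 2) φ x) ∧
    (gradient φ x = 0 → ∃ ν : E2, ‖ν‖ = 1 ∧ s * hom (k - 2) g x ≤ s * dirPLap (q + 2) φ x ν) := by
  have hs0 : s ≠ 0 := by rintro rfl; norm_num at hs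
  have hc : Continuous B := continuous_iff_continuousAt.mpr fun t => (hB t).continuousAt
  by_cases hx : x = 0
  · subst hx
    obtain ⟨M, -, hM⟩ := abs_hom_le hc k
    have key := origin_touch (w := fun y => hom k B y + c) (c := c) (M := M) hk hs
      (by simpa using hM) hφ hmax
    have hgrad : gradient φ 0 = 0 := by
      rw [gradient_eq, (key e0).1, (key e1).1]; simp [pt]
    refine ⟨fun h => absurd hgrad h, fun _ => ⟨e0, by simp [e0], ?_⟩⟩
    rw [hom_zero (by linarith), dirPLap, lap_eq, hessForm_eq]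
    have h0 := (key e0).2
    have h1 := (key e1).2
    have hq1 : 0 < 1 + q := by linarith
    have := mul_nonneg hq1.le h0
    nlinarith
  · have hr : 0 < ‖x‖ := norm_pos_iff.mpr hx
    have key := polar_visc (w := fun y => hom k B y + c) (c := c) (k := k) (B := B) hr hq hs0
      (fun ρ hρ t => by simp only [hom_pt hper k hρ t]) hB (hB1 (ang x)) (hne _) (polar_eq x)
      hφ hmax
    refine ⟨fun _ => ?_, fun h => absurd h key.1⟩
    have h2 := key.2
    rw [hg] at h2
    rw [hom, rpow_sub hr, rpow_two]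
    exact h2

lemma hom_sol {q k c : ℝ} (hq : -1 < q) (hk : 2 < k) {B B1 B2 g : ℝ → ℝ}
    (hper : Function.Periodic B (2 * π))
    (hB : ∀ t, HasDerivAt B (B1 t) t) (hB1 : ∀ t, HasDerivAt B1 (B2 t) t)
    (hne : ∀ t, 0 < k ^ 2 * B t ^ 2 + B1 t ^ 2) (hg : ∀ t, Gop q k (B t) (B1 t) (B2 t) = g t)
    (Ω : Set E2) :
    IsViscSub (q + 2) Ω (hom (k - 2) g) (fun y => hom k B y + c) ∧
    IsViscSuper (q + 2) Ω (hom (k - 2) g) (fun y => hom k B y + c) := by
  constructor
  · intro x _ φ hφ hmax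
    have := hom_visc (s := 1) (c := c) hq hk (by norm_num) hper hB hB1 hne hg x φ hφ
      (by simpa using hmax)
    simpa using this
  · intro x _ φ hφ hmin
    have := hom_visc (s := -1) (c := c) hq hk (by norm_num) hper hB hB1 hne hg x φ hφ
      (by simpa using hmin.neg)
    simpa using this

/-- Two ordered homogeneous solutions with the same right hand side give non-uniqueness. -/
theorem nonunique_of_profiles {q k : ℝ} (hq : -1 < q) (hk : 2 < k)
    {A A1 A2 B B1 B2 g : ℝ → ℝ}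
    (hAper : Function.Periodic A (2 * π)) (hBper : Function.Periodic B (2 * π))
    (hgper : Function.Periodic g (2 * π)) (hgc : Continuous g)
    (hA : ∀ t, HasDerivAt A (A1 t) t) (hA1 : ∀ t, HasDerivAt A1 (A2 t) t)
    (hB : ∀ t, HasDerivAt B (B1 t) t) (hB1 : ∀ t, HasDerivAt B1 (B2 t) t)
    (hAne : ∀ t, 0 < k ^ 2 * A t ^ 2 + A1 t ^ 2) (hBne : ∀ t, 0 < k ^ 2 * B t ^ 2 + B1 t ^ 2)
    (hAg : ∀ t, Gop q k (A t) (A1 t) (A2 t) = g t) (hBg : ∀ t, Gop q k (B t) (B1 t) (B2 t) = g t)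
    (hAB : ∀ t, A t < B t) :
    ∃ (Ω : Set E2) (f g u v : E2 → ℝ), IsOpen Ω ∧ IsConnected Ω ∧ Bornology.IsBounded Ω ∧
      ContinuousOn f (closure Ω) ∧ ContinuousOn g (frontier Ω) ∧
      IsDirichletSol (q + 2) Ω f g u ∧ IsDirichletSol (q + 2) Ω f g v ∧ ∃ x ∈ Ω, u x ≠ v x := by
  have hk0 : 0 < k := by linarith
  have hAc : Continuous A := continuous_iff_continuousAt.mpr fun t => (hA t).continuousAt
  have hBc : Continuous B := continuous_iff_continuousAt.mpr fun t => (hB t).continuousAt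
  have hu : Continuous (fun y => hom k A y + 1) := (continuous_hom hAper hAc hk0).add_const 1
  have hv : Continuous (fun y => hom k B y + 0) := (continuous_hom hBper hBc hk0).add_const 0
  set Ω : Set E2 := {y | hom k B y + 0 < hom k A y + 1} with hΩ
  have h0 : (0 : E2) ∈ Ω := by simp [hΩ, hom_zero hk0]
  obtain ⟨t0, -, ht0⟩ := (isCompact_Icc (a := -π) (b := π)).exists_isMinOn
    ⟨0, by constructor <;> linarith [pi_pos]⟩ (hBc.sub hAc).continuousOn
  set m := B t0 - A t0 with hm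
  have hmpos : 0 < m := by have := hAB t0; linarith
  have hlow : ∀ y : E2, m ≤ B (ang y) - A (ang y) := fun y =>
    ht0 (show ang y ∈ Icc (-π) π from ⟨(Complex.neg_pi_lt_arg _).le, Complex.arg_le_pi _⟩)
  refine ⟨Ω, hom (k - 2) g, fun y => hom k B y + 0, fun y => hom k A y + 1,
    fun y => hom k B y + 0, isOpen_lt hv hu, ?_, ?_,
    (continuous_hom hgper hgc (by linarith)).continuousOn, hv.continuousOn,
    ⟨hu.continuousOn, fun x hx => (frontier_lt_subset_eq hv hu hx).symm,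
      hom_sol hq hk hAper hA hA1 hAne hAg Ω⟩,
    ⟨hv.continuousOn, fun x _ => rfl, hom_sol hq hk hBper hB hB1 hBne hBg Ω⟩,
    0, h0, by simp [hom_zero hk0]⟩
  · refine (StarConvex.isPathConnected (a := 0) ?_ h0).isConnected
    intro y hy a b ha hb hab
    simp only [smul_zero, zero_add]
    rcases hb.eq_or_lt with rfl | hb'
    · simpa using h0
    by_cases hy0 : y = 0
    · subst hy0; simpa using h0
    have hr : 0 < ‖y‖ := norm_pos_iff.mpr hy0
    have hby : b • y = pt (b * ‖y‖ * cos (ang y)) (b * ‖y‖ * sin (ang y)) := by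
      conv_lhs => rw [polar_eq y]
      simp only [pt, smul_add, smul_smul, mul_assoc]
    have hbr : 0 < b * ‖y‖ := mul_pos hb' hr
    simp only [hΩ, mem_ofPred_eq] at hy ⊢
    rw [hby, hom_pt hBper k hbr, hom_pt hAper k hbr]
    simp only [hom] at hy
    have hle : (b * ‖y‖) ^ k ≤ ‖y‖ ^ k :=
      rpow_le_rpow hbr.le (by nlinarith) hk0.le
    have := hAB (ang y)
    nlinarith
  · rw [Metric.isBounded_iff_subset_closedBall 0]
    refine ⟨max 1 (1 / m), fun y hy => ?_⟩
    rw [mem_closedBall_zero_iff]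
    by_contra hcon
    push Not at hcon
    have h1 : 1 < ‖y‖ := lt_of_le_of_lt (le_max_left _ _) hcon
    have h2 : 1 / m < ‖y‖ := lt_of_le_of_lt (le_max_right _ _) hcon
    have h3 : ‖y‖ ≤ ‖y‖ ^ k := by
      have := rpow_le_rpow_of_exponent_le h1.le (show (1 : ℝ) ≤ k by linarith)
      rwa [rpow_one] at this
    simp only [hΩ, mem_ofPred_eq, hom] at hy
    have h4 := hlow y
    rw [div_lt_iff₀ hmpos] at h2
    nlinarith

end Pool.Agent.H564Z.NP
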