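import Pool.Agent.H564Z.NPLow

set_option autoImplicit false

namespace Pool.Agent.H564Z.NP

open Real Filter Topology Set
open scoped NNReal

lemma apriori {Q R δ G0 L M : ℝ} (hQ0 : 0 < Q) (hQ1 : Q < 1) (hR : 0 ≤ R) (hδ : 0 ≤ δ)
    {G : ℝ → ℝ} (hG : ∀ t, |G t| ≤ G0) (hM : 27 / 2 + (δ * G0 + 9) / (1 - Q) ≤ M)
    {α : ℝ → ℝ × ℝ} (h0 : α 0 = (1, 0)) (hα : ∀ t, HasDerivAt α (fld (-Q) 3 R G δ t (α t)) t) :
    ∀ t ∈ Icc 0 L, |(α t).2| ≤ M * L ∧ |(α t).1 - 1| ≤ M * L * L := by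
  have hq : 0 < 1 - Q := by linarith
  have h2 : ∀ t ∈ Icc 0 L, |(α t).2| ≤ M * L := by
    have := abs_le_of_deriv (L := L) (M := M) (fun t => der_snd (hα t)) (by
      intro t _
      have h1 := abs_Phi_le (A := δ * G t) (v := clamp (-R) R (α t).2) hQ0 hQ1
        (clamp_mem (by norm_num : (1 / 2 : ℝ) ≤ 3 / 2) (α t).1)
      have h3 : |δ * G t| ≤ δ * G0 := by
        rw [abs_mul, abs_of_nonneg hδ]; exact mul_le_mul_of_nonneg_left (hG t) hδ
      have h2 : (|δ * G t| + 9) / (1 - Q) ≤ (δ * G0 + 9) / (1 - Q) := by gcongr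
      change |Phi _ _ _ _ _| ≤ M
      linarith)
    simpa [h0] using this
  have h1 := abs_le_of_deriv (L := L) (M := M * L) (fun t => der_fst (hα t)) (by
    intro t ht
    exact (abs_clamp_le hR _).trans (h2 t ht))
  intro t ht
  exact ⟨h2 t ht, by simpa [h0] using h1 t ht⟩

lemma abs_Gop_cos {Q m : ℝ} (hQ0 : 0 < Q) (hQ1 : Q < 1) (t : ℝ) :
    |Gop (-Q) 3 (2 + cos (m * t)) (-(m * sin (m * t))) (-(m ^ 2 * cos (m * t)))| ≤ m ^ 2 + 45 := by
  obtain ⟨h0, h1⟩ := sig_mem 3 (2 + cos (m * t)) (-(m * sin (m * t)))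
  unfold Gop
  set σ := (-(m * sin (m * t))) ^ 2 / (3 ^ 2 * (2 + cos (m * t)) ^ 2 + (-(m * sin (m * t))) ^ 2)
  have hc1 := cos_le_one (m * t)
  have hc2 := neg_one_le_cos (m * t)
  have ha : |-(m ^ 2 * cos (m * t)) + 3 ^ 2 * (2 + cos (m * t))| ≤ m ^ 2 + 27 := by
    rw [abs_le]; constructor <;> nlinarith [sq_nonneg m]
  have hb : |1 + -Q * σ| ≤ 1 := by
    rw [abs_le]; constructor <;> nlinarith
  have hc : |-Q * 3 * (3 - 1) * (2 + cos (m * t))| ≤ 18 := by
    rw [abs_le]; constructor <;> nlinarith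
  refine (abs_add_le _ _).trans ?_
  rw [abs_mul]
  have := mul_le_mul ha hb (abs_nonneg _) (by positivity)
  linarith

lemma shoot_zero {Q R L : ℝ} (hQ0 : 0 < Q) (hQ1 : Q < 1) (hL0 : 0 < L)
    {G : ℝ → ℝ} {α : ℝ → ℝ × ℝ} (h0 : α 0 = (1, 0))
    (hα : ∀ t, HasDerivAt α (fld (-Q) 3 R G 0 t (α t)) t)
    (hv : ∀ t ∈ Icc 0 L, |clamp (-R) R (α t).2| ≤ 1 / 2) : (α L).2 < 0 := by
  have key := le_of_deriv_nonneg (f := fun t => -(α t).2 - t / 4)
    (f' := fun t => -(fld (-Q) 3 R G 0 t (α t)).2 - 1 / 4) hL0.le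
    (fun t _ => ((der_snd (hα t)).fun_neg.fun_sub ((hasDerivAt_id t).div_const 4)))
    (by
      intro t ht
      obtain ⟨hy0, hy1⟩ := clamp_mem (by norm_num : (1 / 2 : ℝ) ≤ 3 / 2) (α t).1
      have hw := hv t ht
      simp only [fld, Phi]
      set y := clamp (1 / 2) (3 / 2) (α t).1
      set w := clamp (-R) R (α t).2
      have hw2 : w ^ 2 ≤ 1 / 4 := by
        have := abs_le.mp hw
        nlinarith
      have hσ : w ^ 2 / (3 ^ 2 * y ^ 2 + w ^ 2) ≤ 1 / 9 := by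
        rw [div_le_iff₀ (by positivity)]; nlinarith [sq_nonneg w]
      have hσ0 := (sig_mem 3 y w).1
      set σ := w ^ 2 / (3 ^ 2 * y ^ 2 + w ^ 2)
      have hd : 8 / 9 ≤ 1 + -Q * σ := by nlinarith
      have : (0 * G t - -Q * 3 * (3 - 1) * y) / (1 + -Q * σ) ≤ 7 * y := by
        rw [div_le_iff₀ (by linarith)]; nlinarith
      linarith)
  simp only [h0] at key
  linarith

lemma shoot_one {Q m L δ : ℝ} (hQ0 : 0 < Q) (hQ1 : Q < 1) (hm : 0 < m) (hL : m * L = π)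
    (hδ : δ * Q = 6 * L) (hδ1 : δ ≤ 1 / 10)
    {y v : ℝ → ℝ} (hv0 : v 0 = 0) (hy : ∀ t ∈ Icc 0 L, y t ∈ Icc (1 / 2 : ℝ) (3 / 2))
    (hy' : ∀ t ∈ Icc 0 L, HasDerivAt y (v t) t)
    (hv' : ∀ t ∈ Icc 0 L, HasDerivAt v (Phi (-Q) 3 (δ * -Gop (-Q) 3 (2 + cos (m * t))
      (-(m * sin (m * t))) (-(m ^ 2 * cos (m * t)))) (y t) (v t)) t) : 0 < v L := by
  have hL0 : 0 < L := by
    by_contra h
    push Not at h
    nlinarith [pi_pos]
  have hδ0 : 0 < δ := by
    by_contra h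
    push Not at h
    nlinarith
  have hlin : ∀ t : ℝ, HasDerivAt (fun t : ℝ => m * t) m t := fun t => by
    simpa using (hasDerivAt_id t).const_mul m
  have hc : ∀ t, HasDerivAt (fun t => 2 + cos (m * t)) (-(m * sin (m * t))) t := fun t =>
    ((hlin t).cos.const_add 2).congr_deriv (by ring)
  have hc1 : ∀ t, HasDerivAt (fun t => -(m * sin (m * t))) (-(m ^ 2 * cos (m * t))) t := fun t =>
    ((hlin t).sin.const_mul m).fun_neg.congr_deriv (by ring)
  have hcpos : ∀ t, 1 ≤ 2 + cos (m * t) := fun t => by have := neg_one_le_cos (m * t); linarith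
  have hcle : ∀ t, 2 + cos (m * t) ≤ 3 := fun t => by have := cos_le_one (m * t); linarith
  have key := le_of_deriv_nonneg
    (f := fun t => Psi (-Q) 3 (y t) (v t) + δ * Psi (-Q) 3 (2 + cos (m * t)) (-(m * sin (m * t)))
      + (27 / 2 + 27 * δ) * t + 3 * Q * δ * (π / 4) * (2 + cos (m * t) + 9 * t)) hL0.le
    (fun t ht => (((hasDerivAt_Psi (q := -Q) (by norm_num : (0 : ℝ) < 3)
      (by have := (hy t ht).1; linarith) (hy' t ht) (hv' t ht)).fun_add
      ((hasDerivAt_Psi (q := -Q) (by norm_num : (0 : ℝ) < 3)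
        (y := fun t => 2 + cos (m * t)) (y1 := fun t => -(m * sin (m * t)))
        (by have := hcpos t; linarith) (hc t) (hc1 t)).const_mul δ)).fun_add
      ((hasDerivAt_id t).const_mul (27 / 2 + 27 * δ))).fun_add
      (((hc t).fun_add ((hasDerivAt_id t).const_mul 9)).const_mul (3 * Q * δ * (π / 4))))
    (by
      intro t ht
      rw [Gop_Phi (by linarith)]
      obtain ⟨hy0, hy1⟩ := hy t ht
      have h1 := mul_arctan_nonneg (w := v t) (d := 3 * y t) (by linarith)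
      have h2 := mul_arctan_ge (w := -(m * sin (m * t))) (d := 3 * (2 + cos (m * t)))
        (by have := hcpos t; linarith)
      have h3 := hcpos t
      have h4 := hcle t
      set c := 2 + cos (m * t)
      set c1 := -(m * sin (m * t))
      set T1 := v t * arctan (v t / (3 * y t))
      set T2 := c1 * arctan (c1 / (3 * c))
      have h5 : 0 ≤ Q * T1 := mul_nonneg hQ0.le h1
      have h6 : Q * δ * (π / 4 * (-c1 - 3 * c)) ≤ Q * δ * T2 :=
        mul_le_mul_of_nonneg_left h2 (by positivity)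
      have h7 : 0 ≤ Q * δ * π * (3 - c) := by
        have := pi_pos
        have : 0 ≤ 3 - c := by linarith
        positivity
      have h8 : 0 ≤ Q * y t := by positivity
      have h9 : 0 ≤ Q * δ * c := by positivity
      have h10 : δ * c ≤ δ * 3 := mul_le_mul_of_nonneg_left h4 hδ0.le
      nlinarith)
  simp only [hv0, hL, mul_zero, sin_zero, cos_zero, sin_pi, cos_pi, neg_zero, Psi_zero] at key
  have hpsi : 0 < Psi (-Q) 3 (y L) (v L) := by
    have h1 : 3 * Q * δ * (π / 4) = 9 / 2 * L * π := by linear_combination (3 * π / 4) * hδ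
    rw [h1] at key
    have h3 := pi_gt_three
    have h4 := pi_lt_four
    have hLs : L ≤ 1 / 60 := by nlinarith
    have h5 : L * π * L ≤ L * 4 * (1 / 60) := by
      apply mul_le_mul _ hLs hL0.le (by positivity)
      exact mul_le_mul_of_nonneg_left h4.le hL0.le
    nlinarith
  by_contra hneg
  push Not at hneg
  have hyL := (hy L ⟨hL0.le, le_rfl⟩).1
  have h1 : arctan (v L / (3 * y L)) ≤ 0 :=
    arctan_le_zero.mpr (div_nonpos_of_nonpos_of_nonneg hneg (by linarith))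
  unfold Psi at hpsi
  have h2 : 0 ≤ Q * y L := by positivity
  nlinarith

lemma reduce_to_half {α : ℝ → ℝ × ℝ} {L : ℝ} (hL : 0 < L)
    (h0 : ∀ t, α (2 * 0 - t) = ((α t).1, -(α t).2))
    (h1 : ∀ t, α (2 * L - t) = ((α t).1, -(α t).2)) :
    Function.Periodic α (2 * L) ∧
      ∀ t, ∃ s ∈ Icc 0 L, (α t).1 = (α s).1 ∧ |(α t).2| = |(α s).2| := by
  have hper : Function.Periodic α (2 * L) := by
    intro t
    have e1 := h1 (2 * 0 - t)
    rw [show 2 * L - (2 * 0 - t) = t + 2 * L by ring, h0 t] at e1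
    simpa using e1
  refine ⟨hper, fun t => ?_⟩
  obtain ⟨s, hs, hst⟩ := hper.exists_mem_Ico (by linarith) t (-L)
  rcases le_total 0 s with h | h
  · exact ⟨s, ⟨h, by linarith [hs.2]⟩, by rw [hst], by rw [hst]⟩
  · refine ⟨2 * 0 - s, ⟨by linarith, by linarith [hs.1]⟩, ?_, ?_⟩ <;> rw [hst, h0 s]
    simp

theorem low_nonunique {p : ℝ} (hp1 : 1 < p) (hp2 : p < 2) :
    ∃ (Ω : Set E2) (f g u v : E2 → ℝ), IsOpen Ω ∧ IsConnected Ω ∧ Bornology.IsBounded Ω ∧
      ContinuousOn f (closure Ω) ∧ ContinuousOn g (frontier Ω) ∧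
      IsDirichletSol p Ω f g u ∧ IsDirichletSol p Ω f g v ∧ ∃ x ∈ Ω, u x ≠ v x := by
  set Q := 2 - p with hQ
  have hQ0 : 0 < Q := by linarith
  have hQ1 : Q < 1 := by linarith
  have hP : 0 < 1 - Q := by linarith
  have hpq : p = -Q + 2 := by linarith
  set n : ℕ := ⌈800 / (Q * (1 - Q))⌉₊ with hn
  set m : ℝ := (n : ℝ) with hmdef
  have hm1 : 800 / (Q * (1 - Q)) ≤ m := Nat.le_ceil _
  have hm : 0 < m := lt_of_lt_of_le (by positivity) hm1
  set L := π / m with hLdef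
  have hL0 : 0 < L := div_pos pi_pos hm
  have hmL : m * L = π := by rw [hLdef]; field_simp
  have hLs : L ≤ Q * (1 - Q) / 200 := by
    rw [div_le_iff₀ (by positivity)] at hm1
    rw [hLdef, div_le_iff₀ hm]
    have := pi_lt_four
    nlinarith
  set δ1 := 6 * L / Q with hδ1def
  have hδ1Q : δ1 * Q = 6 * L := by rw [hδ1def]; field_simp
  have hδ10 : 0 < δ1 := by positivity
  have hδ1s : δ1 ≤ 3 / 100 * (1 - Q) := by
    rw [hδ1def, div_le_iff₀ hQ0]; nlinarith
  have hLs2 : L ≤ (1 - Q) / 200 := by nlinarith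
  have hLs3 : L ≤ 1 / 200 := by linarith
  set G : ℝ → ℝ := fun t => -Gop (-Q) 3 (2 + cos (m * t)) (-(m * sin (m * t)))
    (-(m ^ 2 * cos (m * t))) with hGdef
  have hG : ∀ t, |G t| ≤ m ^ 2 + 45 := fun t => by
    simp only [hGdef, abs_neg]; exact abs_Gop_cos hQ0 hQ1 t
  have hcpos : ∀ t, 1 ≤ 2 + cos (m * t) := fun t => by have := neg_one_le_cos (m * t); linarith
  have hGc : Continuous G := by
    simp only [hGdef, Gop]
    refine Continuous.neg (Continuous.add (Continuous.mul (by fun_prop) ?_) (by fun_prop))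
    refine continuous_const.add (continuous_const.mul (Continuous.div (by fun_prop) (by fun_prop) ?_))
    intro t
    have := hcpos t
    positivity
  set M := 27 / 2 + (δ1 * (m ^ 2 + 45) + 9) / (1 - Q) with hMdef
  have hM0 : 0 < M := by positivity
  have hML : M * L * L ≤ 1 / 2 := by
    have h1 : M * L * L = 27 / 2 * L ^ 2 + (δ1 * (π ^ 2 + 45 * L ^ 2) + 9 * L ^ 2) / (1 - Q) := by
      rw [hMdef, ← hmL]; field_simp
    have h2 : π ^ 2 ≤ 10 := by have := pi_lt_d2; have := pi_pos; nlinarith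
    have h3 : L ^ 2 ≤ (1 - Q) / 40000 := by nlinarith
    have h4 : (δ1 * (π ^ 2 + 45 * L ^ 2) + 9 * L ^ 2) / (1 - Q) ≤ 2 / 5 := by
      rw [div_le_iff₀ hP]
      have : δ1 * (π ^ 2 + 45 * L ^ 2) ≤ 3 / 100 * (1 - Q) * 11 :=
        mul_le_mul hδ1s (by nlinarith) (by positivity) (by positivity)
      nlinarith
    rw [h1]; nlinarith
  set R := M * L with hRdef
  have hR : 0 ≤ R := by positivity
  obtain ⟨K, α, hα, hcont⟩ := exists_fld_family (R := R) hQ0 hQ1 hR hδ10.le hGc hG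
  have hMδ : ∀ δ ∈ Icc 0 δ1, 27 / 2 + (δ * (m ^ 2 + 45) + 9) / (1 - Q) ≤ M := by
    intro δ hδ
    have := hδ.2
    rw [hMdef]; gcongr
  have hbox : ∀ δ ∈ Icc 0 δ1, ∀ t ∈ Icc 0 L,
      (α δ t).1 ∈ Icc (1 / 2 : ℝ) (3 / 2) ∧ |(α δ t).2| ≤ R := by
    intro δ hδ t ht
    obtain ⟨h1, h2⟩ := apriori (L := L) hQ0 hQ1 hR hδ.1 hG (hMδ δ hδ) (hα δ hδ).2.1 (hα δ hδ).2.2 t ht
    have := abs_le.mp (h2.trans hML)
    exact ⟨⟨by linarith [this.1], by linarith [this.2]⟩, h1⟩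
  have hfld : ∀ δ t, ∀ z : ℝ × ℝ, z.1 ∈ Icc (1 / 2 : ℝ) (3 / 2) → |z.2| ≤ R →
      fld (-Q) 3 R G δ t z = (z.2, Phi (-Q) 3 (δ * G t) z.1 z.2) := by
    intro δ t z h1 h2
    rw [fld, clamp_of_mem h1, clamp_of_mem (abs_le.mp h2)]
  have h00 : (0 : ℝ) ∈ Icc 0 δ1 := ⟨le_rfl, hδ10.le⟩
  have h11 : δ1 ∈ Icc 0 δ1 := ⟨hδ10.le, le_rfl⟩
  have S0 : (α 0 L).2 < 0 := by
    refine shoot_zero hQ0 hQ1 hL0 (hα 0 h00).2.1 (hα 0 h00).2.2 ?_
    intro t ht
    obtain ⟨h1, -⟩ := apriori (L := L) hQ0 hQ1 hR le_rfl hG le_rfl (hα 0 h00).2.1 (hα 0 h00).2.2 t ht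
    refine (abs_clamp_le hR _).trans (h1.trans ?_)
    have : (27 / 2 + (0 * (m ^ 2 + 45) + 9) / (1 - Q)) * L = 27 / 2 * L + 9 * (L / (1 - Q)) := by
      field_simp; ring
    rw [this]
    have : L / (1 - Q) ≤ 1 / 200 := by rw [div_le_iff₀ hP]; linarith
    linarith
  have S1 : 0 < (α δ1 L).2 := by
    refine shoot_one (y := fun t => (α δ1 t).1) (v := fun t => (α δ1 t).2) hQ0 hQ1 hm hmL hδ1Q
      (by linarith) (by simp [(hα δ1 h11).2.1]) (fun t ht => (hbox δ1 h11 t ht).1) ?_ ?_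
    · intro t ht
      have := der_fst ((hα δ1 h11).2.2 t)
      rwa [hfld _ _ _ (hbox δ1 h11 t ht).1 (hbox δ1 h11 t ht).2] at this
    · intro t ht
      have := der_snd ((hα δ1 h11).2.2 t)
      rwa [hfld _ _ _ (hbox δ1 h11 t ht).1 (hbox δ1 h11 t ht).2] at this
  obtain ⟨δ, hδ, hS⟩ : (0 : ℝ) ∈ (fun δ => (α δ L).2) '' Icc 0 δ1 :=
    intermediate_value_Icc hδ10.le (hcont L hL0.le).snd ⟨S0.le, S1.le⟩
  have hδ0 : 0 < δ := by
    rcases hδ.1.eq_or_lt with h | h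
    · rw [← h] at hS; simp only at hS; linarith
    · exact h
  have hGsym : ∀ a : ℝ, (∃ j : ℤ, m * (2 * a) = j * (2 * π)) → ∀ t, G (2 * a - t) = G t := by
    rintro a ⟨j, hj⟩ t
    have e : m * (2 * a - t) = j * (2 * π) - m * t := by linarith
    simp only [hGdef, e, cos_int_mul_two_pi_sub, sin_int_mul_two_pi_sub, Gop]
    ring
  have r0 := fld_reflect (a := 0) hR (hα δ hδ).1 (hGsym 0 ⟨0, by simp⟩) (hα δ hδ).2.2
    (by rw [(hα δ hδ).2.1])
  have r1 := fld_reflect (a := L) hR (hα δ hδ).1 (hGsym L ⟨1, by push_cast; linarith⟩)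
    (hα δ hδ).2.2 hS
  obtain ⟨hper, hred⟩ := reduce_to_half hL0 r0 r1
  have hall : ∀ t, (α δ t).1 ∈ Icc (1 / 2 : ℝ) (3 / 2) ∧ |(α δ t).2| ≤ R := by
    intro t
    obtain ⟨s, hs, h1, h2⟩ := hred t
    rw [h1, h2]; exact hbox δ hδ s hs
  have hper2 : Function.Periodic (α δ) (2 * π) := by
    have := hper.nat_mul n
    rwa [show (n : ℝ) * (2 * L) = 2 * π by rw [← hmL]; ring] at this
  have hcos : ∀ t, cos (m * (t + 2 * π)) = cos (m * t) := fun t => by
    rw [show m * (t + 2 * π) = m * t + n * (2 * π) by ring, cos_add_nat_mul_two_pi]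
  have hsin : ∀ t, sin (m * (t + 2 * π)) = sin (m * t) := fun t => by
    rw [show m * (t + 2 * π) = m * t + n * (2 * π) by ring, sin_add_nat_mul_two_pi]
  have hlin : ∀ t : ℝ, HasDerivAt (fun t : ℝ => m * t) m t := fun t => by
    simpa using (hasDerivAt_id t).const_mul m
  have hc : ∀ t, HasDerivAt (fun t => 2 + cos (m * t)) (-(m * sin (m * t))) t := fun t =>
    ((hlin t).cos.const_add 2).congr_deriv (by ring)
  have hc1 : ∀ t, HasDerivAt (fun t => -(m * sin (m * t))) (-(m ^ 2 * cos (m * t))) t := fun t =>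
    ((hlin t).sin.const_mul m).fun_neg.congr_deriv (by ring)
  rw [hpq]
  refine nonunique_of_profiles (q := -Q) (k := 3) (by linarith) (by norm_num)
    (A := fun t => -δ * (2 + cos (m * t))) (A1 := fun t => -δ * -(m * sin (m * t)))
    (A2 := fun t => -δ * -(m ^ 2 * cos (m * t)))
    (B := fun t => (α δ t).1) (B1 := fun t => (α δ t).2)
    (B2 := fun t => Phi (-Q) 3 (δ * G t) (α δ t).1 (α δ t).2) (g := fun t => δ * G t)
    (fun t => by simp only [hcos]) (fun t => by simp only [hper2 t])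
    (fun t => by simp only [hGdef, hcos, hsin]) (hGc.const_mul δ)
    (fun t => (hc t).const_mul _) (fun t => (hc1 t).const_mul _) ?_ ?_ ?_ ?_ ?_ ?_ ?_
  · intro t
    have := der_fst ((hα δ hδ).2.2 t)
    rwa [hfld _ _ _ (hall t).1 (hall t).2] at this
  · intro t
    have := der_snd ((hα δ hδ).2.2 t)
    rwa [hfld _ _ _ (hall t).1 (hall t).2] at this
  · intro t
    have h1 := hcpos t
    have h2 : 0 < (-δ * (2 + cos (m * t))) ^ 2 := by
      apply sq_pos_of_ne_zero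
      have : 0 < δ * (2 + cos (m * t)) := by positivity
      linarith
    positivity
  · intro t
    have := (hall t).1.1
    have : 0 < (α δ t).1 := by linarith
    positivity
  · intro t
    rw [Gop_smul _ _ _ _ _ (by linarith)]
    simp only [hGdef]; ring
  · intro t
    exact Gop_Phi (by linarith) _ _ _ _
  · intro t
    have h1 := hcpos t
    have := (hall t).1.1
    have : 0 < δ * (2 + cos (m * t)) := by positivity
    linarith

end Pool.Agent.H564Z.NP
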