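import Mathlib

set_option autoImplicit false

namespace Pool.Agent.H564Z.OT

/-- A copy of the ordered graph `H` (on `[h]`) in the ordered graph `G`: an injective
order-preserving map sending edges to edges. -/
def IsCopy {h : ℕ} {W : Type} [LinearOrder W] (H : SimpleGraph (Fin h)) (G : SimpleGraph W)
    (f : Fin h → W) : Prop :=
  StrictMono f ∧ ∀ a b : Fin h, H.Adj a b → G.Adj (f a) (f b)

/-- An `H`-tiling of `G`: a set of pairwise vertex-disjoint copies of `H`. -/
def IsTiling {h : ℕ} {W : Type} [LinearOrder W] (H : SimpleGraph (Fin h)) (G : SimpleGraph W)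
    (T : Set (Fin h → W)) : Prop :=
  (∀ f ∈ T, IsCopy H G f) ∧
    ∀ f ∈ T, ∀ g ∈ T, f ≠ g → Disjoint (Set.range f) (Set.range g)

/-- The vertices covered by no member of `T`. -/
def uncovered {h : ℕ} {W : Type} (T : Set (Fin h → W)) : Set W :=
  {v | ∀ f ∈ T, v ∉ Set.range f}

/-- `σ(F)`: the least size of a colour class over all proper `χ(F)`-colourings of `F`. -/
noncomputable def sigmaMin {N : ℕ} (F : SimpleGraph (Fin N)) : ℕ :=
  sInf {s : ℕ | ∃ (c : F.Coloring (Fin F.chromaticNumber.toNat))
    (i : Fin F.chromaticNumber.toNat), s = {v | c v = i}.ncard}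

/-- The critical chromatic number `(χ(F) - 1) |F| / (|F| - σ(F))`. -/
noncomputable def chiCr {N : ℕ} (F : SimpleGraph (Fin N)) : ℝ :=
  ((F.chromaticNumber.toNat : ℝ) - 1) * N / ((N : ℝ) - sigmaMin F)

/-- The complete multipartite graph whose parts are the fibres of `part`. -/
def multi {N k : ℕ} (part : Fin N → Fin k) : SimpleGraph (Fin N) :=
  SimpleGraph.comap part ⊤

/-- The ordered blow-up `(B(t), φ)`: the vertex with label `i` is replaced by the independent set
`{i} × [t]`, and the order is lexicographic. -/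
def blowUp {N : ℕ} (B : SimpleGraph (Fin N)) (φ : Fin N ≃ Fin N) (t : ℕ) :
    SimpleGraph (Fin N ×ₗ Fin t) :=
  SimpleGraph.comap (fun x => φ.symm (ofLex x).1) B

/-- The complete `k`-partite graph with (nonempty) parts the fibres of `part` is a bottlegraph of
`H`: for every permutation `σ` of the parts and every interval labelling `φ` relative to it, some
ordered blow-up has a perfect `H`-tiling. -/
def IsBottle {h N k : ℕ} (H : SimpleGraph (Fin h)) (part : Fin N → Fin k) : Prop :=
  0 < k ∧ Function.Surjective part ∧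
    ∀ (σ : Equiv.Perm (Fin k)) (φ : Fin N ≃ Fin N),
      (∀ x y : Fin N, σ (part x) < σ (part y) → φ x < φ y) →
      ∃ t : ℕ, 0 < t ∧ ∃ T : Set (Fin h → Fin N ×ₗ Fin t),
        IsTiling H (blowUp (multi part) φ t) T ∧ uncovered T = ∅

/-- `χ*_cr(H)`: the infimum of `χ_cr(B)` over the bottlegraphs `B` of `H`. -/
noncomputable def chiStar {h : ℕ} (H : SimpleGraph (Fin h)) : ℝ :=
  sInf {x : ℝ | ∃ (N k : ℕ) (part : Fin N → Fin k), IsBottle H part ∧ x = chiCr (multi part)}

end Pool.Agent.H564Z.OT
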