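import Pool.Agent.H564Z.OTDefs

set_option autoImplicit false

namespace Pool.Agent.H564Z.OT

open Finset

/-- The ordered graph on `[6]` with edges `13, 14, 23, 24, 45`. -/
def H0 : SimpleGraph (Fin 6) :=
  SimpleGraph.fromRel fun a b => (a, b) ∈ ({(0, 2), (0, 3), (1, 2), (1, 3), (3, 4)} :
    Finset (Fin 6 × Fin 6))

instance : DecidableRel H0.Adj := by unfold H0; infer_instance

lemma one_le_chiCr {N : ℕ} (F : SimpleGraph (Fin N)) {u v : Fin N} (huv : F.Adj u v) :
    1 ≤ chiCr F := by
  have h1 : 2 ≤ F.chromaticNumber.toNat := by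
    have h2 := F.two_le_chromaticNumber_of_adj huv
    have h3 : F.chromaticNumber ≠ ⊤ :=
      ne_top_of_le_ne_top (ENat.natCast_ne_top _) F.chromaticNumber_le_card
    exact_mod_cast ENat.toNat_le_toNat h2 h3
  obtain ⟨c⟩ := F.colorable_chromaticNumber_of_fintype
  have h2 : sigmaMin F < N := by
    refine lt_of_le_of_lt (Nat.sInf_le ⟨c, c u, rfl⟩) ?_
    have h3 : {w | c w = c u} ⊂ Set.univ := by
      refine Set.ssubset_univ_iff.mpr fun h => ?_
      have : v ∈ {w | c w = c u} := h ▸ Set.mem_univ v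
      exact c.valid huv (Eq.symm this)
    simpa using Set.ncard_lt_ncard h3
  have h3 : (sigmaMin F : ℝ) < N := by exact_mod_cast h2
  have h4 : (2 : ℝ) ≤ F.chromaticNumber.toNat := by exact_mod_cast h1
  have h5 : (0 : ℝ) ≤ sigmaMin F := Nat.cast_nonneg _
  rw [chiCr, le_div_iff₀ (by linarith)]
  nlinarith

lemma bottle_lower {N k : ℕ} {part : Fin N → Fin k} (hb : IsBottle H0 part) :
    1 ≤ chiCr (multi part) := by
  obtain ⟨hk, hsurj, hb⟩ := hb
  obtain ⟨t, ht, T, hT, hcov⟩ := hb 1 (Tuple.sort part).symm (by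
    intro x y hxy
    by_contra hcon
    have := Tuple.monotone_sort part (not_lt.mp hcon)
    simp only [Function.comp_apply, Equiv.apply_symm_apply] at this
    exact absurd hxy (not_lt.mpr this))
  obtain ⟨x, -⟩ := hsurj ⟨0, hk⟩
  have h1 : toLex (x, (⟨0, ht⟩ : Fin t)) ∉ uncovered T := by rw [hcov]; exact Set.notMem_empty _
  simp only [uncovered, Set.mem_ofPred_eq, not_forall] at h1
  obtain ⟨f, hf, -⟩ := h1
  exact one_le_chiCr _ ((hT.1 f hf).2 0 2 (by decide))

lemma bottle_K3 : IsBottle H0 (id : Fin 3 → Fin 3) := by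
  refine ⟨by norm_num, Function.surjective_id, fun σ φ _ => ⟨2, by norm_num,
    {fun i => toLex (⟨i / 2, by omega⟩, ⟨i % 2, by omega⟩)}, ⟨?_, ?_⟩, ?_⟩⟩
  · rintro f rfl
    refine ⟨by decide, fun a b hab => ?_⟩
    simp only [blowUp, multi, SimpleGraph.comap_adj, id, SimpleGraph.top_adj, ne_eq,
      EmbeddingLike.apply_eq_iff_eq, ofLex_toLex]
    revert a b
    decide
  · rintro f rfl g rfl h
    exact (h rfl).elim
  · refine Set.eq_empty_of_forall_notMem fun v hv => hv _ rfl ?_
    clear hv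
    simp only [Set.mem_range]
    revert v
    decide

lemma chiCr_K3 : chiCr (multi (id : Fin 3 → Fin 3)) ≤ 3 := by
  have h0 : multi (id : Fin 3 → Fin 3) = ⊤ := by ext a b; simp [multi]
  rw [h0]
  have h1 : (⊤ : SimpleGraph (Fin 3)).chromaticNumber.toNat = 3 := by
    rw [SimpleGraph.chromaticNumber_top]; simp
  obtain ⟨c⟩ := (⊤ : SimpleGraph (Fin 3)).colorable_chromaticNumber_of_fintype
  have h2 : sigmaMin (⊤ : SimpleGraph (Fin 3)) ≤ 1 := by
    refine le_trans (Nat.sInf_le ⟨c, c 0, rfl⟩) ?_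
    refine (Set.ncard_le_one_iff_subsingleton).mpr fun a ha b hb => ?_
    by_contra hab
    exact c.valid (v := a) (w := b) hab (ha.trans hb.symm)
  have h3 : (sigmaMin (⊤ : SimpleGraph (Fin 3)) : ℝ) ≤ 1 := by exact_mod_cast h2
  rw [chiCr, h1, div_le_iff₀ (by push_cast; linarith)]
  push_cast
  linarith

lemma chiStar_bounds : 1 ≤ chiStar H0 ∧ chiStar H0 ≤ 3 := by
  constructor
  · refine le_csInf ⟨_, 3, 3, id, bottle_K3, rfl⟩ ?_
    rintro x ⟨N, k, part, hb, rfl⟩
    exact bottle_lower hb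
  · refine csInf_le_of_le ⟨1, ?_⟩ ⟨3, 3, id, bottle_K3, rfl⟩ chiCr_K3
    rintro x ⟨N, k, part, hb, rfl⟩
    exact bottle_lower hb

/-- A graph without 4-cycles and with large minimum degree. -/
lemma exists_c4free (C : ℕ) : ∃ (N m : ℕ) (D : SimpleGraph (Fin N)), C < m ∧ 2 * m ≤ N ∧
    (∀ v, m ≤ (D.neighborSet v).ncard) ∧
    ∀ a b c d, a ≠ b → c ≠ d → D.Adj a c → D.Adj a d → D.Adj b c → D.Adj b d → False := by
  obtain ⟨p, hp, hprime⟩ := Nat.exists_infinite_primes (C + 2)
  have : Fact p.Prime := ⟨hprime⟩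
  set D0 : SimpleGraph (ZMod p × ZMod p) :=
    ⟨fun x y => x ≠ y ∧ x.2 + y.2 = x.1 * y.1,
      ⟨fun x y h => ⟨h.1.symm, by rw [add_comm, mul_comm]; exact h.2⟩⟩, ⟨fun x h => h.1 rfl⟩⟩ with hD0
  have hcard : Fintype.card (ZMod p × ZMod p) = p * p := by simp
  set e := (Fintype.equivFinOfCardEq hcard).symm
  refine ⟨p * p, p - 1, D0.comap e, by omega, ?_, fun v => ?_, ?_⟩
  · have : 2 ≤ p := hprime.two_le
    have : 2 * p ≤ p * p := Nat.mul_le_mul_right p this
    omega
  · have hinj : Function.Injective fun a : ZMod p => e.symm (a, (e v).1 * a - (e v).2) := by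
      intro a b hab
      exact congrArg Prod.fst (e.symm.injective hab)
    have h1 : (Set.range fun a : ZMod p => e.symm (a, (e v).1 * a - (e v).2)) \ {v} ⊆
        (D0.comap e).neighborSet v := by
      rintro w ⟨⟨a, rfl⟩, hw⟩
      refine ⟨fun h => hw ?_, by simp⟩
      exact (e.injective h).symm
    refine le_trans ?_ (Set.ncard_le_ncard h1)
    have h2 : (Set.range fun a : ZMod p => e.symm (a, (e v).1 * a - (e v).2)).ncard = p := by
      rw [Set.ncard_range_of_injective hinj]; simp
    have h3 := Set.le_ncard_sdiff ({v} : Set (Fin (p * p)))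
      (Set.range fun a : ZMod p => e.symm (a, (e v).1 * a - (e v).2))
    rw [h2, Set.ncard_singleton] at h3
    exact h3
  · intro a b c d hab hcd h1 h2 h3 h4
    have e1 := h1.2
    have e2 := h2.2
    have e3 := h3.2
    have e4 := h4.2
    have e5 : ((e a).1 - (e b).1) * ((e c).1 - (e d).1) = 0 := by linear_combination e2 + e3 - e1 - e4
    rcases mul_eq_zero.mp e5 with h | h
    · exact hab (e.injective (Prod.ext (sub_eq_zero.mp h) (by linear_combination e1 - e3 + (e c).1 * h)))
    · exact hcd (e.injective (Prod.ext (sub_eq_zero.mp h) (by linear_combination e1 - e2 + (e a).1 * h)))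

lemma ncard_Ico (n a b : ℕ) (hb : b ≤ n) : {v : Fin n | a ≤ v.1 ∧ v.1 < b}.ncard = b - a := by
  rw [← Set.ncard_image_of_injective _ Fin.val_injective]
  have : Fin.val '' {v : Fin n | a ≤ v.1 ∧ v.1 < b} = Set.Ico a b := by
    ext x
    constructor
    · rintro ⟨v, hv, rfl⟩; exact hv
    · intro hx; exact ⟨⟨x, lt_of_lt_of_le hx.2 hb⟩, hx, rfl⟩
  rw [this]
  simp

theorem exists_bad (C : ℕ) : ∃ (n : ℕ) (G : SimpleGraph (Fin n)),
    (∀ v, 2 * n ≤ 3 * (G.neighborSet v).ncard) ∧
    ∀ T : Set (Fin 6 → Fin n), IsTiling H0 G T → C < (uncovered T).ncard := by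
  obtain ⟨N, m, D, hm, hN, hdeg, hfree⟩ := exists_c4free C
  obtain ⟨r, hNdef⟩ := Nat.exists_eq_add_of_le hN
  obtain ⟨n, hn⟩ : ∃ n, n = 3 * m + 3 * r := ⟨_, rfl⟩
  have hNn : N ≤ n := by omega
  let pt : Fin n → ℕ := fun v => if v.1 < N then 0 else if v.1 < 3 * m + 2 * r then 1 else 2
  let G : SimpleGraph (Fin n) :=
    ⟨fun x y => pt x ≠ pt y ∨ ∃ a b, D.Adj a b ∧ a.1 = x.1 ∧ b.1 = y.1,
      ⟨fun x y h => h.imp Ne.symm fun ⟨a, b, h1, h2, h3⟩ => ⟨b, a, h1.symm, h3, h2⟩⟩,
      ⟨fun x h => h.elim (fun h => h rfl) fun ⟨a, b, h1, h2, h3⟩ =>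
        h1.ne (Fin.ext (h2.trans h3.symm))⟩⟩
  refine ⟨n, G, fun v => ?_, fun T hT => ?_⟩
  · by_cases h1 : v.1 < N
    · have h2 : {w : Fin n | N ≤ w.1 ∧ w.1 < n} ∪ Fin.castLE hNn '' D.neighborSet ⟨v, h1⟩ ⊆
          G.neighborSet v := by
        rintro w (hw | ⟨u, hu, rfl⟩)
        · left
          simp only [pt, if_pos h1, if_neg (not_lt.mpr hw.1)]
          split_ifs <;> norm_num
        · right
          exact ⟨⟨v, h1⟩, u, hu, rfl, rfl⟩
      have h3 := Set.ncard_le_ncard h2
      rw [Set.ncard_union_eq (by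
        rw [Set.disjoint_left]
        rintro w hw ⟨u, -, rfl⟩
        exact absurd u.2 (not_lt.mpr hw.1)), ncard_Ico n N n le_rfl,
        Set.ncard_image_of_injective _ (Fin.castLE_injective hNn)] at h3
      have := hdeg ⟨v, h1⟩
      omega
    · by_cases h2 : v.1 < 3 * m + 2 * r
      · have h3 : {w : Fin n | 0 ≤ w.1 ∧ w.1 < N} ∪ {w : Fin n | 3 * m + 2 * r ≤ w.1 ∧ w.1 < n} ⊆
            G.neighborSet v := by
          rintro w (hw | hw)
          · left
            simp only [pt, if_neg h1, if_pos h2, if_pos hw.2]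
            norm_num
          · left
            have : ¬ w.1 < N := by have := hw.1; omega
            simp only [pt, if_neg h1, if_pos h2, if_neg this, if_neg (not_lt.mpr hw.1)]
            norm_num
        have h4 := Set.ncard_le_ncard h3
        rw [Set.ncard_union_eq (by
          rw [Set.disjoint_left]
          intro w hw hw'
          have := hw.2; have := hw'.1; omega), ncard_Ico n 0 N hNn, ncard_Ico n _ n le_rfl] at h4
        omega
      · have h3 : {w : Fin n | 0 ≤ w.1 ∧ w.1 < 3 * m + 2 * r} ⊆ G.neighborSet v := by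
          intro w hw
          left
          simp only [pt, if_neg h1, if_neg h2, if_pos hw.2]
          split_ifs <;> norm_num
        have h4 := Set.ncard_le_ncard h3
        rw [ncard_Ico n 0 _ (by omega)] at h4
        omega
  · have hlast : ∀ f ∈ T, 3 * m + 2 * r ≤ (f 4).1 := by
      intro f hf
      obtain ⟨hmono, hadj⟩ := hT.1 f hf
      have h3 : N ≤ (f 3).1 := by
        by_contra hcon
        push Not at hcon
        have hlt : ∀ i : Fin 6, i ≤ 3 → (f i).1 < N := fun i hi =>
          lt_of_le_of_lt (hmono.monotone hi) hcon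
        have key : ∀ (i j : Fin 6) (hi : i ≤ 3) (hj : j ≤ 3), H0.Adj i j →
            D.Adj ⟨f i, hlt i hi⟩ ⟨f j, hlt j hj⟩ := by
          intro i j hi hj hij
          rcases hadj i j hij with h | ⟨a, b, hab, ha, hb⟩
          · simp only [pt, if_pos (hlt i hi), if_pos (hlt j hj)] at h
            exact (h rfl).elim
          · have ea : a = ⟨f i, hlt i hi⟩ := Fin.ext ha
            have eb : b = ⟨f j, hlt j hj⟩ := Fin.ext hb
            rwa [ea, eb] at hab
        refine hfree _ _ _ _ ?_ ?_ (key 0 2 (by decide) (by decide) (by decide))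
          (key 0 3 (by decide) (by decide) (by decide)) (key 1 2 (by decide) (by decide) (by decide))
          (key 1 3 (by decide) (by decide) (by decide))
        · intro h
          exact (hmono (by decide : (0 : Fin 6) < 1)).ne (Fin.ext (Fin.mk.inj h))
        · intro h
          exact (hmono (by decide : (2 : Fin 6) < 3)).ne (Fin.ext (Fin.mk.inj h))
      have h4 : (f 3).1 < (f 4).1 := hmono (by decide)
      rcases hadj 3 4 (by decide) with h | ⟨a, b, -, ha, -⟩
      · by_contra hcon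
        push Not at hcon
        have a1 : ¬ (f 3).1 < N := by omega
        have a2 : ¬ (f 4).1 < N := by omega
        have a3 : (f 3).1 < 3 * m + 2 * r := by omega
        simp only [pt, if_neg a1, if_neg a2, if_pos a3, if_pos hcon] at h
        exact h rfl
      · have := a.2
        omega
    have hTf : T.Finite := Set.toFinite T
    have h1 : 2 * T.ncard ≤ r := by
      have hinj : Set.InjOn (fun x : (Fin 6 → Fin n) × Bool => x.1 (if x.2 then 4 else 5))
          (T ×ˢ Set.univ) := by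
        rintro ⟨f, a⟩ hf ⟨g, b⟩ hg h
        have hfg : f = g := by
          by_contra hne
          exact Set.disjoint_left.mp (hT.2 f hf.1 g hg.1 hne) ⟨_, rfl⟩ ⟨_, Eq.symm h⟩
        subst hfg
        have := (hT.1 f hf.1).1.injective h
        revert this
        cases a <;> cases b <;> simp
      have h2 := Set.ncard_le_ncard_of_injOn _ (t := {w : Fin n | 3 * m + 2 * r ≤ w.1 ∧ w.1 < n})
        (fun x hx => by
          refine ⟨(hlast x.1 hx.1).trans ((hT.1 x.1 hx.1).1.monotone ?_), Fin.is_lt _⟩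
          split_ifs <;> decide) hinj
      rw [ncard_Ico n _ n le_rfl, Set.ncard_prod] at h2
      simp only [Set.ncard_univ, Nat.card_eq_fintype_card, Fintype.card_bool] at h2
      omega
    have h2 : (uncovered T)ᶜ.ncard ≤ T.ncard * 6 := by
      have h3 : (uncovered T)ᶜ ⊆ (fun x : (Fin 6 → Fin n) × Fin 6 => x.1 x.2) '' (T ×ˢ Set.univ) := by
        intro v hv
        simp only [uncovered, Set.mem_compl_iff, Set.mem_ofPred_eq, not_forall, not_not] at hv
        obtain ⟨f, hf, i, rfl⟩ := hv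
        exact ⟨(f, i), ⟨hf, Set.mem_univ _⟩, rfl⟩
      refine (Set.ncard_le_ncard h3).trans (le_trans Set.ncard_image_le ?_)
      rw [Set.ncard_prod]
      simp
    have h3 := Set.ncard_add_ncard_compl (uncovered T)
    simp only [Nat.card_eq_fintype_card, Fintype.card_fin] at h3
    omega

end Pool.Agent.H564Z.OT
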