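import Mathlib

set_option autoImplicit false
set_option linter.unusedSectionVars false
set_option linter.unusedVariables false

namespace Pool.Agent.H564Z.SO

open Matrix Filter Topology

variable {V : Type} [Fintype V] [DecidableEq V]

/-- entrywise derivative at `0` -/
def D (s : ℝ → Matrix V V ℝ) (v : Matrix V V ℝ) : Prop :=
  ∀ i j, HasDerivAt (fun t => s t i j) (v i j) 0

lemma D.const (A : Matrix V V ℝ) : D (fun _ => A) 0 := fun i j => hasDerivAt_const _ _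

lemma D.mul {s r : ℝ → Matrix V V ℝ} {v w : Matrix V V ℝ} (hs : D s v) (hr : D r w) :
    D (fun t => s t * r t) (v * r 0 + s 0 * w) := by
  intro i j
  simp only [Matrix.mul_apply, Matrix.add_apply, ← Finset.sum_add_distrib]
  exact HasDerivAt.fun_sum fun k _ => (hs i k).fun_mul (hr k j)

lemma D.transpose {s : ℝ → Matrix V V ℝ} {v : Matrix V V ℝ} (hs : D s v) :
    D (fun t => (s t)ᵀ) vᵀ := fun i j => hs j i

noncomputable def refl (v : V → ℝ) : Matrix V V ℝ := 1 - (2 / (v ⬝ᵥ v)) • vecMulVec v v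

lemma refl_transpose (v : V → ℝ) : (refl v)ᵀ = refl v := by
  simp [refl, transpose_sub, transpose_smul, transpose_vecMulVec]

lemma refl_mulVec (v w : V → ℝ) : refl v *ᵥ w = w - (2 / (v ⬝ᵥ v) * (v ⬝ᵥ w)) • v := by
  simp [refl, sub_mulVec, smul_mulVec, vecMulVec_mulVec, smul_smul]

lemma refl_mul_self {v : V → ℝ} (hv : v ⬝ᵥ v ≠ 0) : refl v * refl v = 1 := by
  simp only [refl, Matrix.sub_mul, Matrix.mul_sub, Matrix.one_mul, Matrix.mul_one, Matrix.smul_mul,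
    Matrix.mul_smul, vecMulVec_mul_vecMulVec, vecMulVec_smul, smul_smul]
  have : 2 / (v ⬝ᵥ v) * (2 / (v ⬝ᵥ v) * (v ⬝ᵥ v)) = 2 / (v ⬝ᵥ v) + 2 / (v ⬝ᵥ v) := by
    field_simp; ring
  rw [smul_sub, smul_smul, this, add_smul]
  abel

lemma det_refl {v : V → ℝ} (hv : v ⬝ᵥ v ≠ 0) : (refl v).det = -1 := by
  have : refl v = 1 + replicateCol Unit ((-(2 / (v ⬝ᵥ v))) • v) * replicateRow Unit v := by
    rw [← vecMulVec_eq, smul_vecMulVec, refl, neg_smul, sub_eq_add_neg]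
  rw [this, det_one_add_replicateCol_mul_replicateRow, dotProduct_smul, smul_eq_mul]
  field_simp
  ring

lemma mem_SO {A : Matrix V V ℝ} : A ∈ specialOrthogonalGroup V ℝ ↔ A * Aᵀ = 1 ∧ A.det = 1 := by
  rw [mem_specialOrthogonalGroup_iff, mem_orthogonalGroup_iff]

lemma refl_refl_mem {v w : V → ℝ} (hv : v ⬝ᵥ v ≠ 0) (hw : w ⬝ᵥ w ≠ 0) :
    refl v * refl w ∈ specialOrthogonalGroup V ℝ := by
  rw [mem_SO, transpose_mul, refl_transpose, refl_transpose, det_mul, det_refl hv, det_refl hw,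
    Matrix.mul_assoc, ← Matrix.mul_assoc (refl w), refl_mul_self hw, Matrix.one_mul,
    refl_mul_self hv]
  simp

lemma transpose_mem {A : Matrix V V ℝ} (h : A ∈ specialOrthogonalGroup V ℝ) :
    Aᵀ ∈ specialOrthogonalGroup V ℝ := by
  rw [mem_SO] at *
  exact ⟨by rw [transpose_transpose]; exact mul_eq_one_comm.mp h.1, by rw [det_transpose, h.2]⟩

lemma conj_vecMulVec (h : Matrix V V ℝ) (a b : V → ℝ) :
    h * vecMulVec a b * hᵀ = vecMulVec (h *ᵥ a) (h *ᵥ b) := by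
  rw [mul_vecMulVec, vecMulVec_mul, vecMul_transpose]

lemma refl_comm {g : Matrix V V ℝ} (hg : g * gᵀ = 1) {v : V → ℝ} (hv : g *ᵥ v = v) :
    refl v * g = g * refl v := by
  have h1 : g * refl v * gᵀ = refl v := by
    rw [refl, Matrix.mul_sub, Matrix.sub_mul, Matrix.mul_one, hg, Matrix.mul_smul, Matrix.smul_mul,
      conj_vecMulVec, hv]
  rw [← h1, Matrix.mul_assoc, mul_eq_one_comm.mp hg, Matrix.mul_one, h1]

def XX (e w : V → ℝ) : Matrix V V ℝ := vecMulVec w e - vecMulVec e w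

lemma conj_XX (h : Matrix V V ℝ) (e w : V → ℝ) : h * XX e w * hᵀ = XX (h *ᵥ e) (h *ᵥ w) := by
  rw [XX, Matrix.mul_sub, Matrix.sub_mul, conj_vecMulVec, conj_vecMulVec, XX]

lemma mul_XX {g : Matrix V V ℝ} (hg : g * gᵀ = 1) {e : V → ℝ} (he : g *ᵥ e = e) (w : V → ℝ) :
    g * XX e w = XX e (g *ᵥ w) * g := by
  have := conj_XX g e w
  rw [he] at this
  rw [← this, Matrix.mul_assoc, mul_eq_one_comm.mp hg, Matrix.mul_one]

lemma XX_transpose (e w : V → ℝ) : (XX e w)ᵀ = -XX e w := by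
  simp [XX, transpose_sub, transpose_vecMulVec]

lemma XX_add (e a b : V → ℝ) : XX e (a + b) = XX e a + XX e b := by
  ext i j; simp [XX, vecMulVec_apply]; ring

lemma XX_neg (e a : V → ℝ) : XX e (-a) = -XX e a := by
  ext i j; simp [XX, vecMulVec_apply]; ring

lemma XX_zero (e : V → ℝ) : XX e 0 = 0 := by
  ext i j; simp [XX, vecMulVec_apply]

noncomputable def rot (e u : V → ℝ) (t : ℝ) : Matrix V V ℝ := refl (e + t • u) * refl e

lemma rot_zero {e : V → ℝ} (he : e ⬝ᵥ e ≠ 0) (u : V → ℝ) : rot e u 0 = 1 := by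
  simp [rot, refl_mul_self he]

lemma dot_deriv (e u : V → ℝ) :
    HasDerivAt (fun t : ℝ => (e + t • u) ⬝ᵥ (e + t • u)) (2 * (e ⬝ᵥ u)) 0 := by
  have e1 : (fun t : ℝ => (e + t • u) ⬝ᵥ (e + t • u)) =
      fun t => e ⬝ᵥ e + t * (2 * (e ⬝ᵥ u)) + t * t * (u ⬝ᵥ u) := by
    funext t
    simp only [add_dotProduct, dotProduct_add, smul_dotProduct, dotProduct_smul, smul_eq_mul,
      dotProduct_comm u e]
    ring
  rw [e1]
  have h1 := ((hasDerivAt_const (0 : ℝ) (e ⬝ᵥ e)).fun_add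
    ((hasDerivAt_id' (0 : ℝ)).mul_const (2 * (e ⬝ᵥ u)))).fun_add
    (((hasDerivAt_id' (0 : ℝ)).fun_mul (hasDerivAt_id' (0 : ℝ))).mul_const (u ⬝ᵥ u))
  simpa using h1

lemma rot_mem {e : V → ℝ} (he : e ⬝ᵥ e ≠ 0) (u : V → ℝ) :
    ∀ᶠ t in 𝓝 (0 : ℝ), rot e u t ∈ specialOrthogonalGroup V ℝ := by
  have h1 := (dot_deriv e u).continuousAt.eventually_ne (y := 0) (by simpa using he)
  exact h1.mono fun t ht => refl_refl_mem ht he

lemma D_rot {e : V → ℝ} (he : e ⬝ᵥ e ≠ 0) (u : V → ℝ) :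
    D (rot e u) (XX e ((2 / (e ⬝ᵥ e)) • u)) := by
  have h1 : D (fun t => refl (e + t • u))
      (-((2 / (e ⬝ᵥ e)) • (vecMulVec u e + vecMulVec e u)) +
        (4 * (e ⬝ᵥ u) / (e ⬝ᵥ e) ^ 2) • vecMulVec e e) := by
    intro i j
    have a1 : ∀ k, HasDerivAt (fun t : ℝ => (e + t • u) k) (u k) 0 := fun k => by
      simpa using ((hasDerivAt_id' (0 : ℝ)).mul_const (u k)).const_add (e k)
    have a2 := ((hasDerivAt_const (0 : ℝ) (2 : ℝ)).fun_div (dot_deriv e u) (by simpa using he)).fun_mul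
      ((a1 i).fun_mul (a1 j))
    have a3 := a2.const_sub ((1 : Matrix V V ℝ) i j)
    refine HasDerivAt.congr_deriv a3 ?_
    simp only [zero_smul, add_zero, Matrix.add_apply, Matrix.neg_apply, Matrix.smul_apply,
      vecMulVec_apply, smul_eq_mul]
    field_simp
    ring
  have h2 := h1.mul (D.const (refl e))
  have e1 : (-((2 / (e ⬝ᵥ e)) • (vecMulVec u e + vecMulVec e u)) +
        (4 * (e ⬝ᵥ u) / (e ⬝ᵥ e) ^ 2) • vecMulVec e e) * refl e + refl (e + (0 : ℝ) • u) * 0 =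
      XX e ((2 / (e ⬝ᵥ e)) • u) := by
    have b1 : ∀ a b : V → ℝ, vecMulVec a b * refl e = vecMulVec a (refl e *ᵥ b) := fun a b => by
      rw [vecMulVec_mul, ← vecMul_transpose, refl_transpose]
    simp only [Matrix.mul_zero, add_zero, Matrix.add_mul, Matrix.neg_mul, Matrix.smul_mul, b1,
      refl_mulVec]
    ext i j
    simp only [XX, Matrix.add_apply, Matrix.neg_apply, Matrix.smul_apply, Matrix.sub_apply,
      vecMulVec_apply, smul_eq_mul, Pi.sub_apply, Pi.smul_apply]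
    field_simp
    ring
  rw [e1] at h2
  exact h2

lemma chain {f : (V → V → ℝ) → ℝ} {L : (V → V → ℝ) →L[ℝ] ℝ} {s : ℝ → Matrix V V ℝ}
    {v : Matrix V V ℝ}
    (hf : HasFDerivWithinAt f L {A | Matrix.of A ∈ specialOrthogonalGroup V ℝ} (s 0))
    (hs : D s v) (hG : ∀ᶠ t in 𝓝 (0 : ℝ), s t ∈ specialOrthogonalGroup V ℝ) :
    HasDerivAt (fun t => f (s t)) (L v) 0 := by
  have h1 : HasDerivAt (F := V → V → ℝ) s v 0 :=
    hasDerivAt_pi.mpr fun i => hasDerivAt_pi.mpr fun j => hs i j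
  exact hf.comp_hasDerivAt 0 h1 hG

theorem kill {f : (V → V → ℝ) → ℝ} {L : (V → V → ℝ) →L[ℝ] ℝ} {g : Matrix V V ℝ}
    (hg : g ∈ specialOrthogonalGroup V ℝ)
    (hf : HasFDerivWithinAt f L {A | Matrix.of A ∈ specialOrthogonalGroup V ℝ} g)
    (hconj : ∀ h k : Matrix V V ℝ, h ∈ specialOrthogonalGroup V ℝ →
      k ∈ specialOrthogonalGroup V ℝ → f (h * k * hᵀ : Matrix V V ℝ) = f k)
    {e : V → ℝ} (he : e ⬝ᵥ e ≠ 0) (hge : g *ᵥ e = e)
    (hfix : ∀ w0, ∃ w', w' ⬝ᵥ w' ≠ 0 ∧ g *ᵥ w' = w' ∧ w' ⬝ᵥ e = 0 ∧ w' ⬝ᵥ w0 = 0)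
    (w : V → ℝ) : L (XX e w * g : Matrix V V ℝ) = 0 := by
  have hgg := (mem_SO.mp hg).1
  obtain ⟨w0, rfl⟩ : ∃ w0, w = (2 / (e ⬝ᵥ e)) • w0 :=
    ⟨((e ⬝ᵥ e) / 2) • w, by rw [smul_smul, div_mul_div_comm, mul_comm, div_self (by simpa using he),
      one_smul]⟩
  obtain ⟨w', h1, h2, h3, h4⟩ := hfix w0
  obtain ⟨h, hh⟩ : ∃ h, h = refl e * refl w' := ⟨_, rfl⟩
  have hhm : h ∈ specialOrthogonalGroup V ℝ := hh ▸ refl_refl_mem he h1
  have hhg : h * g = g * h := by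
    rw [hh, Matrix.mul_assoc, refl_comm hgg h2, ← Matrix.mul_assoc, refl_comm hgg hge,
      Matrix.mul_assoc]
  have hhg' : h * g * hᵀ = g := by rw [hhg, Matrix.mul_assoc, (mem_SO.mp hhm).1, Matrix.mul_one]
  have a1 := (D_rot he w0).mul (D.const g)
  have a2 := ((D.const h).mul a1).mul (D.const hᵀ)
  have m1 : ∀ᶠ t in 𝓝 (0 : ℝ), rot e w0 t * g ∈ specialOrthogonalGroup V ℝ :=
    (rot_mem he w0).mono fun t ht => Submonoid.mul_mem _ ht hg
  have b1 := chain (f := f) (L := L) (by simpa [rot_zero he] using hf) a1 m1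
  have b2 := chain (f := f) (L := L) (by simpa [rot_zero he, hhg'] using hf) a2
    (m1.mono fun t ht => Submonoid.mul_mem _ (Submonoid.mul_mem _ hhm ht) (transpose_mem hhm))
  have b3 := b2.unique (b1.congr_of_eventuallyEq (m1.mono fun t ht => hconj _ _ hhm ht))
  have c1 : h *ᵥ e = -e := by
    rw [hh, ← mulVec_mulVec, refl_mulVec w', h3, mul_zero, zero_smul, sub_zero, refl_mulVec,
      div_mul_cancel₀ _ he, two_smul]
    abel
  have c2 : h *ᵥ w0 = w0 - (2 / (e ⬝ᵥ e) * (e ⬝ᵥ w0)) • e := by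
    rw [hh, ← mulVec_mulVec, refl_mulVec w', h4, mul_zero, zero_smul, sub_zero, refl_mulVec]
  have c3 : h * XX e ((2 / (e ⬝ᵥ e)) • w0) * hᵀ = -XX e ((2 / (e ⬝ᵥ e)) • w0) := by
    rw [conj_XX, mulVec_smul, c1, c2]
    ext i j
    simp only [XX, Matrix.neg_apply, Matrix.sub_apply, vecMulVec_apply, smul_eq_mul,
      Pi.sub_apply, Pi.smul_apply, Pi.neg_apply]
    ring
  have c4 : g * hᵀ = hᵀ * g := by
    rw [← hhg', ← Matrix.mul_assoc, ← Matrix.mul_assoc, mul_eq_one_comm.mp (mem_SO.mp hhm).1,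
      Matrix.one_mul, hhg']
  have e1 : ((0 * (rot e w0 0 * g) + h * (XX e ((2 / (e ⬝ᵥ e)) • w0) * g + rot e w0 0 * 0)) * hᵀ +
      h * (rot e w0 0 * g) * 0) = -(XX e ((2 / (e ⬝ᵥ e)) • w0) * g) := by
    simp only [Matrix.zero_mul, Matrix.mul_zero, add_zero, zero_add]
    rw [← Matrix.neg_mul, ← c3, Matrix.mul_assoc, Matrix.mul_assoc, c4]
    simp only [Matrix.mul_assoc]
  rw [e1, Matrix.mul_zero, add_zero] at b3
  have b4 : L (-(XX e ((2 / (e ⬝ᵥ e)) • w0) * g) : Matrix V V ℝ) =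
      -L (XX e ((2 / (e ⬝ᵥ e)) • w0) * g : Matrix V V ℝ) := map_neg L _
  linarith

end Pool.Agent.H564Z.SO
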