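import Mathlib

set_option autoImplicit false

namespace Pool.Agent.H564Z.SO

/-- The fundamental group of the closed orientable surface of genus `g`: generators
`a i = (i, false)`, `b i = (i, true)` and the single relation `[a 1, b 1] ⋯ [a g, b g] = 1`. -/
abbrev SurfaceGroup (g : ℕ) : Type :=
  PresentedGroup ({(List.ofFn fun i : Fin g =>
    FreeGroup.of (i, false) * FreeGroup.of (i, true) * (FreeGroup.of (i, false))⁻¹ *
      (FreeGroup.of (i, true))⁻¹).prod} : Set (FreeGroup (Fin g × Bool)))

/-- The compact group `SO(16)`. -/
abbrev SO16 : Type := Matrix.specialOrthogonalGroup (Fin 16) ℝ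

end Pool.Agent.H564Z.SO
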