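import Pool.Agent.H564Z.SOCalc

set_option autoImplicit false
set_option linter.unusedVariables false
set_option synthInstance.maxSize 100000

namespace Pool.Agent.H564Z.SO

open Matrix Equiv

def m4 (a b : ℕ) : ℕ := (2625168384 >>> (8 * a + 2 * b)) % 4

def af (a b c d u v x : ℕ) : ℕ :=
  4 * (m4 a (x / 4) ^^^ m4 b (x % 4) ^^^ u) + (m4 c (x / 4) ^^^ m4 d (x % 4) ^^^ v)

def Step (a' b' c' d' u' v' : ℕ) : Prop :=
  ∀ a < 4, ∀ b < 4, ∀ c < 4, ∀ d < 4, m4 a d ^^^ m4 b c = 1 → ∀ u < 4, ∀ v < 4,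
    (m4 a' a ^^^ m4 b' c < 4 ∧ m4 a' b ^^^ m4 b' d < 4 ∧ m4 c' a ^^^ m4 d' c < 4 ∧
      m4 c' b ^^^ m4 d' d < 4 ∧ m4 a' u ^^^ m4 b' v ^^^ u' < 4 ∧ m4 c' u ^^^ m4 d' v ^^^ v' < 4 ∧
      m4 (m4 a' a ^^^ m4 b' c) (m4 c' b ^^^ m4 d' d) ^^^
        m4 (m4 a' b ^^^ m4 b' d) (m4 c' a ^^^ m4 d' c) = 1) ∧
    ∀ x < 16, af a' b' c' d' u' v' (af a b c d u v x) =
      af (m4 a' a ^^^ m4 b' c) (m4 a' b ^^^ m4 b' d) (m4 c' a ^^^ m4 d' c) (m4 c' b ^^^ m4 d' d)
        (m4 a' u ^^^ m4 b' v ^^^ u') (m4 c' u ^^^ m4 d' v ^^^ v') x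

def IsAff (p : Perm (Fin 16)) : Prop :=
  ∃ a b c d u v : ℕ, (a < 4 ∧ b < 4 ∧ c < 4 ∧ d < 4 ∧ u < 4 ∧ v < 4 ∧ m4 a d ^^^ m4 b c = 1) ∧
    ∀ x : Fin 16, (p x).1 = af a b c d u v x.1

lemma IsAff.mul {a' b' c' d' u' v' : ℕ} (hs : Step a' b' c' d' u' v') {q p : Perm (Fin 16)}
    (hq : ∀ x : Fin 16, (q x).1 = af a' b' c' d' u' v' x.1) (hp : IsAff p) : IsAff (q * p) := by
  obtain ⟨a, b, c, d, u, v, ⟨ha, hb, hc, hd, hu, hv, hdet⟩, hx⟩ := hp
  obtain ⟨h1, h2⟩ := hs a ha b hb c hc d hd hdet u hu v hv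
  exact ⟨_, _, _, _, _, _, h1, fun x => by rw [Perm.mul_apply, hq, hx, h2 _ x.2]⟩

lemma step1 : Step 0 1 1 2 0 0 := by unfold Step; decide +kernel
lemma step1' : Step 2 1 1 0 0 0 := by unfold Step; decide +kernel
lemma step2 : Step 3 3 1 3 1 0 := by unfold Step; decide +kernel
lemma step2' : Step 3 3 1 3 3 1 := by unfold Step; decide +kernel

lemma ord_aff : ∀ a < 4, ∀ b < 4, ∀ c < 4, ∀ d < 4, m4 a d ^^^ m4 b c = 1 → ∀ u < 4, ∀ v < 4,
    (∀ x < 16, (af a b c d u v)^[3] x = x) ∨ (∀ x < 16, (af a b c d u v)^[4] x = x) ∨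
      (∀ x < 16, (af a b c d u v)^[5] x = x) := by decide +kernel

def p1 : Perm (Fin 16) :=
  ⟨![0, 6, 11, 13, 1, 7, 10, 12, 2, 4, 9, 15, 3, 5, 8, 14], ![0, 4, 8, 12, 9, 13, 1, 5, 14, 10, 6, 2, 7, 3, 15, 11], by decide, by decide⟩

def p2 : Perm (Fin 16) :=
  ⟨![4, 11, 1, 14, 9, 6, 12, 3, 2, 13, 7, 8, 15, 0, 10, 5], ![13, 2, 8, 7, 0, 15, 5, 10, 11, 4, 14, 1, 6, 9, 3, 12], by decide, by decide⟩

lemma isAff_of_mem {p : Perm (Fin 16)} (hp : p ∈ Subgroup.closure ({p1, p2} : Set _)) :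
    IsAff p := by
  induction hp using Subgroup.closure_induction_left with
  | one => exact ⟨1, 0, 0, 1, 0, 0, by decide, by decide⟩
  | mul_left x hx y _ ih =>
    rcases hx with rfl | rfl
    · exact ih.mul step1 (by decide)
    · exact ih.mul step2 (by decide)
  | inv_mul_cancel x hx y _ ih =>
    rcases hx with rfl | rfl
    · exact ih.mul step1' (by decide)
    · exact ih.mul step2' (by decide)

lemma orderOf_le {p : Perm (Fin 16)} (hp : IsAff p) : orderOf p ≤ 5 := by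
  obtain ⟨a, b, c, d, u, v, ⟨ha, hb, hc, hd, hu, hv, hdet⟩, hx⟩ := hp
  have h1 : ∀ (k : ℕ) (x : Fin 16), ((p ^ k) x).1 = (af a b c d u v)^[k] x.1 := by
    intro k x
    induction k with
    | zero => rfl
    | succ k ih => rw [pow_succ', Perm.mul_apply, hx, ih, Function.iterate_succ_apply']
  have h2 : ∀ k : ℕ, 0 < k → (∀ x < 16, (af a b c d u v)^[k] x = x) → orderOf p ≤ k :=
    fun k hk h => orderOf_le_of_pow_eq_one hk (Equiv.ext fun x => Fin.ext (by
      rw [h1, h _ x.2]; rfl))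
  rcases ord_aff a ha b hb c hc d hd hdet u hu v hv with h | h | h
  · exact (h2 3 (by norm_num) h).trans (by norm_num)
  · exact (h2 4 (by norm_num) h).trans (by norm_num)
  · exact h2 5 (by norm_num) h

lemma exists_fixed {p : Perm (Fin 16)} (hp : orderOf p ≤ 5) (e w0 : Fin 16 → ℝ) :
    ∃ w' : Fin 16 → ℝ, w' ⬝ᵥ w' ≠ 0 ∧ p.permMatrix ℝ *ᵥ w' = w' ∧ w' ⬝ᵥ e = 0 ∧ w' ⬝ᵥ w0 = 0 := by
  classical
  set O : Fin 16 → Finset (Fin 16) := fun x => Finset.univ.filter fun y => p.SameCycle x y with hO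
  have h1 : ∀ x, (O x).card ≤ 5 := by
    intro x
    have : O x ⊆ (Finset.range (orderOf p)).image fun i => (p ^ i) x := by
      intro y hy
      obtain ⟨i, hi, rfl⟩ := (Finset.mem_filter.mp hy).2.exists_pow_eq'
      exact Finset.mem_image.mpr ⟨i, Finset.mem_range.mpr hi, rfl⟩
    exact (Finset.card_le_card this).trans (Finset.card_image_le.trans (by simpa using hp))
  have h2 : ∀ S : Finset (Fin 16), S.card < 16 → ∃ y, y ∉ S := by
    intro S hS
    by_contra hcon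
    push Not at hcon
    rw [Finset.eq_univ_of_forall hcon] at hS
    simp at hS
  obtain ⟨x1, hx1⟩ := h2 (O 0) ((h1 0).trans_lt (by norm_num))
  obtain ⟨x2, hx2⟩ := h2 (O 0 ∪ O x1) ((Finset.card_union_le _ _).trans_lt (by
    have := h1 0; have := h1 x1; omega))
  simp only [hO, Finset.mem_union, Finset.mem_filter, Finset.mem_univ, true_and, not_or] at hx1 hx2
  let x : Fin 3 → Fin 16 := ![0, x1, x2]
  have hx : ∀ i j, p.SameCycle (x i) (x j) ↔ i = j := by
    intro i j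
    refine ⟨fun h => ?_, fun h => h ▸ Perm.SameCycle.refl _ _⟩
    fin_cases i <;> fin_cases j <;>
      first | rfl | exact absurd h hx1 | exact absurd h hx2.1 | exact absurd h hx2.2 | exact absurd h.symm hx1 | exact absurd h.symm hx2.1 | exact absurd h.symm hx2.2
  let B : Matrix (Fin 16) (Fin 3) ℝ := fun y i => if p.SameCycle (x i) y then 1 else 0
  let Φ : (Fin 3 → ℝ) →ₗ[ℝ] (Fin 2 → ℝ) := (Matrix.of ![e, w0] * B).mulVecLin
  obtain ⟨α, hα, hα0⟩ := (Submodule.ne_bot_iff _).mp (Φ.ker_ne_bot_of_finrank_lt (by simp))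
  have h3 : Matrix.of ![e, w0] *ᵥ (B *ᵥ α) = 0 := by rw [mulVec_mulVec]; exact hα
  refine ⟨B *ᵥ α, fun h => hα0 ?_, ?_, ?_, ?_⟩
  · rw [dotProduct_self_eq_zero] at h
    funext j
    have := congrFun h (x j)
    simpa [B, mulVec, dotProduct, hx] using this
  · rw [permMatrix_mulVec]
    funext y
    simp [B, mulVec, dotProduct]
  · rw [dotProduct_comm]; exact congrFun h3 0
  · rw [dotProduct_comm]; exact congrFun h3 1

def rk : Fin 16 → Fin 16 → ℕ := fun i j =>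
  (62118251945699503896303451933285938675245169500712549316965635033548479390364254191728560982696159997496222293857093122068446314337950712920759919287772492252561710446900435076804492591437907434434647066019989576185629027362525805671246033706176587419715850352732412887665538866757708046091607641739058312960 >>> (4 * (16 * i.1 + j.1))) % 16

lemma rk_step : ∀ i j : Fin 16, (i = 0 ∧ j = 0) ∨ (i = 0 ∧ j = 1) ∨ rk (p1 i) (p1 j) < rk i j ∨
    rk (p2 i) (p2 j) < rk i j := by decide +kernel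

lemma commutant {h : Matrix (Fin 16) (Fin 16) ℝ} (h1 : h * p1.permMatrix ℝ = p1.permMatrix ℝ * h)
    (h2 : h * p2.permMatrix ℝ = p2.permMatrix ℝ * h) (i j : Fin 16) :
    h i j = if i = j then h 0 0 else h 0 1 := by
  have key : ∀ p : Perm (Fin 16), h * p.permMatrix ℝ = p.permMatrix ℝ * h →
      ∀ i j, h (p i) (p j) = h i j := by
    intro p hp i j
    have := congrFun (congrFun hp i) (p j)
    rw [Perm.permMatrix, PEquiv.toMatrix_toPEquiv_mul, PEquiv.mul_toMatrix_toPEquiv] at this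
    simpa using this.symm
  induction hn : rk i j using Nat.strong_induction_on generalizing i j with
  | _ n ih =>
    rcases rk_step i j with ⟨rfl, rfl⟩ | ⟨rfl, rfl⟩ | h3 | h3
    · simp
    · simp
    · rw [← key p1 h1 i j, ih _ (hn ▸ h3) _ _ rfl]; simp
    · rw [← key p2 h2 i j, ih _ (hn ▸ h3) _ _ rfl]; simp

lemma central {h : Matrix (Fin 16) (Fin 16) ℝ} (hh : h ∈ specialOrthogonalGroup (Fin 16) ℝ)
    (h1 : h * p1.permMatrix ℝ = p1.permMatrix ℝ * h)
    (h2 : h * p2.permMatrix ℝ = p2.permMatrix ℝ * h) : h = 1 ∨ h = -1 := by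
  have h3 := commutant h1 h2
  obtain ⟨a, ha⟩ : ∃ a, a = h 0 0 := ⟨_, rfl⟩
  obtain ⟨b, hb⟩ : ∃ b, b = h 0 1 := ⟨_, rfl⟩
  rw [← ha, ← hb] at h3
  obtain ⟨h4, h5⟩ := mem_SO.mp hh
  have e1 := congrFun (congrFun h4 0) 0
  have e2 := congrFun (congrFun h4 0) 1
  simp only [Matrix.mul_apply, transpose_apply, h3, Fin.sum_univ_succ] at e1 e2
  simp at e1 e2
  have hd := det_refl (v := fun _ : Fin 16 => (1 : ℝ)) (by simp [dotProduct])
  have hr : ∀ i j, refl (fun _ : Fin 16 => (1 : ℝ)) i j = if i = j then 7 / 8 else -(1 / 8) := by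
    intro i j
    simp only [refl, Matrix.sub_apply, Matrix.smul_apply, vecMulVec_apply, Matrix.one_apply,
      dotProduct]
    split_ifs <;> norm_num
  have e3 : b * (a + 7 * b) = 0 := by linarith
  rcases mul_eq_zero.mp e3 with hb0 | hb0
  · have e4 : (a - 1) * (a + 1) = 0 := by rw [hb0] at e1; linarith
    rcases mul_eq_zero.mp e4 with h6 | h6
    · left; ext i j; rw [h3, Matrix.one_apply]; split_ifs <;> linarith
    · right; ext i j; rw [h3, Matrix.neg_apply, Matrix.one_apply]; split_ifs <;> linarith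
  · exfalso
    have e5 : a = -7 * b := by linarith
    have e4 : (b - 1 / 8) * (b + 1 / 8) = 0 := by rw [e5] at e1; linarith
    rcases mul_eq_zero.mp e4 with h6 | h6
    · have : h = -refl (fun _ : Fin 16 => (1 : ℝ)) := by
        ext i j; rw [h3, Matrix.neg_apply, hr]; split_ifs <;> linarith
      rw [this, det_neg, hd] at h5
      norm_num at h5
    · have : h = refl (fun _ : Fin 16 => (1 : ℝ)) := by
        ext i j; rw [h3, hr]; split_ifs <;> linarith
      rw [this, hd] at h5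
      norm_num at h5

end Pool.Agent.H564Z.SO
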