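import Pool.Agent.H564Z.SODefs
import Pool.Agent.H564Z.SOGroup

set_option autoImplicit false
set_option linter.unusedVariables false

namespace Pool.Agent.H564Z.SO

open Matrix Equiv Filter Topology

def ee : Fin 16 → ℝ := fun _ => 1

def uu : Fin 16 → ℝ := fun i => if i = 0 then 15 else -1

lemma ee_ee : ee ⬝ᵥ ee = 16 := by simp [ee, dotProduct]

lemma ee_uu : ee ⬝ᵥ uu = 0 := by
  simp [ee, uu, dotProduct, Fin.sum_univ_succ]

lemma rot_mem' (t : ℝ) : rot ee uu t ∈ specialOrthogonalGroup (Fin 16) ℝ := by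
  refine refl_refl_mem ?_ (by rw [ee_ee]; norm_num)
  intro h
  rw [dotProduct_self_eq_zero] at h
  have := congrArg (fun v => ee ⬝ᵥ v) h
  simp [dotProduct_add, dotProduct_smul, ee_ee, ee_uu] at this

lemma perm_orth (p : Perm (Fin 16)) : p.permMatrix ℝ * (p.permMatrix ℝ)ᵀ = 1 := by
  rw [transpose_permMatrix, ← permMatrix_mul, inv_mul_cancel, permMatrix_one]

lemma perm_mem {p : Perm (Fin 16)} (hp : Perm.sign p = 1) :
    p.permMatrix ℝ ∈ specialOrthogonalGroup (Fin 16) ℝ := by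
  rw [mem_SO, det_permutation, hp]
  exact ⟨perm_orth p, by simp⟩

lemma sign_p1 : Perm.sign p1 = 1 := by decide +kernel
lemma sign_p2 : Perm.sign p2 = 1 := by decide +kernel

lemma perm_ee (p : Perm (Fin 16)) : p.permMatrix ℝ *ᵥ ee = ee := by
  rw [permMatrix_mulVec]; rfl

noncomputable def gen (g : ℕ) (t : ℝ) (x : Fin g × Bool) : SO16 :=
  if x.2 then 1 else if x.1.1 = 0 then ⟨rot ee uu t, rot_mem' t⟩ * ⟨_, perm_mem sign_p1⟩
    else if x.1.1 = 1 then ⟨_, perm_mem sign_p2⟩ else 1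

noncomputable def rep (g : ℕ) (t : ℝ) : SurfaceGroup g →* SO16 :=
  PresentedGroup.toGroup (f := gen g t) (by
    rintro r rfl
    rw [map_list_prod]
    refine List.prod_eq_one fun x hx => ?_
    simp only [List.map_ofFn, List.mem_ofFn, Function.comp_apply] at hx
    obtain ⟨i, rfl⟩ := hx
    simp [gen])

lemma rep_of (g : ℕ) (t : ℝ) (x : Fin g × Bool) : rep g t (PresentedGroup.of x) = gen g t x :=
  PresentedGroup.toGroup.of _

def Good (g : ℕ) (γ : SurfaceGroup g) : Prop :=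
  (∃ p ∈ Subgroup.closure ({p1, p2} : Set (Perm (Fin 16))),
    (rep g 0 γ).1 = p.permMatrix ℝ) ∧
    ∃ w, D (fun t => (rep g t γ).1) (XX ee w * (rep g 0 γ).1)

lemma good_const (g : ℕ) (γ : SurfaceGroup g) {p : Perm (Fin 16)}
    (hp : p ∈ Subgroup.closure ({p1, p2} : Set (Perm (Fin 16))))
    (h : ∀ t, (rep g t γ).1 = p.permMatrix ℝ) : Good g γ := by
  refine ⟨⟨p, hp, h 0⟩, 0, ?_⟩
  simp only [h, XX_zero, Matrix.zero_mul]
  exact D.const _

lemma D_a1 {g : ℕ} (i : Fin g) (hi : i.1 = 0) :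
    (rep g 0 (PresentedGroup.of (i, false))).1 = p1.permMatrix ℝ ∧
    D (fun t => (rep g t (PresentedGroup.of (i, false))).1)
      (XX ee ((2 / (ee ⬝ᵥ ee)) • uu) * p1.permMatrix ℝ) := by
  have h1 : ∀ t, (rep g t (PresentedGroup.of (i, false))).1 = rot ee uu t * p1.permMatrix ℝ := by
    intro t; rw [rep_of]; simp [gen, hi]
  have he : ee ⬝ᵥ ee ≠ 0 := by rw [ee_ee]; norm_num
  refine ⟨by rw [h1, rot_zero he, Matrix.one_mul], ?_⟩
  simp only [h1]
  simpa using (D_rot he uu).mul (D.const (p1.permMatrix ℝ))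

lemma good (g : ℕ) (γ : SurfaceGroup g) : Good g γ := by
  have hγ : γ ∈ Subgroup.closure (Set.range PresentedGroup.of) := by
    rw [PresentedGroup.closure_range_of]; trivial
  induction hγ using Subgroup.closure_induction with
  | mem x hx =>
    obtain ⟨⟨i, b⟩, rfl⟩ := hx
    cases b
    · by_cases h0 : i.1 = 0
      · obtain ⟨h1, h2⟩ := D_a1 i h0
        exact ⟨⟨p1, Subgroup.subset_closure (by simp), h1⟩, _, by rw [h1]; exact h2⟩
      · by_cases h1 : i.1 = 1
        · exact good_const g _ (p := p2) (Subgroup.subset_closure (by simp)) fun t => by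
            rw [rep_of]; simp [gen, h1]
        · exact good_const g _ (one_mem _) fun t => by
            rw [rep_of]; simp [gen, h0, h1]
    · exact good_const g _ (one_mem _) fun t => by rw [rep_of]; simp [gen]
  | one => exact good_const g _ (one_mem _) fun t => by simp
  | mul x y _ _ hx hy =>
    obtain ⟨⟨p, hp, e1⟩, w, h1⟩ := hx
    obtain ⟨⟨q, hq, e2⟩, w', h2⟩ := hy
    refine ⟨⟨q * p, mul_mem hq hp, by rw [map_mul, Submonoid.coe_mul, e1, e2, permMatrix_mul]⟩,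
      w + p.permMatrix ℝ *ᵥ w', ?_⟩
    have h3 := h1.mul h2
    simp only [map_mul, Submonoid.coe_mul]
    rw [XX_add, Matrix.add_mul, ← Matrix.mul_assoc, ← Matrix.mul_assoc]
    rw [← Matrix.mul_assoc] at h3
    rw [e1] at h3 ⊢
    rw [← mul_XX (perm_orth p) (perm_ee p)]
    exact h3
  | inv x _ hx =>
    obtain ⟨⟨p, hp, e1⟩, w, h1⟩ := hx
    have e0 : ∀ t, (rep g t x⁻¹).1 = ((rep g t x).1)ᵀ := fun t => by rw [map_inv]; rfl
    refine ⟨⟨p⁻¹, inv_mem hp, by rw [e0, e1, transpose_permMatrix]⟩,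
      -((p⁻¹).permMatrix ℝ *ᵥ w), ?_⟩
    have h3 := h1.transpose
    simp only [e0]
    rw [e1] at h3 ⊢
    rw [transpose_mul, XX_transpose, transpose_permMatrix, Matrix.mul_neg,
      mul_XX (perm_orth _) (perm_ee _)] at h3
    rw [XX_neg, transpose_permMatrix, Matrix.neg_mul]
    exact h3

theorem main (g : ℕ) (hg : 2 ≤ g) :
    ∃ (ρ : ℝ → (SurfaceGroup g →* SO16)) (c : SurfaceGroup g → Matrix (Fin 16) (Fin 16) ℝ),
      (∀ h : SO16, (∀ γ, h * ρ 0 γ = ρ 0 γ * h) → h.1 = 1 ∨ h.1 = -1) ∧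
      (∀ γ i j, HasDerivAt (fun t => (ρ t γ).1 i j) (c γ i j) 0) ∧
      (¬ ∃ Y : Matrix (Fin 16) (Fin 16) ℝ, ∀ γ, c γ = Y * (ρ 0 γ).1 - (ρ 0 γ).1 * Y) ∧
      ∀ f : (Fin 16 → Fin 16 → ℝ) → ℝ,
        DifferentiableOn ℝ f {A | Matrix.of A ∈ specialOrthogonalGroup (Fin 16) ℝ} →
        (∀ h k : SO16, f (fun i j => (h * k * h⁻¹).1 i j) = f (fun i j => k.1 i j)) →
        ∀ γ, HasDerivAt (fun t => f (fun i j => (ρ t γ).1 i j)) 0 0 := by
  choose w hw using fun γ => (good g γ).2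
  obtain ⟨a1, a2⟩ := D_a1 (g := g) ⟨0, by omega⟩ rfl
  refine ⟨rep g, fun γ => XX ee (w γ) * (rep g 0 γ).1, fun h hh => ?_, hw, ?_,
    fun f hf hconj γ => ?_⟩
  · refine central h.2 ?_ ?_
    · have := congrArg Subtype.val (hh (PresentedGroup.of (⟨0, by omega⟩, false)))
      rwa [Submonoid.coe_mul, Submonoid.coe_mul, a1] at this
    · have := congrArg Subtype.val (hh (PresentedGroup.of (⟨1, by omega⟩, false)))
      rw [Submonoid.coe_mul, Submonoid.coe_mul, rep_of] at this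
      simpa [gen] using this
  · rintro ⟨Y, hY⟩
    have h1 := hY (PresentedGroup.of (⟨0, by omega⟩, false))
    have h2 : XX ee (w (PresentedGroup.of (⟨0, by omega⟩, false))) *
        (rep g 0 (PresentedGroup.of (⟨0, by omega⟩, false))).1 =
        XX ee ((2 / (ee ⬝ᵥ ee)) • uu) * p1.permMatrix ℝ := by
      ext i j
      exact (hw _ i j).unique (a2 i j)
    beta_reduce at h1
    rw [h2, a1] at h1
    have h3 := congrFun (congrArg (fun M => M *ᵥ ee) h1) 0
    simp only [sub_mulVec, ← mulVec_mulVec, perm_ee] at h3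
    simp only [sub_mulVec, XX, vecMulVec_mulVec, permMatrix_mulVec,
      Pi.sub_apply, Function.comp_apply, smul_dotProduct, dotProduct_comm uu ee, ee_uu,
      ee_ee] at h3
    have h4 : p1 0 = 0 := by decide
    rw [h4] at h3
    simp [uu] at h3
  · obtain ⟨p, hp, e1⟩ := (good g γ).1
    have hL := (hf (rep g 0 γ).1 (rep g 0 γ).2).hasFDerivWithinAt
    have h1 := chain (s := fun t => (rep g t γ).1) hL (hw γ)
      (Eventually.of_forall fun t => (rep g t γ).2)
    rw [kill (rep g 0 γ).2 hL (fun h k hh hk => hconj ⟨h, hh⟩ ⟨k, hk⟩)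
      (by rw [ee_ee]; norm_num) (by rw [e1, perm_ee])
      (fun w0 => by rw [e1]; exact exists_fixed (orderOf_le (isAff_of_mem hp)) ee w0)] at h1
    exact h1

end Pool.Agent.H564Z.SO
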